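import Mathlib

/-!
# The zero scheme of a section of a line bundle

`P` is covered by opens `U i`, with functions `g i` on `U i` such that `g j` is a multiple of
`g i` on the intersection. The `g i` define a closed subscheme of `P`.
-/

namespace Pool.Agent.Lib.MP_4ca46c_ag.Hyp

open CategoryTheory Limits AlgebraicGeometry Opposite

variable {P : Scheme.{0}} {κ : Type} (U : κ → P.Opens)

section

variable {U} (g : ∀ i, Γ(P, U i))

/-- The ideal of `g i` on the open subscheme `U i`. -/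
noncomputable def zI (i : κ) : (U i).toScheme.IdealSheafData :=
  Scheme.IdealSheafData.ofIdealTop (Ideal.span {(U i).ι.appLE (U i) ⊤ (by simp) (g i)})

theorem zI_ideal (i : κ) (W : (U i).toScheme.affineOpens) :
    (zI g i).ideal W = Ideal.span {(U i).ι.appLE (U i) W.1 (le_trans le_top (by simp)) (g i)} := by
  rw [zI, Scheme.IdealSheafData.ofIdealTop_ideal, Ideal.map_span, Set.image_singleton]
  congr 2
  rw [← CommRingCat.comp_apply, Scheme.Hom.appLE_map]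

/-- The ideal sheaf on `P`. -/
noncomputable def zJ [Finite κ] : P.IdealSheafData := ⨅ i, (zI g i).map (U i).ι

theorem zJ_ideal [Finite κ] [∀ i, IsAffineHom (U i).ι] (V : P.affineOpens) :
    (zJ g).ideal V = ⨅ i, ((zI g i).ideal ⟨_, V.2.preimage (U i).ι⟩).comap
      ((U i).ι.app V).hom := by
  rw [zJ, Scheme.IdealSheafData.ideal_iInf]
  rw [iInf_apply]
  exact iInf_congr fun i => Scheme.IdealSheafData.ideal_map_of_isAffineHom _ _ _

theorem le_inf_pre {i j : κ} {V : P.Opens} (hV : V ≤ U j) :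
    (U i).ι ⁻¹ᵁ V ≤ (U i).ι ⁻¹ᵁ (U i ⊓ U j) := by
  intro x hx
  exact ⟨x.2, hV hx⟩

theorem mem_zJ [Finite κ] [∀ i, IsAffineHom (U i).ι]
    (hg : ∀ i j, ∃ u : Γ(P, U i ⊓ U j), P.presheaf.map (homOfLE inf_le_right).op (g j) =
      u * P.presheaf.map (homOfLE inf_le_left).op (g i)) (j : κ) (V : P.affineOpens)
    (hV : V.1 ≤ U j) : P.presheaf.map (homOfLE hV).op (g j) ∈ (zJ g).ideal V := by
  rw [zJ_ideal, Ideal.mem_iInf]
  intro i
  rw [Ideal.mem_comap, zI_ideal]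
  obtain ⟨u, hu⟩ := hg i j
  have h1 : (U i).ι ⁻¹ᵁ V.1 ≤ (U i).ι ⁻¹ᵁ (U i ⊓ U j) := le_inf_pre hV
  have h2 := congrArg ((U i).ι.appLE (U i ⊓ U j) ((U i).ι ⁻¹ᵁ V.1) h1) hu
  rw [map_mul, ← CommRingCat.comp_apply, ← CommRingCat.comp_apply, Scheme.Hom.map_appLE,
    Scheme.Hom.map_appLE] at h2
  have h3 : (U i).ι.app V.1 (P.presheaf.map (homOfLE hV).op (g j)) =
      (U i).ι.appLE (U j) ((U i).ι ⁻¹ᵁ V.1) (h1.trans (fun x hx => hx.2)) (g j) := by
    rw [Scheme.Hom.app_eq_appLE, ← CommRingCat.comp_apply, Scheme.Hom.map_appLE]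
  erw [h3, h2]
  exact Ideal.mul_mem_left _ _ (Ideal.subset_span rfl)

theorem zJ_le [Finite κ] [∀ i, IsAffineHom (U i).ι] (i : κ) (V : P.affineOpens)
    (hV : V.1 ≤ U i) : (zJ g).ideal V ≤ Ideal.span {P.presheaf.map (homOfLE hV).op (g i)} := by
  intro s hs
  rw [zJ_ideal, Ideal.mem_iInf] at hs
  have hs := hs i
  rw [Ideal.mem_comap, zI_ideal, Ideal.mem_span_singleton] at hs
  obtain ⟨c, hc⟩ := hs
  have : IsIso ((U i).ι.app V.1) := (U i).ι.isIso_app V.1 (by simpa using hV)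
  have hb := ConcreteCategory.bijective_of_isIso ((U i).ι.app V.1)
  obtain ⟨d, rfl⟩ := hb.2 c
  rw [Ideal.mem_span_singleton]
  refine ⟨d, hb.1 ?_⟩
  have h3 : (U i).ι.app V.1 (P.presheaf.map (homOfLE hV).op (g i)) =
      (U i).ι.appLE (U i) ((U i).ι ⁻¹ᵁ V.1) (le_trans le_top (by simp)) (g i) := by
    rw [Scheme.Hom.app_eq_appLE, ← CommRingCat.comp_apply, Scheme.Hom.map_appLE]
  rw [map_mul]
  refine hc.trans ?_
  congr 1
  exact h3.symm

theorem pre_mono {T : Scheme.{0}} (t : T ⟶ P) {V W : P.Opens} (h : V ≤ W) :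
    t ⁻¹ᵁ V ≤ t ⁻¹ᵁ W := fun _ hx => h hx

theorem sec_ext {T : Scheme.{0}} {W : T.Opens} {s s' : Γ(T, W)} {ι : Type*} (V : ι → T.Opens)
    (hV : ∀ i, V i ≤ W) (hW : W ≤ ⨆ i, V i)
    (h : ∀ i, T.presheaf.map (homOfLE (hV i)).op s = T.presheaf.map (homOfLE (hV i)).op s') :
    s = s' :=
  TopCat.Sheaf.eq_of_locally_eq' T.sheaf V W (fun i => homOfLE (hV i)) hW s s' h

theorem sec_zero {T : Scheme.{0}} {W : T.Opens} {s : Γ(T, W)} {ι : Type*} (V : ι → T.Opens)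
    (hV : ∀ i, V i ≤ W) (hW : W ≤ ⨆ i, V i)
    (h : ∀ i, T.presheaf.map (homOfLE (hV i)).op s = 0) : s = 0 :=
  sec_ext V hV hW fun i => by rw [h, map_zero]

theorem map_app {T : Scheme.{0}} (t : T ⟶ P) {V W : P.Opens} (h : V ≤ W) (s : Γ(P, W)) :
    T.presheaf.map (homOfLE (pre_mono t h)).op (t.app W s) =
      t.app V (P.presheaf.map (homOfLE h).op s) := by
  rw [← CommRingCat.comp_apply, ← CommRingCat.comp_apply, t.naturality]
  rfl

theorem zJ_le_ker [Finite κ] [∀ i, IsAffineHom (U i).ι] (hU : ⨆ i, U i = ⊤)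
    (hg : ∀ i j, ∃ u : Γ(P, U i ⊓ U j), P.presheaf.map (homOfLE inf_le_right).op (g j) =
      u * P.presheaf.map (homOfLE inf_le_left).op (g i)) {T : Scheme.{0}} (t : T ⟶ P) :
    zJ g ≤ t.ker ↔ ∀ i, t.app (U i) (g i) = 0 := by
  constructor
  · intro h i
    have h := Scheme.IdealSheafData.le_ofIdeals_iff.1 h
    refine sec_zero (fun V : {V : P.affineOpens // V.1 ≤ U i} => t ⁻¹ᵁ V.1.1)
      (fun V => pre_mono t V.2) ?_ ?_
    · intro x hx
      obtain ⟨W, hW, hxW, hWU⟩ := TopologicalSpace.Opens.isBasis_iff_nbhd.1 P.isBasis_affineOpens hx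
      exact TopologicalSpace.Opens.mem_iSup.2 ⟨⟨⟨W, hW⟩, hWU⟩, hxW⟩
    · intro V
      have h1 := h V.1 (mem_zJ g hg i V.1 V.2)
      rw [RingHom.mem_ker] at h1
      rw [map_app]
      exact h1
  · intro h
    refine Scheme.IdealSheafData.le_ofIdeals_iff.2 fun V s hs => ?_
    rw [RingHom.mem_ker]
    refine sec_zero (fun W : {W : P.affineOpens // W.1 ≤ V.1 ∧ ∃ i, W.1 ≤ U i} => t ⁻¹ᵁ W.1.1)
      (fun W => pre_mono t W.2.1) ?_ ?_
    · intro x hx
      obtain ⟨i, hi⟩ := TopologicalSpace.Opens.mem_iSup.1 (hU.ge (Set.mem_univ (t x)))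
      obtain ⟨W, hW, hxW, hWU⟩ := TopologicalSpace.Opens.isBasis_iff_nbhd.1 P.isBasis_affineOpens
        (show t x ∈ V.1 ⊓ U i from ⟨hx, hi⟩)
      exact TopologicalSpace.Opens.mem_iSup.2
        ⟨⟨⟨W, hW⟩, fun y hy => (hWU hy).1, i, fun y hy => (hWU hy).2⟩, hxW⟩
    · rintro ⟨W, hWV, i, hWi⟩
      have h1 : P.presheaf.map (homOfLE hWV).op s ∈ (zJ g).ideal W := by
        rw [← (zJ g).map_ideal hWV]
        exact Ideal.mem_map_of_mem _ hs
      obtain ⟨c, hc⟩ := Ideal.mem_span_singleton.1 (zJ_le g i W hWi h1)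
      have h3 := map_app t hWV s
      rw [hc, map_mul, ← map_app t hWi, h i, map_zero, zero_mul] at h3
      exact h3

/-- The zero scheme. -/
noncomputable abbrev zero [Finite κ] : Scheme.{0} := (zJ g).subscheme

/-- The inclusion of the zero scheme. -/
noncomputable abbrev zeroι [Finite κ] : zero g ⟶ P := (zJ g).subschemeι

theorem zero_iff [Finite κ] [∀ i, IsAffineHom (U i).ι] (hU : ⨆ i, U i = ⊤)
    (hg : ∀ i j, ∃ u : Γ(P, U i ⊓ U j), P.presheaf.map (homOfLE inf_le_right).op (g j) =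
      u * P.presheaf.map (homOfLE inf_le_left).op (g i)) {T : Scheme.{0}} (t : T ⟶ P) :
    (∃ t', t' ≫ zeroι g = t) ↔ ∀ i, t.app (U i) (g i) = 0 := by
  rw [← zJ_le_ker g hU hg]
  constructor
  · rintro ⟨t', rfl⟩
    have h := Scheme.Hom.le_ker_comp t' (zeroι g)
    rwa [Scheme.IdealSheafData.ker_subschemeι] at h
  · intro h
    exact ⟨IsClosedImmersion.lift (zJ g).subschemeι t (by simpa using h),
      IsClosedImmersion.lift_fac _ _ _⟩

end

end Pool.Agent.Lib.MP_4ca46c_ag.Hyp
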