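import Mathlib
import Pool.Agent.Lib.MP_4ca46c_ag.Hyp.Zero

/-!
# Homogeneous coordinates and the universal hyperplane section

`Coord s κ`: homogeneous coordinates `x_j`, `j ∈ κ`, on a scheme `Z` over `S`, given by the opens
`D i` where `x_i ≠ 0` and the functions `f i j = x_j / x_i` on `D i`. The universal hyperplane
section is the closed subscheme `∑ a_j x_j = 0` of the affine space `𝔸(κ; Z)` with coordinates
`a_j`.
-/

namespace Pool.Agent.Lib.MP_4ca46c_ag.Hyp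

open CategoryTheory Limits AlgebraicGeometry Opposite

/-- Homogeneous coordinates `x_j` on a scheme `Z`, that is, a morphism from `Z` to the
projective space with coordinates `x_j`. -/
structure PreCoord (Z : Scheme.{0}) (κ : Type) where
  /-- the open set where `x_i ≠ 0` -/
  D : κ → Z.Opens
  /-- the function `x_j / x_i` -/
  f : ∀ i, κ → Γ(Z, D i)
  iSup_D : ⨆ i, D i = ⊤
  f_self : ∀ i, f i i = 1
  f_mul : ∀ i j l, Z.presheaf.map (homOfLE inf_le_left).op (f i l) =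
    (Z.presheaf.map (homOfLE inf_le_left).op (f i j) *
      Z.presheaf.map (homOfLE inf_le_right).op (f j l) : Γ(Z, D i ⊓ D j))
  basicOpen_le : ∀ i j, Z.basicOpen (f i j) ≤ D j

/-- Homogeneous coordinates `x_j` on a scheme `Z` over `S`, which determine the points. -/
structure Coord {Z S : Scheme.{0}} (s : Z ⟶ S) (κ : Type) extends PreCoord Z κ where
  affine : ∀ i, IsAffineHom (D i).ι
  /-- a point of `D i` over `S` is determined by its coordinates -/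
  sep : ∀ i (T : Scheme.{0}) (z z' : T ⟶ Z) (h : ⊤ ≤ z ⁻¹ᵁ D i) (h' : ⊤ ≤ z' ⁻¹ᵁ D i),
    z ≫ s = z' ≫ s → (∀ j, z.appLE (D i) ⊤ h (f i j) = z'.appLE (D i) ⊤ h' (f i j)) → z = z'

namespace PreCoord

variable {Z : Scheme.{0}} {κ : Type} (C : PreCoord Z κ)

theorem f_mul' {T : Scheme.{0}} (z : T ⟶ Z) (W : T.Opens) (i j l : κ) (hi : W ≤ z ⁻¹ᵁ C.D i)
    (hj : W ≤ z ⁻¹ᵁ C.D j) : z.appLE (C.D i) W hi (C.f i l) =
      z.appLE (C.D i) W hi (C.f i j) * z.appLE (C.D j) W hj (C.f j l) := by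
  have h := congrArg (z.appLE (C.D i ⊓ C.D j) W (le_inf hi hj)) (C.f_mul i j l)
  rw [map_mul, ← CommRingCat.comp_apply, ← CommRingCat.comp_apply, ← CommRingCat.comp_apply,
    Scheme.Hom.map_appLE, Scheme.Hom.map_appLE] at h
  exact h

section eqn

variable [Fintype κ] {T : Scheme.{0}}

/-- The function `∑ j, a_j x_j / x_i`. -/
noncomputable def eqn (z : T ⟶ Z) (a : κ → Γ(T, ⊤)) (i : κ) (W : T.Opens)
    (h : W ≤ z ⁻¹ᵁ C.D i) : Γ(T, W) :=
  ∑ j, T.presheaf.map (homOfLE le_top).op (a j) * z.appLE (C.D i) W h (C.f i j)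

theorem eqn_res (z : T ⟶ Z) (a : κ → Γ(T, ⊤)) (i : κ) {W W' : T.Opens}
    (h : W ≤ z ⁻¹ᵁ C.D i) (h' : W' ≤ W) : T.presheaf.map (homOfLE h').op (C.eqn z a i W h) =
      C.eqn z a i W' (h'.trans h) := by
  rw [eqn, eqn, map_sum]
  refine Finset.sum_congr rfl fun j _ => ?_
  rw [map_mul, ← CommRingCat.comp_apply, ← CommRingCat.comp_apply, ← Functor.map_comp,
    Scheme.Hom.appLE_map]
  rfl

theorem map_eqn {T' : Scheme.{0}} (t : T' ⟶ T) (z : T ⟶ Z) (a : κ → Γ(T, ⊤)) (i : κ)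
    {W : T.Opens} {W' : T'.Opens} (h : W ≤ z ⁻¹ᵁ C.D i) (h' : W' ≤ t ⁻¹ᵁ W) :
    t.appLE W W' h' (C.eqn z a i W h) =
      C.eqn (t ≫ z) (fun j => t.appTop (a j)) i W' (h'.trans (pre_mono t h)) := by
  rw [eqn, eqn, map_sum]
  refine Finset.sum_congr rfl fun j _ => ?_
  rw [map_mul, ← CommRingCat.comp_apply, ← CommRingCat.comp_apply, Scheme.Hom.map_appLE,
    Scheme.Hom.appLE_comp_appLE]
  rfl

theorem eqn_mul (z : T ⟶ Z) (a : κ → Γ(T, ⊤)) (i j : κ) {W : T.Opens}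
    (hi : W ≤ z ⁻¹ᵁ C.D i) (hj : W ≤ z ⁻¹ᵁ C.D j) :
    C.eqn z a j W hj = z.appLE (C.D j) W hj (C.f j i) * C.eqn z a i W hi := by
  rw [eqn, eqn, Finset.mul_sum]
  refine Finset.sum_congr rfl fun l _ => ?_
  rw [C.f_mul' z W j i l hj hi, mul_left_comm]

/-- The condition that `z` lies on the hyperplane `∑ a_j x_j = 0`. -/
def Van (z : T ⟶ Z) (a : κ → Γ(T, ⊤)) : Prop := ∀ i, C.eqn z a i (z ⁻¹ᵁ C.D i) le_rfl = 0

theorem van_iff_of_le (z : T ⟶ Z) (a : κ → Γ(T, ⊤)) (i : κ) (h : ⊤ ≤ z ⁻¹ᵁ C.D i) :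
    C.Van z a ↔ ∑ j, a j * z.appLE (C.D i) ⊤ h (C.f i j) = 0 := by
  have key : C.eqn z a i ⊤ h = ∑ j, a j * z.appLE (C.D i) ⊤ h (C.f i j) := by
    rw [eqn]
    refine Finset.sum_congr rfl fun j _ => ?_
    congr 1
    exact congrArg (fun φ : Γ(T, ⊤) ⟶ Γ(T, ⊤) => φ (a j)) (T.presheaf.map_id (op ⊤))
  rw [← key]
  constructor
  · intro H
    rw [← C.eqn_res z a i le_rfl h, H i, map_zero]
  · intro H j
    rw [C.eqn_mul z a i j (le_top.trans h) le_rfl, ← C.eqn_res z a i h le_top, H, map_zero,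
      mul_zero]

theorem Van.comp {T' : Scheme.{0}} (t : T' ⟶ T) {z : T ⟶ Z} {a : κ → Γ(T, ⊤)}
    (H : C.Van z a) : C.Van (t ≫ z) (fun j => t.appTop (a j)) := by
  intro i
  have h := C.map_eqn t z a i le_rfl (show (t ≫ z) ⁻¹ᵁ C.D i ≤ t ⁻¹ᵁ (z ⁻¹ᵁ C.D i) from le_rfl)
  rw [H i, map_zero] at h
  exact h.symm

end eqn

end PreCoord

end Pool.Agent.Lib.MP_4ca46c_ag.Hyp
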