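import Mathlib

/-!
# Projective space
-/

namespace Pool.Agent.Lib.MP_4ca46c_ag.Hyp

open CategoryTheory Limits AlgebraicGeometry Opposite HomogeneousLocalization MvPolynomial

attribute [local instance] MvPolynomial.gradedAlgebra

variable (k : Type) [Field k] (κ : Type)

/-- Projective space with homogeneous coordinates `x_j`, `j ∈ κ`. -/
noncomputable abbrev PS : Scheme.{0} := Proj (homogeneousSubmodule κ k)

/-- The structure morphism of projective space. -/
noncomputable def psStr : PS k κ ⟶ Spec (CommRingCat.of k) :=
  Proj.toSpecZero (homogeneousSubmodule κ k) ≫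
    Spec.map (CommRingCat.ofHom (algebraMap k (homogeneousSubmodule κ k 0)))

end Pool.Agent.Lib.MP_4ca46c_ag.Hyp
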