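import Mathlib
import Pool.Agent.Lib.MP_4ca46c_ag.Hyp.Coord
import Pool.Agent.Lib.MP_4ca46c_ag.Hyp.PS

/-!
# Projective space and its homogeneous coordinates
-/

namespace Pool.Agent.Lib.MP_4ca46c_ag.Hyp

open CategoryTheory Limits AlgebraicGeometry Opposite HomogeneousLocalization MvPolynomial

attribute [local instance] MvPolynomial.gradedAlgebra

variable {k : Type} [Field k] {κ : Type}

theorem hX (i : κ) : (X i : MvPolynomial κ k) ∈ homogeneousSubmodule κ k 1 :=
  isHomogeneous_X k i

/-- The fraction `x_j / x_i`. -/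
noncomputable def frac (i j : κ) : Away (homogeneousSubmodule κ k) (X i : MvPolynomial κ k) :=
  Away.mk (homogeneousSubmodule κ k) (hX i) 1 (X j) (by simpa using hX j)

theorem frac_self (i : κ) : frac (k := k) i i = 1 := by
  refine HomogeneousLocalization.val_injective _ ?_
  rw [frac, Away.val_mk, val_one]
  rw [← Localization.mk_one, Localization.mk_eq_mk_iff, Localization.r_iff_exists]
  exact ⟨1, by simp⟩

/-- The opens `D_+(x_i)`. -/
noncomputable abbrev psD (i : κ) : (PS k κ).Opens :=
  Proj.basicOpen (homogeneousSubmodule κ k) (X i)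

/-- The functions `x_j / x_i` on `D_+(x_i)`. -/
noncomputable def psf (i j : κ) : Γ(PS k κ, psD (k := k) i) :=
  Proj.awayToSection (homogeneousSubmodule κ k) (X i) (frac i j)

theorem psf_self (i : κ) : psf (k := k) i i = 1 := by
  rw [psf, frac_self, map_one]

theorem iSup_psD : ⨆ i, psD (k := k) (κ := κ) i = ⊤ := by
  refine Proj.iSup_basicOpen_eq_top' _ _ (fun i => ⟨1, hX i⟩) ?_
  rw [eq_top_iff]
  intro x _
  have h : x ∈ Algebra.adjoin k (Set.range (X : κ → MvPolynomial κ k)) := by
    rw [adjoin_range_X]; trivial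
  refine Algebra.adjoin_induction (fun y hy => Algebra.subset_adjoin hy) (fun r => ?_)
    (fun _ _ _ _ => add_mem) (fun _ _ _ _ => mul_mem) h
  exact (Algebra.adjoin (homogeneousSubmodule κ k 0)
    (Set.range (X : κ → MvPolynomial κ k))).algebraMap_mem
    ⟨C r, isHomogeneous_C κ r⟩

theorem psf_mul (i j l : κ) : (PS k κ).presheaf.map (homOfLE inf_le_left).op (psf i l) =
    ((PS k κ).presheaf.map (homOfLE inf_le_left).op (psf i j) *
      (PS k κ).presheaf.map (homOfLE inf_le_right).op (psf j l) :
      Γ(PS k κ, psD (k := k) i ⊓ psD j)) := by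
  have e : Proj.basicOpen (homogeneousSubmodule κ k) (X i * X j) = psD i ⊓ psD j :=
    Proj.basicOpen_mul _ _ _
  have inj : Function.Injective ((PS k κ).presheaf.map (homOfLE (le_of_eq e)).op) := by
    have : IsIso (homOfLE (le_of_eq e)) := ⟨homOfLE (le_of_eq e.symm), rfl, rfl⟩
    exact (ConcreteCategory.bijective_of_isIso ((PS k κ).presheaf.map (homOfLE (le_of_eq e)).op)).1
  apply inj
  rw [map_mul, ← CommRingCat.comp_apply, ← CommRingCat.comp_apply, ← CommRingCat.comp_apply,
    ← Functor.map_comp, ← Functor.map_comp]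
  have h1 := Proj.awayMap_awayToSection (homogeneousSubmodule κ k) (f := X i) (hX j)
    (rfl : (X i * X j : MvPolynomial κ k) = X i * X j)
  have h2 := Proj.awayMap_awayToSection (homogeneousSubmodule κ k) (f := X j) (hX i)
    (mul_comm (X i) (X j) : (X i * X j : MvPolynomial κ k) = X j * X i)
  have e1 : ∀ l, (PS k κ).presheaf.map (homOfLE (Proj.basicOpen_mono _ _ _ ⟨_, rfl⟩)).op
      (psf i l) = Proj.awayToSection (homogeneousSubmodule κ k) (X i * X j)
        (awayMap (homogeneousSubmodule κ k) (hX j) rfl (frac i l)) := fun l =>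
    (congrArg (fun φ => φ.hom (frac i l)) h1).symm
  have e2 : ∀ l, (PS k κ).presheaf.map (homOfLE (Proj.basicOpen_mono _ _ _
      ⟨_, mul_comm (X i) (X j)⟩)).op (psf j l) =
      Proj.awayToSection (homogeneousSubmodule κ k) (X i * X j)
        (awayMap (homogeneousSubmodule κ k) (hX i) (mul_comm _ _) (frac j l)) := fun l =>
    (congrArg (fun φ => φ.hom (frac j l)) h2).symm
  refine (e1 l).trans (Eq.trans ?_ (congrArg₂ (· * ·) (e1 j) (e2 l)).symm)
  rw [← map_mul]
  congr 1
  refine HomogeneousLocalization.val_injective _ ?_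
  rw [val_mul, frac, frac, frac, awayMap_mk, awayMap_mk, awayMap_mk, Away.val_mk, Away.val_mk,
    Away.val_mk, Localization.mk_mul, Localization.mk_eq_mk_iff, Localization.r_iff_exists]
  refine ⟨1, ?_⟩
  simp only [OneMemClass.coe_one, one_mul, pow_one, Submonoid.mk_mul_mk]
  ring

/-- The isomorphism of `D_+(x_i)` with the spectrum of the degree zero fractions. -/
noncomputable abbrev psIso (i : κ) : (psD (k := k) i).toScheme ≅
    Spec (CommRingCat.of (Away (homogeneousSubmodule κ k) (X i : MvPolynomial κ k))) :=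
  Proj.basicOpenIsoSpec (homogeneousSubmodule κ k) (X i) (hX i) one_pos

/-- The affine charts. -/
noncomputable abbrev psι (i : κ) :
    Spec (CommRingCat.of (Away (homogeneousSubmodule κ k) (X i : MvPolynomial κ k))) ⟶ PS k κ :=
  Proj.awayι (homogeneousSubmodule κ k) (X i) (hX i) one_pos

theorem psι_pre (i j : κ) : psι (k := k) i ⁻¹ᵁ psD j = PrimeSpectrum.basicOpen (frac i j) := by
  have h := Proj.awayι_preimage_basicOpen (homogeneousSubmodule κ k) (hX (k := k) i) one_pos
    (hX j) one_pos
  rw [h]
  congr 1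
  refine HomogeneousLocalization.val_injective _ ?_
  rw [frac, Away.val_mk, Away.val_mk, pow_one]

theorem psBasicOpen_le (i j : κ) : (PS k κ).basicOpen (psf i j) ≤ psD j := by
  intro x hx
  have hxi : x ∈ psD i := (PS k κ).basicOpen_le _ hx
  let w : (psD (k := k) i).toScheme := ⟨x, hxi⟩
  have h1 : w ∈ (psD (k := k) i).ι ⁻¹ᵁ (PS k κ).basicOpen (psf i j) := hx
  rw [← Scheme.Opens.toSpecΓ_preimage_basicOpen] at h1
  have h2 : (psIso i).hom w ∈ PrimeSpectrum.basicOpen (frac (k := k) i j) := h1
  rw [← psι_pre] at h2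
  have h3 : psι i ((psIso i).hom w) = x := by
    have h4 : (psIso (k := k) i).hom ≫ psι i = (psD i).ι := by
      rw [psι, ← Proj.basicOpenIsoSpec_inv_ι, Iso.hom_inv_id_assoc]
    have h5 := congrArg (fun φ => φ w) h4
    exact h5
  rw [← h3]
  exact h2

instance (i : κ) : IsAffineHom (psD (k := k) i).ι := by
  have : IsAffine (psD (k := k) i).toScheme :=
    Proj.isAffineOpen_basicOpen (homogeneousSubmodule κ k) (X i) (hX i) one_pos
  exact IsAffineHom.of_comp (psD (k := k) i).ι (Proj.toSpecZero (homogeneousSubmodule κ k))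

theorem psι_app (i : κ) (h : ⊤ ≤ psι (k := k) i ⁻¹ᵁ psD i)
    (a : Away (homogeneousSubmodule κ k) (X i : MvPolynomial κ k)) :
    (psι i).appLE (psD i) ⊤ h (Proj.awayToSection (homogeneousSubmodule κ k) (X i) a) =
      (Scheme.ΓSpecIso (CommRingCat.of
        (Away (homogeneousSubmodule κ k) (X i : MvPolynomial κ k)))).inv a := by
  have h1 : (psIso (k := k) i).hom.appTop = (Scheme.ΓSpecIso _).hom ≫
      Proj.awayToSection (homogeneousSubmodule κ k) (X i) ≫ (psD i).topIso.inv :=
    Proj.basicOpenToSpec_app_top (homogeneousSubmodule κ k) (X i : MvPolynomial κ k)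
  have h2 : (psι i).appLE (psD i) ⊤ h = (psD (k := k) i).topIso.inv ≫
      (psIso (k := k) i).inv.appTop := by
    have h3 := Scheme.Hom.appLE_comp_appLE (psIso (k := k) i).inv (psD i).ι (psD i) ⊤ ⊤
      (by simp) (le_of_eq rfl)
    have h4 : (psIso (k := k) i).inv.appLE ⊤ ⊤ (le_of_eq rfl) = (psIso (k := k) i).inv.appTop :=
      Scheme.Hom.appLE_eq_app _
    have h5 : (psD (k := k) i).ι.appLE (psD i) ⊤ (by simp) = (psD (k := k) i).topIso.inv := by
      rw [Scheme.Opens.ι_appLE, Scheme.Opens.topIso_inv]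
      rfl
    rw [h4, h5] at h3
    exact h3.symm
  rw [h2, ← CommRingCat.comp_apply]
  have h6 : Proj.awayToSection (homogeneousSubmodule κ k) (X i) ≫ (psD (k := k) i).topIso.inv ≫
      (psIso (k := k) i).inv.appTop = (Scheme.ΓSpecIso (CommRingCat.of
        (Away (homogeneousSubmodule κ k) (X i : MvPolynomial κ k)))).inv := by
    rw [← cancel_epi (Scheme.ΓSpecIso _).hom, Iso.hom_inv_id]
    have h7 := congrArg (fun φ => φ ≫ (psIso (k := k) i).inv.appTop) h1
    simp only [Category.assoc] at h7
    rw [← h7, ← Scheme.Hom.comp_appTop, Iso.inv_hom_id]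
    rfl
  exact congrArg (fun φ => φ.hom a) h6

/-- Dehomogenization. -/
noncomputable def dehom (i : κ) : MvPolynomial κ k →+* Away (homogeneousSubmodule κ k)
    (X i : MvPolynomial κ k) :=
  eval₂Hom ((fromZeroRingHom (homogeneousSubmodule κ k) _).comp
    (algebraMap k (homogeneousSubmodule κ k 0))) (frac i)

theorem dehom_eq (i : κ) (n : ℕ) (x : MvPolynomial κ k)
    (hx : x ∈ homogeneousSubmodule κ k (n • 1)) :
    Away.mk (homogeneousSubmodule κ k) (hX i) n x hx = dehom i x := by
  refine HomogeneousLocalization.val_injective _ ?_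
  rw [Away.val_mk]
  set L := Localization.Away (X i : MvPolynomial κ k)
  have key : (dehom i x).val * algebraMap (MvPolynomial κ k) L (X i ^ n) =
      algebraMap (MvPolynomial κ k) L x := by
    conv_lhs => rw [x.as_sum]
    conv_rhs => rw [x.as_sum]
    rw [map_sum, map_sum, ← HomogeneousLocalization.algebraMap_apply, map_sum, Finset.sum_mul]
    refine Finset.sum_congr rfl fun v hv => ?_
    have hn : ∑ j ∈ v.support, v j = n := by
      have h := hx (mem_support_iff.1 hv)
      rw [smul_eq_mul, mul_one] at h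
      rw [← h]
      simp [Finsupp.weight_apply, Finsupp.sum]
    have hC : ∀ r, algebraMap (Away (homogeneousSubmodule κ k) (X i : MvPolynomial κ k)) L
        (dehom i (C r)) = algebraMap (MvPolynomial κ k) L (C r) := fun r => by
      rw [dehom, coe_eval₂Hom, eval₂_C]
      rfl
    have hXj : ∀ j, algebraMap (Away (homogeneousSubmodule κ k) (X i : MvPolynomial κ k)) L
        (dehom i (X j)) * algebraMap (MvPolynomial κ k) L (X i) =
          algebraMap (MvPolynomial κ k) L (X j) := fun j => by
      rw [dehom, coe_eval₂Hom, eval₂_X, HomogeneousLocalization.algebraMap_apply, frac,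
        Away.val_mk, ← Localization.mk_one_eq_algebraMap, ← Localization.mk_one_eq_algebraMap,
        Localization.mk_mul, Localization.mk_eq_mk_iff, Localization.r_iff_exists]
      refine ⟨1, ?_⟩
      simp only [OneMemClass.coe_one, one_mul, pow_one, mul_one]
      ring
    rw [monomial_eq, map_mul, map_mul, map_mul, hC, mul_assoc]
    congr 1
    rw [Finsupp.prod, map_prod, map_prod, map_prod, map_pow, ← hn,
      ← Finset.prod_pow_eq_pow_sum, ← Finset.prod_mul_distrib]
    refine Finset.prod_congr rfl fun j _ => ?_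
    rw [map_pow, map_pow, map_pow, ← mul_pow, hXj]
  have hu : IsUnit (algebraMap (MvPolynomial κ k) L (X i ^ n)) := by
    rw [map_pow]
    exact (IsLocalization.Away.algebraMap_isUnit (X i)).pow n
  refine hu.mul_right_cancel ?_
  rw [key, ← Localization.mk_one_eq_algebraMap, ← Localization.mk_one_eq_algebraMap,
    Localization.mk_mul, Localization.mk_eq_mk_iff, Localization.r_iff_exists]
  refine ⟨1, ?_⟩
  simp only [OneMemClass.coe_one, one_mul, mul_one]
  ring

theorem away_ext {i : κ} {R : Type*} [CommRing R]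
    {φ ψ : Away (homogeneousSubmodule κ k) (X i : MvPolynomial κ k) →+* R}
    (h : φ.comp ((fromZeroRingHom (homogeneousSubmodule κ k) _).comp
      (algebraMap k (homogeneousSubmodule κ k 0))) =
      ψ.comp ((fromZeroRingHom (homogeneousSubmodule κ k) _).comp
      (algebraMap k (homogeneousSubmodule κ k 0)))) (h' : ∀ j, φ (frac i j) = ψ (frac i j)) :
    φ = ψ := by
  have key : φ.comp (dehom i) = ψ.comp (dehom i) := by
    refine MvPolynomial.ringHom_ext (fun r => ?_) fun j => ?_
    · simpa [dehom] using congrArg (fun f => f r) h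
    · simpa [dehom] using h' j
  ext x
  obtain ⟨n, a, ha, rfl⟩ := Away.mk_surjective (homogeneousSubmodule κ k) (hX i) x
  rw [dehom_eq]
  exact congrArg (fun f => f a) key

end Pool.Agent.Lib.MP_4ca46c_ag.Hyp
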