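import Mathlib

/-!
# Affine space is smooth
-/

namespace Pool.Agent.Lib.MP_4ca46c_ag.Hyp

open CategoryTheory Limits AlgebraicGeometry Opposite MvPolynomial

theorem smooth_mvPoly (R : Type) [CommRing R] [Nontrivial R] (σ : Type) [Finite σ] :
    Algebra.IsStandardSmoothOfRelativeDimension (Nat.card σ) R (MvPolynomial σ R) := by
  have : Algebra.IsStandardSmooth R (MvPolynomial σ R) := by
    have : Subsingleton (Algebra.H1Cotangent R (MvPolynomial σ R)) := inferInstance
    refine Algebra.IsStandardSmooth.of_basis_kaehlerDifferential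
      (KaehlerDifferential.mvPolynomialBasis R σ) ?_
    rintro _ ⟨j, rfl⟩
    exact ⟨X j, by simp⟩
  rw [Algebra.IsStandardSmoothOfRelativeDimension.iff_of_isStandardSmooth]
  have := Fintype.ofFinite σ
  rw [rank_eq_card_basis (KaehlerDifferential.mvPolynomialBasis R σ), Nat.card_eq_fintype_card]

theorem affine_smooth (σ : Type) [Finite σ] (S : Scheme.{0}) (n : ℕ) (hn : Nat.card σ = n) :
    SmoothOfRelativeDimension n (𝔸(σ; S) ↘ S) := by
  subst hn
  have st := smoothOfRelativeDimension_isStableUnderBaseChange.{0} (Nat.card σ)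
  have ri : MorphismProperty.RespectsIso (@SmoothOfRelativeDimension.{0} (Nat.card σ)) :=
    st.respectsIso
  have key : SmoothOfRelativeDimension (Nat.card σ)
      (terminal.from (Spec (CommRingCat.of (MvPolynomial σ (ULift ℤ))))) := by
    have := isIso_of_isTerminal specULiftZIsTerminal.{0} terminalIsTerminal (terminal.from _)
    rw [← terminal.comp_from (Spec.map (CommRingCat.ofHom C)),
      MorphismProperty.cancel_right_of_respectsIso (P := @SmoothOfRelativeDimension (Nat.card σ)),
      HasRingHomProperty.Spec_iff (P := @SmoothOfRelativeDimension (Nat.card σ))]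
    refine RingHom.locally_of (RingHom.isStandardSmoothOfRelativeDimension_respectsIso) _ ?_
    have e : (C : ULift ℤ →+* MvPolynomial σ (ULift ℤ)).toAlgebra =
        (inferInstance : Algebra (ULift ℤ) (MvPolynomial σ (ULift ℤ))) :=
      Algebra.algebra_ext _ _ fun _ ↦ rfl
    rw [CommRingCat.hom_ofHom, RingHom.IsStandardSmoothOfRelativeDimension, e]
    exact smooth_mvPoly (ULift ℤ) σ
  exact MorphismProperty.IsStableUnderBaseChange.of_isPullback (IsPullback.of_hasPullback _ _).flip key

end Pool.Agent.Lib.MP_4ca46c_ag.Hyp
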