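import Mathlib
import Pool.Agent.Lib.MP_4ca46c_ag.Hyp.Coord

/-!
# The universal hyperplane section
-/

namespace Pool.Agent.Lib.MP_4ca46c_ag.Hyp

open CategoryTheory Limits AlgebraicGeometry Opposite

namespace Coord

variable {Z S : Scheme.{0}} {s : Z ⟶ S} {κ : Type} (C : Coord s κ)

instance affine_pre {T : Scheme.{0}} (z : T ⟶ Z) (i : κ) : IsAffineHom (z ⁻¹ᵁ C.D i).ι := by
  have := C.affine i
  exact MorphismProperty.of_isPullback (isPullback_morphismRestrict z (C.D i)) this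

theorem iSup_pre {T : Scheme.{0}} (z : T ⟶ Z) : ⨆ i, z ⁻¹ᵁ C.D i = ⊤ := by
  rw [eq_top_iff]
  intro x _
  obtain ⟨i, hi⟩ := TopologicalSpace.Opens.mem_iSup.1 (C.iSup_D.ge (Set.mem_univ (z x)))
  exact TopologicalSpace.Opens.mem_iSup.2 ⟨i, hi⟩

variable [Fintype κ]

/-- The equations of the universal hyperplane section. -/
noncomputable def g (i : κ) : Γ(𝔸(κ; Z), (𝔸(κ; Z) ↘ Z) ⁻¹ᵁ C.D i) :=
  C.eqn (𝔸(κ; Z) ↘ Z) (AffineSpace.coord Z) i ((𝔸(κ; Z) ↘ Z) ⁻¹ᵁ C.D i) le_rfl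

/-- The universal hyperplane section, the closed subscheme `∑ a_j x_j = 0` of `𝔸(κ; Z)`. -/
noncomputable def I : Scheme.{0} := zero C.g

/-- The inclusion in `𝔸(κ; Z)`. -/
noncomputable def inc : C.I ⟶ 𝔸(κ; Z) := zeroι C.g

instance : IsClosedImmersion C.inc := inferInstanceAs (IsClosedImmersion (zJ C.g).subschemeι)

/-- The projection to `Z`. -/
noncomputable def toZ : C.I ⟶ Z := C.inc ≫ (𝔸(κ; Z) ↘ Z)

/-- The coefficients of the equation. -/
noncomputable def vec (j : κ) : Γ(C.I, ⊤) := C.inc.appTop (AffineSpace.coord Z j)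

theorem inc_iff {T : Scheme.{0}} (t : T ⟶ 𝔸(κ; Z)) : (∃ t', t' ≫ C.inc = t) ↔
    C.Van (t ≫ (𝔸(κ; Z) ↘ Z)) (fun j => t.appTop (AffineSpace.coord Z j)) := by
  refine (zero_iff C.g (C.iSup_pre _) (fun i j => ?_) t).trans ?_
  · refine ⟨(𝔸(κ; Z) ↘ Z).appLE (C.D j) _ inf_le_right (C.f j i), ?_⟩
    rw [g, g, C.eqn_res, C.eqn_res]
    exact C.eqn_mul _ _ i j _ _
  · refine forall_congr' fun i => ?_
    have h := C.map_eqn t (𝔸(κ; Z) ↘ Z) (AffineSpace.coord Z) i le_rfl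
      (show (t ≫ (𝔸(κ; Z) ↘ Z)) ⁻¹ᵁ C.D i ≤ t ⁻¹ᵁ ((𝔸(κ; Z) ↘ Z) ⁻¹ᵁ C.D i) from le_rfl)
    rw [← h]
    rw [g, Scheme.Hom.app_eq_appLE]
    rfl

section

variable {T : Scheme.{0}}

/-- The morphism to the universal hyperplane section given by a point and an equation. -/
noncomputable def lift (z : T ⟶ Z) (a : κ → Γ(T, ⊤)) (H : C.Van z a) : T ⟶ C.I :=
  ((C.inc_iff (AffineSpace.homOfVector z a)).2 (by
    rw [AffineSpace.homOfVector_over]
    simpa only [AffineSpace.homOfVector_appTop_coord] using H)).choose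

theorem lift_inc (z : T ⟶ Z) (a : κ → Γ(T, ⊤)) (H : C.Van z a) :
    C.lift z a H ≫ C.inc = AffineSpace.homOfVector z a :=
  ((C.inc_iff (AffineSpace.homOfVector z a)).2 (by
    rw [AffineSpace.homOfVector_over]
    simpa only [AffineSpace.homOfVector_appTop_coord] using H)).choose_spec

theorem lift_toZ (z : T ⟶ Z) (a : κ → Γ(T, ⊤)) (H : C.Van z a) : C.lift z a H ≫ C.toZ = z := by
  rw [toZ, ← Category.assoc, lift_inc, AffineSpace.homOfVector_over]

theorem lift_vec (z : T ⟶ Z) (a : κ → Γ(T, ⊤)) (H : C.Van z a) (j : κ) :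
    (C.lift z a H).appTop (C.vec j) = a j := by
  rw [vec, ← CommRingCat.comp_apply, ← Scheme.Hom.comp_appTop, lift_inc,
    AffineSpace.homOfVector_appTop_coord]

theorem hom_ext {t t' : T ⟶ C.I} (h : t ≫ C.toZ = t' ≫ C.toZ)
    (h' : ∀ j, t.appTop (C.vec j) = t'.appTop (C.vec j)) : t = t' := by
  rw [← cancel_mono C.inc]
  refine AffineSpace.hom_ext ?_ fun j => ?_
  · rw [Category.assoc, Category.assoc]
    exact h
  · have h1 := h' j
    rw [vec, ← CommRingCat.comp_apply, ← CommRingCat.comp_apply, ← Scheme.Hom.comp_appTop,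
      ← Scheme.Hom.comp_appTop] at h1
    exact h1

theorem van_self : C.Van C.toZ C.vec := (C.inc_iff C.inc).1 ⟨𝟙 _, Category.id_comp _⟩

theorem van (t : T ⟶ C.I) : C.Van (t ≫ C.toZ) (fun j => t.appTop (C.vec j)) := by
  have h := (C.inc_iff (t ≫ C.inc)).1 ⟨t, rfl⟩
  rw [Category.assoc] at h
  exact h

end

end Coord

end Pool.Agent.Lib.MP_4ca46c_ag.Hyp
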