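import Mathlib
import Pool.Agent.Lib.MP_4ca46c_ag.Hyp.Family

/-!
# Two points impose independent conditions on hyperplanes
-/

namespace Pool.Agent.Lib.MP_4ca46c_ag.Hyp

open CategoryTheory Limits AlgebraicGeometry Opposite

section algebra

variable {κ : Type} [Fintype κ] [DecidableEq κ] {R : Type*} [CommRing R] (p q : κ)

theorem sum_split {p q : κ} (hpq : p ≠ q) (F : κ → R) :
    ∑ l, F l = F p + F q + ∑ k : {l // l ≠ p ∧ l ≠ q}, F k.1 := by
  rw [← Finset.add_sum_erase _ _ (Finset.mem_univ p),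
    ← Finset.add_sum_erase _ _ (Finset.mem_erase.2 ⟨hpq.symm, Finset.mem_univ q⟩), add_assoc]
  congr 2
  refine Finset.sum_subtype _ (fun l => ?_) F
  simp [and_comm]

/-- The solution of two linear equations. -/
def sol (w w' : κ → R) (δ : R) (c : {l // l ≠ p ∧ l ≠ q} → R) (l : κ) : R :=
  if hp : l = p then δ * (w q * (∑ k, c k * w' k.1) - w' q * ∑ k, c k * w k.1)
  else if hq : l = q then δ * (w' p * (∑ k, c k * w k.1) - w p * ∑ k, c k * w' k.1)
  else c ⟨l, hp, hq⟩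

variable {p q}

theorem sol_sum (hpq : p ≠ q) {w w' : κ → R} {δ : R}
    (hδ : δ * (w p * w' q - w q * w' p) = 1) (c : {l // l ≠ p ∧ l ≠ q} → R) :
    ∑ l, sol p q w w' δ c l * w l = 0 ∧ ∑ l, sol p q w w' δ c l * w' l = 0 := by
  have h1 : sol p q w w' δ c p =
      δ * (w q * (∑ k, c k * w' k.1) - w' q * ∑ k, c k * w k.1) := dif_pos rfl
  have h2 : sol p q w w' δ c q =
      δ * (w' p * (∑ k, c k * w k.1) - w p * ∑ k, c k * w' k.1) := by
    rw [sol, dif_neg hpq.symm, dif_pos rfl]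
  have h3 : ∀ k : {l // l ≠ p ∧ l ≠ q}, sol p q w w' δ c k.1 = c k := fun k => by
    rw [sol, dif_neg k.2.1, dif_neg k.2.2]
  rw [sum_split hpq, sum_split hpq, h1, h2]
  simp only [h3]
  constructor
  · linear_combination (-(∑ k, c k * w k.1)) * hδ
  · linear_combination (-(∑ k, c k * w' k.1)) * hδ

theorem sol_unique (hpq : p ≠ q) {w w' : κ → R} {δ : R}
    (hδ : δ * (w p * w' q - w q * w' p) = 1) {a : κ → R} (h : ∑ l, a l * w l = 0)
    (h' : ∑ l, a l * w' l = 0) (l : κ) : a l = sol p q w w' δ (fun k => a k.1) l := by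
  rw [sum_split hpq] at h h'
  rw [sol]
  split_ifs with h1 h2
  · subst h1
    linear_combination (-(a l)) * hδ + δ * w' q * h - δ * w q * h'
  · subst h2
    linear_combination (-(a l)) * hδ - δ * w' p * h + δ * w p * h'
  · rfl

theorem map_sol {R' : Type*} [CommRing R'] (φ : R →+* R') (w w' : κ → R) (δ : R)
    (c : {l // l ≠ p ∧ l ≠ q} → R) (l : κ) : φ (sol p q w w' δ c l) =
      sol p q (fun l => φ (w l)) (fun l => φ (w' l)) (φ δ) (fun k => φ (c k)) l := by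
  rw [sol, sol]
  split_ifs <;> simp

end algebra

namespace Coord

variable {Z S : Scheme.{0}} {s : Z ⟶ S} {κ : Type} (C : Coord s κ)

/-- The coordinates of a point of `D i`. -/
noncomputable def val {T : Scheme.{0}} (z : T ⟶ Z) (i : κ) (h : ⊤ ≤ z ⁻¹ᵁ C.D i) (l : κ) :
    Γ(T, ⊤) := z.appLE (C.D i) ⊤ h (C.f i l)

theorem val_comp {T T' : Scheme.{0}} (t : T' ⟶ T) (z : T ⟶ Z) (i : κ) (h : ⊤ ≤ z ⁻¹ᵁ C.D i)
    (h' : ⊤ ≤ (t ≫ z) ⁻¹ᵁ C.D i) (l : κ) : C.val (t ≫ z) i h' l = t.appTop (C.val z i h l) := by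
  have h1 := Scheme.Hom.appLE_comp_appLE t z (C.D i) ⊤ ⊤ h (le_of_eq rfl)
  have h2 : t.appLE ⊤ ⊤ (le_of_eq rfl) = t.appTop := Scheme.Hom.appLE_eq_app t
  rw [val, val, ← h2, ← CommRingCat.comp_apply, h1]

theorem top_le_comp {T T' : Scheme.{0}} (t : T' ⟶ T) {z : T ⟶ Z} {i : κ}
    (h : ⊤ ≤ z ⁻¹ᵁ C.D i) : ⊤ ≤ (t ≫ z) ⁻¹ᵁ C.D i := fun x _ => h (Set.mem_univ (t x))

variable [Fintype κ] [DecidableEq κ]

theorem exists_iso {V : Scheme.{0}} (z z' : V ⟶ Z) {i j : κ} (h : ⊤ ≤ z ⁻¹ᵁ C.D i)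
    (h' : ⊤ ≤ z' ⁻¹ᵁ C.D j) {p q : κ} (hpq : p ≠ q)
    (hu : IsUnit (C.val z i h p * C.val z' j h' q - C.val z i h q * C.val z' j h' p))
    {W : Scheme.{0}} (f : W ⟶ V) (c₁ c₂ : W ⟶ C.I) (h₁ : c₁ ≫ C.toZ = f ≫ z)
    (h₂ : c₂ ≫ C.toZ = f ≫ z') (h₃ : ∀ l, c₁.appTop (C.vec l) = c₂.appTop (C.vec l))
    (ex : ∀ (T : Scheme.{0}) (u : T ⟶ V) (t₁ t₂ : T ⟶ C.I), t₁ ≫ C.toZ = u ≫ z →
      t₂ ≫ C.toZ = u ≫ z' → (∀ l, t₁.appTop (C.vec l) = t₂.appTop (C.vec l)) →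
      ∃ t : T ⟶ W, t ≫ f = u ∧ t ≫ c₁ = t₁ ∧ t ≫ c₂ = t₂)
    (un : ∀ (T : Scheme.{0}) (t t' : T ⟶ W), t ≫ f = t' ≫ f → t ≫ c₁ = t' ≫ c₁ →
      t ≫ c₂ = t' ≫ c₂ → t = t') :
    ∃ e : W ≅ 𝔸({l // l ≠ p ∧ l ≠ q}; V),
      e.hom ≫ (𝔸({l // l ≠ p ∧ l ≠ q}; V) ↘ V) = f := by
  obtain ⟨δ, hδ⟩ := hu.exists_left_inv
  -- the equations hold on `W`
  have van₁ : ∀ {T : Scheme.{0}} (u : T ⟶ V) (a : κ → Γ(T, ⊤)), C.Van (u ≫ z) a ↔
      ∑ l, a l * u.appTop (C.val z i h l) = 0 := fun u a => by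
    rw [C.van_iff_of_le (u ≫ z) a i (C.top_le_comp u h)]
    refine Eq.congr (Finset.sum_congr rfl fun l _ => ?_) rfl
    congr 1
    exact C.val_comp u z i h _ l
  have van₂ : ∀ {T : Scheme.{0}} (u : T ⟶ V) (a : κ → Γ(T, ⊤)), C.Van (u ≫ z') a ↔
      ∑ l, a l * u.appTop (C.val z' j h' l) = 0 := fun u a => by
    rw [C.van_iff_of_le (u ≫ z') a j (C.top_le_comp u h')]
    refine Eq.congr (Finset.sum_congr rfl fun l _ => ?_) rfl
    congr 1
    exact C.val_comp u z' j h' _ l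
  have hδ' : ∀ {T : Scheme.{0}} (u : T ⟶ V), u.appTop δ *
      (u.appTop (C.val z i h p) * u.appTop (C.val z' j h' q) -
        u.appTop (C.val z i h q) * u.appTop (C.val z' j h' p)) = 1 := fun u => by
    rw [← map_mul, ← map_mul, ← map_sub, ← map_mul, hδ, map_one]
  set π := 𝔸({l // l ≠ p ∧ l ≠ q}; V) ↘ V with hπ
  let b : κ → Γ(𝔸({l // l ≠ p ∧ l ≠ q}; V), ⊤) :=
    sol p q (fun l => π.appTop (C.val z i h l)) (fun l => π.appTop (C.val z' j h' l))
      (π.appTop δ) (AffineSpace.coord V)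
  have hb := sol_sum (w := fun l => π.appTop (C.val z i h l))
    (w' := fun l => π.appTop (C.val z' j h' l)) hpq (hδ' π) (AffineSpace.coord V)
  have hb₁ : C.Van (π ≫ z) b := (van₁ π b).2 hb.1
  have hb₂ : C.Van (π ≫ z') b := (van₂ π b).2 hb.2
  obtain ⟨inv, i₀, i₁, i₂⟩ := ex _ π (C.lift (π ≫ z) b hb₁) (C.lift (π ≫ z') b hb₂)
    (C.lift_toZ _ _ _) (C.lift_toZ _ _ _) (fun l => by rw [C.lift_vec, C.lift_vec])
  let a : κ → Γ(W, ⊤) := fun l => c₁.appTop (C.vec l)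
  have ha₁ : ∑ l, a l * f.appTop (C.val z i h l) = 0 := by
    rw [← van₁, ← h₁]
    exact C.van c₁
  have ha₂ : ∑ l, a l * f.appTop (C.val z' j h' l) = 0 := by
    rw [← van₂, ← h₂]
    have := C.van c₂
    simpa only [← h₃] using this
  let hom : W ⟶ 𝔸({l // l ≠ p ∧ l ≠ q}; V) := AffineSpace.homOfVector f (fun k => a k.1)
  have hom_b : ∀ l, hom.appTop (b l) = a l := by
    intro l
    have e1 : ∀ x, hom.appTop (π.appTop x) = f.appTop x := fun x => by
      rw [← CommRingCat.comp_apply, ← Scheme.Hom.comp_appTop, AffineSpace.homOfVector_over]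
    have e2 := map_sol hom.appTop.hom (fun l => π.appTop (C.val z i h l))
      (fun l => π.appTop (C.val z' j h' l)) (π.appTop δ) (AffineSpace.coord V)
      (p := p) (q := q) l
    refine e2.trans ?_
    rw [sol_unique (w := fun l => f.appTop (C.val z i h l))
      (w' := fun l => f.appTop (C.val z' j h' l)) hpq (hδ' f) ha₁ ha₂ l]
    have e3 : ∀ k, hom.appTop (AffineSpace.coord V k) = a k.1 := fun k =>
      AffineSpace.homOfVector_appTop_coord _ _ _
    have e4 : (fun l => hom.appTop.hom (π.appTop (C.val z i h l))) =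
      fun l => f.appTop (C.val z i h l) := funext fun l => e1 _
    have e5 : (fun l => hom.appTop.hom (π.appTop (C.val z' j h' l))) =
      fun l => f.appTop (C.val z' j h' l) := funext fun l => e1 _
    have e6 : hom.appTop.hom (π.appTop δ) = f.appTop δ := e1 _
    have e7 : (fun k => hom.appTop.hom (AffineSpace.coord V k)) =
      fun k : {l // l ≠ p ∧ l ≠ q} => a k.1 := funext e3
    rw [e4, e5, e6, e7]
  refine ⟨⟨hom, inv, ?_, ?_⟩, AffineSpace.homOfVector_over _ _⟩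
  · refine un _ _ _ ?_ ?_ ?_
    · rw [Category.assoc, i₀, AffineSpace.homOfVector_over, Category.id_comp]
    · rw [Category.assoc, i₁, Category.id_comp]
      refine C.hom_ext ?_ fun l => ?_
      · rw [Category.assoc, C.lift_toZ, ← Category.assoc, AffineSpace.homOfVector_over, h₁]
      · rw [Scheme.Hom.comp_appTop, CommRingCat.comp_apply, C.lift_vec, hom_b]
    · rw [Category.assoc, i₂, Category.id_comp]
      refine C.hom_ext ?_ fun l => ?_
      · rw [Category.assoc, C.lift_toZ, ← Category.assoc, AffineSpace.homOfVector_over, h₂]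
      · rw [Scheme.Hom.comp_appTop, CommRingCat.comp_apply, C.lift_vec, hom_b, ← h₃]
  · refine AffineSpace.hom_ext ?_ fun k => ?_
    · rw [Category.assoc, AffineSpace.homOfVector_over, i₀, Category.id_comp]
    · rw [Scheme.Hom.comp_appTop, CommRingCat.comp_apply, AffineSpace.homOfVector_appTop_coord]
      change inv.appTop (c₁.appTop (C.vec k.1)) = _
      rw [← CommRingCat.comp_apply, ← Scheme.Hom.comp_appTop, i₁, C.lift_vec]
      change sol p q _ _ _ _ _ = _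
      rw [sol, dif_neg k.2.1, dif_neg k.2.2]
      simp

end Coord

end Pool.Agent.Lib.MP_4ca46c_ag.Hyp
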