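import Mathlib
import Pool.Agent.Lib.MP_4ca46c_ag.Hyp.Bundle

/-!
# The locus where two points are different is covered by the loci where a minor is invertible
-/

namespace Pool.Agent.Lib.MP_4ca46c_ag.Hyp

open CategoryTheory Limits AlgebraicGeometry Opposite

namespace Coord

variable {Z S : Scheme.{0}} {s : Z ⟶ S} {κ : Type} (C : Coord s κ)

theorem eq_of_minors {T : Scheme.{0}} (t t' : T ⟶ Z) (h : t ≫ s = t' ≫ s) {i j : κ}
    (hi : ⊤ ≤ t ⁻¹ᵁ C.D i) (hj : ⊤ ≤ t' ⁻¹ᵁ C.D j)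
    (H : ∀ p q, C.val t i hi p * C.val t' j hj q = C.val t i hi q * C.val t' j hj p) :
    t = t' := by
  have one : ∀ (t : T ⟶ Z) (i : κ) (hi : ⊤ ≤ t ⁻¹ᵁ C.D i), C.val t i hi i = 1 := fun t i hi => by
    rw [val, C.f_self, map_one]
  have h1 := H i j
  rw [one, one, mul_one] at h1
  have hu : IsUnit (C.val t i hi j) := IsUnit.of_mul_eq_one _ h1.symm
  have hj' : ⊤ ≤ t ⁻¹ᵁ C.D j := by
    have h2 := Scheme.basicOpen_of_isUnit T hu
    rw [val, Scheme.basicOpen_appLE] at h2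
    intro x _
    have h3 : x ∈ (⊤ ⊓ t ⁻¹ᵁ Z.basicOpen (C.f i j) : T.Opens) := by
      rw [h2]; trivial
    exact C.basicOpen_le i j h3.2
  refine C.sep j T t t' hj' hj h fun l => ?_
  have h2 : C.val t i hi l = C.val t i hi j * C.val t j hj' l := C.f_mul' t ⊤ i j l hi hj'
  have h3 := H j l
  rw [one, mul_one, h2] at h3
  exact (hu.mul_left_cancel h3).symm

theorem exists_minor {U : Scheme.{0}} (z z' : U ⟶ Z) (hz : z ≫ s = z' ≫ s) (u : U)
    (hne : U.fromSpecResidueField u ≫ z ≠ U.fromSpecResidueField u ≫ z') :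
    ∃ (i j p q : κ) (O : U.Opens) (hi : O ≤ z ⁻¹ᵁ C.D i) (hj : O ≤ z' ⁻¹ᵁ C.D j), u ∈ O ∧
      p ≠ q ∧ IsUnit (z.appLE (C.D i) O hi (C.f i p) * z'.appLE (C.D j) O hj (C.f j q) -
        z.appLE (C.D i) O hi (C.f i q) * z'.appLE (C.D j) O hj (C.f j p)) := by
  obtain ⟨i, hi⟩ := TopologicalSpace.Opens.mem_iSup.1 (C.iSup_D.ge (Set.mem_univ (z u)))
  obtain ⟨j, hj⟩ := TopologicalSpace.Opens.mem_iSup.1 (C.iSup_D.ge (Set.mem_univ (z' u)))
  set O : U.Opens := z ⁻¹ᵁ C.D i ⊓ z' ⁻¹ᵁ C.D j with hO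
  have hOi : O ≤ z ⁻¹ᵁ C.D i := inf_le_left
  have hOj : O ≤ z' ⁻¹ᵁ C.D j := inf_le_right
  have huO : u ∈ O := ⟨hi, hj⟩
  let M : κ → κ → Γ(U, O) := fun p q =>
    z.appLE (C.D i) O hOi (C.f i p) * z'.appLE (C.D j) O hOj (C.f j q) -
      z.appLE (C.D i) O hOi (C.f i q) * z'.appLE (C.D j) O hOj (C.f j p)
  have key : ∃ p q, u ∈ U.basicOpen (M p q) := by
    by_contra hcon
    push Not at hcon
    apply hne
    set x := U.fromSpecResidueField u with hx
    have hx' : ∀ y, x y = u := fun y => U.fromSpecResidueField_apply u y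
    have hxO : ⊤ ≤ x ⁻¹ᵁ O := fun y _ => by
      change x y ∈ O
      rw [hx' y]
      exact huO
    have hi' : ⊤ ≤ (x ≫ z) ⁻¹ᵁ C.D i := hxO.trans (pre_mono x hOi)
    have hj' : ⊤ ≤ (x ≫ z') ⁻¹ᵁ C.D j := hxO.trans (pre_mono x hOj)
    refine C.eq_of_minors (x ≫ z) (x ≫ z') (by rw [Category.assoc, Category.assoc, hz])
      hi' hj' fun p q => ?_
    have e1 : ∀ l, C.val (x ≫ z) i hi' l =
        x.appLE O ⊤ hxO (z.appLE (C.D i) O hOi (C.f i l)) := fun l => by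
      rw [← CommRingCat.comp_apply, Scheme.Hom.appLE_comp_appLE]
      rfl
    have e2 : ∀ l, C.val (x ≫ z') j hj' l =
        x.appLE O ⊤ hxO (z'.appLE (C.D j) O hOj (C.f j l)) := fun l => by
      rw [← CommRingCat.comp_apply, Scheme.Hom.appLE_comp_appLE]
      rfl
    rw [e1, e2, e1, e2, ← map_mul, ← map_mul, ← sub_eq_zero, ← map_sub]
    rw [← basicOpen_eq_bot_iff, Scheme.basicOpen_appLE, eq_bot_iff]
    rintro y ⟨_, hy⟩
    change x y ∈ U.basicOpen (M p q) at hy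
    rw [hx' y] at hy
    exact (hcon p q hy).elim
  obtain ⟨p, q, hu⟩ := key
  have hle : U.basicOpen (M p q) ≤ O := U.basicOpen_le _
  refine ⟨i, j, p, q, U.basicOpen (M p q), hle.trans hOi, hle.trans hOj, hu, ?_, ?_⟩
  · rintro rfl
    have h0 : M p p = 0 := sub_self _
    rw [h0, Scheme.basicOpen_zero] at hu
    exact hu
  · have h1 := RingedSpace.isUnit_res_basicOpen U.toRingedSpace (M p q)
    have e1 : ∀ l, z.appLE (C.D i) _ (hle.trans hOi) (C.f i l) =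
        U.presheaf.map (homOfLE hle).op (z.appLE (C.D i) O hOi (C.f i l)) := fun l => by
      rw [← CommRingCat.comp_apply, Scheme.Hom.appLE_map]
    have e2 : ∀ l, z'.appLE (C.D j) _ (hle.trans hOj) (C.f j l) =
        U.presheaf.map (homOfLE hle).op (z'.appLE (C.D j) O hOj (C.f j l)) := fun l => by
      rw [← CommRingCat.comp_apply, Scheme.Hom.appLE_map]
    rw [e1, e2, e1, e2, ← map_mul, ← map_mul, ← map_sub]
    exact h1

end Coord

end Pool.Agent.Lib.MP_4ca46c_ag.Hyp
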