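import Mathlib
import Pool.Agent.Lib.MP_4ca46c_ag.Sign.Theory
import Pool.Agent.Lib.MP_4ca46c_ag.Hyp.Cover

/-!
# Pairs of different points on hyperplane sections form an affine bundle
-/

namespace Pool.Agent.Lib.MP_4ca46c_ag.Hyp

open CategoryTheory Limits AlgebraicGeometry Opposite

/-- Affine spaces of the same dimension are isomorphic. -/
noncomputable def reindexIso {n m : Type} (e : n ≃ m) (V : Scheme.{0}) : 𝔸(n; V) ≅ 𝔸(m; V) where
  hom := AffineSpace.reindex e.symm V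
  inv := AffineSpace.reindex e V
  hom_inv_id := by
    refine AffineSpace.hom_ext (by simp) fun k => ?_
    rw [Scheme.Hom.comp_appTop, CommRingCat.comp_apply, AffineSpace.reindex_appTop_coord,
      AffineSpace.reindex_appTop_coord]
    simp
  inv_hom_id := by
    refine AffineSpace.hom_ext (by simp) fun k => ?_
    rw [Scheme.Hom.comp_appTop, CommRingCat.comp_apply, AffineSpace.reindex_appTop_coord,
      AffineSpace.reindex_appTop_coord]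
    simp

namespace Coord

variable {Z S : Scheme.{0}} {s : Z ⟶ S} {κ : Type} (C : Coord s κ) [Fintype κ] [DecidableEq κ]

theorem bundle {U W : Scheme.{0}} (z z' : U ⟶ Z) (hz : z ≫ s = z' ≫ s)
    (hne : ∀ u : U, U.fromSpecResidueField u ≫ z ≠ U.fromSpecResidueField u ≫ z')
    (f : W ⟶ U) (c₁ c₂ : W ⟶ C.I) (h₁ : c₁ ≫ C.toZ = f ≫ z)
    (h₂ : c₂ ≫ C.toZ = f ≫ z') (h₃ : ∀ l, c₁.appTop (C.vec l) = c₂.appTop (C.vec l))
    (ex : ∀ (T : Scheme.{0}) (u : T ⟶ U) (t₁ t₂ : T ⟶ C.I), t₁ ≫ C.toZ = u ≫ z →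
      t₂ ≫ C.toZ = u ≫ z' → (∀ l, t₁.appTop (C.vec l) = t₂.appTop (C.vec l)) →
      ∃ t : T ⟶ W, t ≫ f = u ∧ t ≫ c₁ = t₁ ∧ t ≫ c₂ = t₂)
    (un : ∀ (T : Scheme.{0}) (t t' : T ⟶ W), t ≫ f = t' ≫ f → t ≫ c₁ = t' ≫ c₁ →
      t ≫ c₂ = t' ≫ c₂ → t = t') : Sign.IsAffineBundle f := by
  intro x
  obtain ⟨i, j, p, q, O, hi, hj, hx, hpq, hM⟩ := C.exists_minor z z' hz x (hne x)
  have hO : ⊤ ≤ O.ι ⁻¹ᵁ O := by simp
  have hi' : ⊤ ≤ (O.ι ≫ z) ⁻¹ᵁ C.D i := hO.trans (pre_mono O.ι hi)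
  have hj' : ⊤ ≤ (O.ι ≫ z') ⁻¹ᵁ C.D j := hO.trans (pre_mono O.ι hj)
  have e1 : ∀ l, C.val (O.ι ≫ z) i hi' l =
      O.ι.appLE O ⊤ hO (z.appLE (C.D i) O hi (C.f i l)) := fun l => by
    rw [← CommRingCat.comp_apply, Scheme.Hom.appLE_comp_appLE]
    rfl
  have e2 : ∀ l, C.val (O.ι ≫ z') j hj' l =
      O.ι.appLE O ⊤ hO (z'.appLE (C.D j) O hj (C.f j l)) := fun l => by
    rw [← CommRingCat.comp_apply, Scheme.Hom.appLE_comp_appLE]
    rfl
  have hu : IsUnit (C.val (O.ι ≫ z) i hi' p * C.val (O.ι ≫ z') j hj' q -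
      C.val (O.ι ≫ z) i hi' q * C.val (O.ι ≫ z') j hj' p) := by
    rw [e1, e2, e1, e2, ← map_mul, ← map_mul, ← map_sub]
    exact hM.map _
  have pb := isPullback_morphismRestrict f O
  have hr : f ∣_ O ≫ O.ι = (f ⁻¹ᵁ O).ι ≫ f := morphismRestrict_ι f O
  obtain ⟨e, he⟩ := C.exists_iso (O.ι ≫ z) (O.ι ≫ z') hi' hj' hpq hu (f ∣_ O)
    ((f ⁻¹ᵁ O).ι ≫ c₁) ((f ⁻¹ᵁ O).ι ≫ c₂)
    (by rw [Category.assoc, h₁, ← Category.assoc, ← hr, Category.assoc])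
    (by rw [Category.assoc, h₂, ← Category.assoc, ← hr, Category.assoc])
    (fun l => by
      rw [Scheme.Hom.comp_appTop, Scheme.Hom.comp_appTop, CommRingCat.comp_apply,
        CommRingCat.comp_apply, h₃])
    (fun T u t₁ t₂ ht₁ ht₂ ht₃ => by
      obtain ⟨t, g₀, g₁, g₂⟩ := ex T (u ≫ O.ι) t₁ t₂ (by rw [ht₁, Category.assoc])
        (by rw [ht₂, Category.assoc]) ht₃
      refine ⟨pb.lift u t g₀.symm, pb.lift_fst _ _ _, ?_, ?_⟩
      · rw [← Category.assoc, pb.lift_snd, g₁]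
      · rw [← Category.assoc, pb.lift_snd, g₂])
    (fun T t t' g₀ g₁ g₂ => by
      rw [← cancel_mono (f ⁻¹ᵁ O).ι]
      refine un T _ _ ?_ ?_ ?_
      · rw [Category.assoc, Category.assoc, ← hr, ← Category.assoc, g₀, Category.assoc]
      · rw [Category.assoc, Category.assoc, g₁]
      · rw [Category.assoc, Category.assoc, g₂])
  refine ⟨O, Fintype.card {l // l ≠ p ∧ l ≠ q}, e ≪≫ reindexIso (Fintype.equivFin _) _, hx, ?_⟩
  rw [Iso.trans_hom, Category.assoc, ← he]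
  congr 1
  exact AffineSpace.reindex_over _ _

end Coord

end Pool.Agent.Lib.MP_4ca46c_ag.Hyp
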