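import Mathlib
import Pool.Agent.Lib.MP_4ca46c_ag.Hyp.Proj

/-!
# Homogeneous coordinates on subschemes of projective space
-/

namespace Pool.Agent.Lib.MP_4ca46c_ag.Hyp

open CategoryTheory Limits AlgebraicGeometry Opposite HomogeneousLocalization MvPolynomial

attribute [local instance] MvPolynomial.gradedAlgebra

variable {k : Type} [Field k] {κ : Type}

theorem psι_str (i : κ) : psι (k := k) i ≫ psStr k κ =
    Spec.map (CommRingCat.ofHom ((fromZeroRingHom (homogeneousSubmodule κ k) _).comp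
      (algebraMap k (homogeneousSubmodule κ k 0)))) := by
  rw [psStr, ← Category.assoc, psι, Proj.awayι_toSpecZero, ← Spec.map_comp,
    ← CommRingCat.ofHom_comp]

theorem ps_sep (i : κ) (T : Scheme.{0}) (z z' : T ⟶ PS k κ) (h : ⊤ ≤ z ⁻¹ᵁ psD i)
    (h' : ⊤ ≤ z' ⁻¹ᵁ psD i) (hs : z ≫ psStr k κ = z' ≫ psStr k κ)
    (H : ∀ j, z.appLE (psD i) ⊤ h (psf i j) = z'.appLE (psD i) ⊤ h' (psf i j)) : z = z' := by
  have hr : ∀ z : T ⟶ PS k κ, ⊤ ≤ z ⁻¹ᵁ psD i → ∃ z₁, z₁ ≫ psι i = z := fun z h => by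
    refine ⟨IsOpenImmersion.lift (psι i) z ?_, IsOpenImmersion.lift_fac _ _ _⟩
    rintro _ ⟨x, rfl⟩
    have h1 : z x ∈ psD i := h (Set.mem_univ x)
    rw [psD, ← Proj.opensRange_awayι (homogeneousSubmodule κ k) (X i) (hX i) one_pos] at h1
    exact h1
  obtain ⟨z₁, rfl⟩ := hr z h
  obtain ⟨z₂, rfl⟩ := hr z' h'
  congr 1
  have hD : ⊤ ≤ psι (k := k) i ⁻¹ᵁ psD i := by
    intro x _
    change psι i x ∈ psD i
    rw [psD, ← Proj.opensRange_awayι (homogeneousSubmodule κ k) (X i) (hX i) one_pos]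
    exact ⟨x, rfl⟩
  refine ext_of_isAffine ?_
  rw [← cancel_epi (Scheme.ΓSpecIso (CommRingCat.of
    (Away (homogeneousSubmodule κ k) (X i : MvPolynomial κ k)))).inv]
  ext1
  refine away_ext ?_ fun j => ?_
  · rw [Category.assoc, Category.assoc, psι_str] at hs
    have h1 := congrArg (fun φ => ((Scheme.ΓSpecIso (CommRingCat.of k)).inv ≫ φ.appTop).hom) hs
    simp only [Scheme.Hom.comp_appTop] at h1
    rw [← Scheme.ΓSpecIso_inv_naturality_assoc, ← Scheme.ΓSpecIso_inv_naturality_assoc] at h1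
    exact h1
  · have e : ∀ (z : T ⟶ Spec (CommRingCat.of (Away (homogeneousSubmodule κ k)
        (X i : MvPolynomial κ k)))) (h : ⊤ ≤ (z ≫ psι i) ⁻¹ᵁ psD i),
        (z ≫ psι i).appLE (psD i) ⊤ h (psf i j) = z.appTop ((Scheme.ΓSpecIso _).inv
          (frac i j)) := fun z h => by
      have h1 := Scheme.Hom.appLE_comp_appLE z (psι i) (psD i) ⊤ ⊤ hD (le_of_eq rfl)
      have h2 : z.appLE ⊤ ⊤ (le_of_eq rfl) = z.appTop := Scheme.Hom.appLE_eq_app _
      rw [h2] at h1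
      rw [← h1, CommRingCat.comp_apply, psf, psι_app]
    have h1 := H j
    rw [e, e] at h1
    exact h1

/-- The homogeneous coordinates of projective space. -/
noncomputable def psCoord (k : Type) [Field k] (κ : Type) : Coord (psStr k κ) κ where
  D := psD
  f := psf
  iSup_D := iSup_psD
  f_self := psf_self
  f_mul := psf_mul
  basicOpen_le := psBasicOpen_le
  affine := inferInstance
  sep := ps_sep

/-- Pull-back of homogeneous coordinates. -/
noncomputable def PreCoord.comap {Z' Z : Scheme.{0}} {κ : Type} (C : PreCoord Z κ) (i : Z' ⟶ Z) :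
    PreCoord Z' κ where
  D j := i ⁻¹ᵁ C.D j
  f j l := i.app (C.D j) (C.f j l)
  iSup_D := by
    rw [eq_top_iff]
    intro x _
    obtain ⟨j, hj⟩ := TopologicalSpace.Opens.mem_iSup.1 (C.iSup_D.ge (Set.mem_univ (i x)))
    exact TopologicalSpace.Opens.mem_iSup.2 ⟨j, hj⟩
  f_self j := by rw [C.f_self, map_one]
  f_mul j l m := by
    have h := congrArg (i.app (C.D j ⊓ C.D l)) (C.f_mul j l m)
    rw [map_mul, ← map_app, ← map_app, ← map_app] at h
    exact h
  basicOpen_le j l := by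
    rw [← Scheme.preimage_basicOpen]
    exact pre_mono i (C.basicOpen_le j l)

theorem PreCoord.comap_appLE {Z' Z T : Scheme.{0}} {κ : Type} (C : PreCoord Z κ) (i : Z' ⟶ Z)
    (z : T ⟶ Z') (j l : κ) (W : T.Opens) (h : W ≤ z ⁻¹ᵁ (C.comap i).D j)
    (h' : W ≤ (z ≫ i) ⁻¹ᵁ C.D j) :
    z.appLE ((C.comap i).D j) W h ((C.comap i).f j l) = (z ≫ i).appLE (C.D j) W h' (C.f j l) := by
  rw [Scheme.Hom.comp_appLE]
  rfl

/-- Pull-back of homogeneous coordinates along `i : Z' ⟶ Z`, where `i` and the structure morphism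
`s' : Z' ⟶ S'` are jointly monic. -/
noncomputable def Coord.comap {Z' S' Z S : Scheme.{0}} {s : Z ⟶ S} {κ : Type} (C : Coord s κ)
    (i : Z' ⟶ Z) (s' : Z' ⟶ S') (g : S' ⟶ S) (h : i ≫ s = s' ≫ g)
    (hm : ∀ (T : Scheme.{0}) (z z' : T ⟶ Z'), z ≫ i = z' ≫ i → z ≫ s' = z' ≫ s' → z = z') :
    Coord s' κ where
  toPreCoord := C.toPreCoord.comap i
  affine j := by
    have := C.affine j
    exact MorphismProperty.of_isPullback (isPullback_morphismRestrict i (C.D j)) this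
  sep j T z z' h₁ h₂ hz H := by
    refine hm T z z' (C.sep j T (z ≫ i) (z' ≫ i) h₁ h₂ ?_ fun l => ?_) hz
    · rw [Category.assoc, Category.assoc, h, ← Category.assoc, ← Category.assoc, hz]
    · rw [← C.toPreCoord.comap_appLE i z j l ⊤ h₁ h₁, ← C.toPreCoord.comap_appLE i z' j l ⊤ h₂ h₂]
      exact H l

/-- The homogeneous coordinates of a subscheme. -/
noncomputable def Coord.comapMono {Z' Z S : Scheme.{0}} {s : Z ⟶ S} {κ : Type} (C : Coord s κ)
    (i : Z' ⟶ Z) [Mono i] : Coord (i ≫ s) κ :=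
  C.comap i (i ≫ s) (𝟙 S) (Category.comp_id _).symm fun _ _ _ h _ => (cancel_mono i).1 h

/-- The homogeneous coordinates of a base change. -/
noncomputable def Coord.baseChange {Z' S' Z S : Scheme.{0}} {s : Z ⟶ S} {κ : Type}
    (C : Coord s κ) {i : Z' ⟶ Z} {s' : Z' ⟶ S'} {g : S' ⟶ S} (h : IsPullback i s' s g) :
    Coord s' κ :=
  C.comap i s' g h.w fun _ _ _ h₁ h₂ => h.hom_ext h₁ h₂

end Pool.Agent.Lib.MP_4ca46c_ag.Hyp
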