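import Mathlib
import Pool.Agent.Lib.MP_4ca46c_ag.Hyp.ProjCoord

/-!
# The morphism to projective space given by homogeneous coordinates
-/

namespace Pool.Agent.Lib.MP_4ca46c_ag.Hyp

open CategoryTheory Limits AlgebraicGeometry Opposite HomogeneousLocalization MvPolynomial

attribute [local instance] MvPolynomial.gradedAlgebra

variable {k : Type} [Field k] {κ : Type} {Z : Scheme.{0}}

theorem hom_ext_of_opens {Z T : Scheme.{0}} {κ : Type} (U : κ → Z.Opens) (hU : ⨆ i, U i = ⊤)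
    {F F' : Z ⟶ T} (h : ∀ i, (U i).ι ≫ F = (U i).ι ≫ F') : F = F' :=
  Scheme.Cover.hom_ext (Z.openCoverOfIsOpenCover U (.mk hU)) _ _ h

theorem appLE_self {X Y : Scheme.{0}} (F : X ⟶ Y) (U : Y.Opens) (h : F ⁻¹ᵁ U ≤ F ⁻¹ᵁ U)
    (a : Γ(Y, U)) : F.appLE U (F ⁻¹ᵁ U) h a = F.app U a := by
  rw [Scheme.Hom.appLE_eq_app]

namespace PreCoord

/-- The coordinates `C` are the pull-backs of the coordinates of projective space under `F`. -/
structure Rep (C : PreCoord Z κ) (F : Z ⟶ PS k κ) : Prop where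
  le : ∀ i, C.D i ≤ F ⁻¹ᵁ psD i
  eq : ∀ i j, F.appLE (psD i) (C.D i) (le i) (psf i j) = C.f i j

variable (C : PreCoord Z κ)

theorem isUnit {T : Scheme.{0}} (z : T ⟶ Z) (W : T.Opens) (i j : κ) (hi : W ≤ z ⁻¹ᵁ C.D i)
    (hj : W ≤ z ⁻¹ᵁ C.D j) : IsUnit (z.appLE (C.D i) W hi (C.f i j)) := by
  have h := C.f_mul' z W i j i hi hj
  rw [C.f_self, map_one] at h
  exact IsUnit.of_mul_eq_one _ h.symm

/-- The coordinates of projective space. -/
noncomputable abbrev ps (k : Type) [Field k] (κ : Type) : PreCoord (PS k κ) κ :=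
  (psCoord k κ).toPreCoord

theorem ps_mul {T : Scheme.{0}} (F : T ⟶ PS k κ) (W : T.Opens) (i j l : κ)
    (hi : W ≤ F ⁻¹ᵁ psD i) (hj : W ≤ F ⁻¹ᵁ psD j) :
    F.appLE (psD i) W hi (psf i l) =
      F.appLE (psD i) W hi (psf i j) * F.appLE (psD j) W hj (psf j l) :=
  (ps k κ).f_mul' F W i j l hi hj

theorem ps_le {T : Scheme.{0}} (F : T ⟶ PS k κ) (W : T.Opens) (i j : κ)
    (hi : W ≤ F ⁻¹ᵁ psD i) (hu : IsUnit (F.appLE (psD i) W hi (psf i j))) :
    W ≤ F ⁻¹ᵁ psD j := by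
  have h1 := Scheme.basicOpen_of_isUnit T hu
  rw [Scheme.basicOpen_appLE] at h1
  intro x hx
  have h2 : x ∈ (W ⊓ F ⁻¹ᵁ (PS k κ).basicOpen (psf i j) : T.Opens) := by
    rw [h1]; exact hx
  exact psBasicOpen_le i j h2.2

variable {C}

theorem Rep.res {F : Z ⟶ PS k κ} (h : C.Rep F) {T : Scheme.{0}} (z : T ⟶ Z) (W : T.Opens)
    (i j : κ) (hi : W ≤ z ⁻¹ᵁ C.D i) (h' : W ≤ (z ≫ F) ⁻¹ᵁ psD i) :
    (z ≫ F).appLE (psD i) W h' (psf i j) = z.appLE (C.D i) W hi (C.f i j) := by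
  rw [← h.eq i j, ← CommRingCat.comp_apply, Scheme.Hom.appLE_comp_appLE]

theorem Rep.D_eq {F : Z ⟶ PS k κ} (h : C.Rep F) (i : κ) : F ⁻¹ᵁ psD i = C.D i := by
  refine le_antisymm (fun x hx => ?_) (h.le i)
  obtain ⟨j, hj⟩ := TopologicalSpace.Opens.mem_iSup.1 (C.iSup_D.ge (Set.mem_univ x))
  set W : Z.Opens := F ⁻¹ᵁ psD i ⊓ C.D j
  have hW : W ≤ F ⁻¹ᵁ psD j := inf_le_right.trans (h.le j)
  have h1 := (ps k κ).isUnit F W j i hW inf_le_left
  have h2 : F.appLE (psD j) W hW (psf j i) =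
      Z.presheaf.map (homOfLE (inf_le_right : W ≤ C.D j)).op (C.f j i) := by
    rw [← h.eq j i, ← CommRingCat.comp_apply, Scheme.Hom.appLE_map]
  have h3 : IsUnit (Z.presheaf.map (homOfLE (inf_le_right : W ≤ C.D j)).op (C.f j i)) := by
    rw [← h2]
    exact h1
  have h4 := Scheme.basicOpen_of_isUnit Z h3
  rw [Scheme.basicOpen_res] at h4
  have h5 : x ∈ (W ⊓ Z.basicOpen (C.f j i) : Z.Opens) := by
    rw [h4]
    exact ⟨hx, hj⟩
  exact C.basicOpen_le j i h5.2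

/-- A morphism to projective space over `k` is determined by its coordinates. -/
theorem Rep.ext {F F' : Z ⟶ PS k κ} (h : C.Rep F) (h' : C.Rep F')
    (hs : F ≫ psStr k κ = F' ≫ psStr k κ) : F = F' := by
  refine hom_ext_of_opens C.D C.iSup_D fun i => ?_
  have e : ⊤ ≤ (C.D i).ι ⁻¹ᵁ C.D i := by simp
  refine ps_sep i _ _ _ (e.trans (pre_mono _ (h.le i))) (e.trans (pre_mono _ (h'.le i)))
    (by rw [Category.assoc, Category.assoc, hs]) fun j => ?_
  rw [h.res (C.D i).ι ⊤ i j e, h'.res (C.D i).ι ⊤ i j e]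

theorem rep_comap (F : Z ⟶ PS k κ) : ((ps k κ).comap F).Rep F :=
  ⟨fun _ => le_rfl, fun i j => appLE_self F (psD i) le_rfl (psf i j)⟩

theorem Rep.comp {F : Z ⟶ PS k κ} (h : C.Rep F) {T : Scheme.{0}} (z : T ⟶ Z) :
    (C.comap z).Rep (z ≫ F) :=
  ⟨fun i => pre_mono z (h.le i), fun i j =>
    (h.res z (z ⁻¹ᵁ C.D i) i j le_rfl (pre_mono z (h.le i))).trans
      (appLE_self z (C.D i) le_rfl (C.f i j))⟩

section construct

variable (C) (s : Z ⟶ Spec (CommRingCat.of k))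

/-- The constants. -/
noncomputable def scal (i : κ) : k →+* Γ(Z, C.D i) :=
  ((Scheme.ΓSpecIso (CommRingCat.of k)).inv ≫ s.appLE ⊤ (C.D i) le_top).hom

/-- The homomorphism from the degree zero fractions to the functions on `D i`. -/
noncomputable def locHom (i : κ) :
    Away (homogeneousSubmodule κ k) (X i : MvPolynomial κ k) →+* Γ(Z, C.D i) :=
  (IsLocalization.Away.lift (S := Localization.Away (X i : MvPolynomial κ k)) (X i)
    (g := eval₂Hom (C.scal s i) (C.f i)) (by simp [C.f_self])).comp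
    (algebraMap (Away (homogeneousSubmodule κ k) (X i : MvPolynomial κ k))
      (Localization.Away (X i : MvPolynomial κ k)))

theorem mk_mul (i j : κ) :
    algebraMap (MvPolynomial κ k) (Localization.Away (X i : MvPolynomial κ k)) (X j) =
      (Localization.mk (X j) ⟨X i ^ 1, ⟨1, rfl⟩⟩ :
        Localization.Away (X i : MvPolynomial κ k)) *
      algebraMap (MvPolynomial κ k) (Localization.Away (X i : MvPolynomial κ k)) (X i) := by
  rw [← Localization.mk_one_eq_algebraMap, ← Localization.mk_one_eq_algebraMap,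
    Localization.mk_mul, Localization.mk_eq_mk_iff, Localization.r_iff_exists]
  refine ⟨1, ?_⟩
  simp only [OneMemClass.coe_one, one_mul, pow_one, mul_one]
  ring

/-- The localized evaluation. -/
theorem locHom_unit (i : κ) : IsUnit (eval₂Hom (C.scal s i) (C.f i) (X i)) := by
  simp [C.f_self]

theorem locHom_frac (i j : κ) : C.locHom s i (frac i j) = C.f i j := by
  have hu := C.locHom_unit s i
  have ej : eval₂Hom (C.scal s i) (C.f i) (X j) = C.f i j := eval₂Hom_X' _ _ _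
  have ei : eval₂Hom (C.scal s i) (C.f i) (X i) = 1 := (eval₂Hom_X' _ _ _).trans (C.f_self i)
  have h0 : ∀ a, IsLocalization.Away.lift
      (S := Localization.Away (X i : MvPolynomial κ k)) (X i) hu (algebraMap _ _ a) =
      eval₂Hom (C.scal s i) (C.f i) a := fun a => IsLocalization.Away.lift_eq _ _ _
  have h1 := congrArg (IsLocalization.Away.lift
    (S := Localization.Away (X i : MvPolynomial κ k)) (X i) hu) (mk_mul (k := k) i j)
  have h2 := (h0 (X j)).symm.trans (h1.trans ((map_mul _ _ _).trans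
    (congrArg₂ (· * ·) rfl ((h0 (X i)).trans ei))))
  rw [locHom, RingHom.comp_apply, HomogeneousLocalization.algebraMap_apply, frac, Away.val_mk]
  exact (((ej.symm.trans h2).trans (mul_one _))).symm

theorem locHom_const (i : κ) : (C.locHom s i).comp
    ((fromZeroRingHom (homogeneousSubmodule κ k) _).comp
      (algebraMap k (homogeneousSubmodule κ k 0))) = C.scal s i := by
  ext r
  have h : algebraMap (Away (homogeneousSubmodule κ k) (X i : MvPolynomial κ k))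
      (Localization.Away (X i : MvPolynomial κ k))
      (fromZeroRingHom (homogeneousSubmodule κ k) _
        (algebraMap k (homogeneousSubmodule κ k 0) r)) =
      algebraMap (MvPolynomial κ k) _ (MvPolynomial.C r) := rfl
  rw [RingHom.comp_apply, locHom, RingHom.comp_apply, RingHom.comp_apply, h,
    IsLocalization.Away.lift_eq, coe_eval₂Hom, eval₂_C]

/-- The restriction to `D i` of the morphism to projective space. -/
noncomputable def chart (i : κ) : (C.D i).toScheme ⟶ PS k κ :=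
  ((C.D i).toSpecΓ ≫ Spec.map (CommRingCat.ofHom (C.locHom s i))) ≫ psι i

theorem chart_aux (i : κ) {R : CommRingCat} (φ : R ⟶ Γ(Z, C.D i)) (a : R) :
    ((C.D i).toSpecΓ ≫ Spec.map φ).appTop ((Scheme.ΓSpecIso R).inv a) =
      (C.D i).ι.appLE (C.D i) ⊤ (by simp) (φ a) := by
  have h5 : (C.D i).ι.appLE (C.D i) ⊤ (by simp) = (C.D i).topIso.inv := by
    rw [Scheme.Opens.ι_appLE, Scheme.Opens.topIso_inv]
    rfl
  rw [h5, ← CommRingCat.comp_apply, ← CommRingCat.comp_apply, Scheme.Hom.comp_appTop,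
    ← Scheme.ΓSpecIso_inv_naturality_assoc, Scheme.Opens.toSpecΓ_appTop, Iso.inv_hom_id_assoc]

theorem chart_str (i : κ) : C.chart s i ≫ psStr k κ = (C.D i).ι ≫ s := by
  rw [chart, Category.assoc, psι_str, Category.assoc, ← Spec.map_comp, ← CommRingCat.ofHom_comp,
    locHom_const]
  refine ext_of_isAffine ?_
  rw [← cancel_epi (Scheme.ΓSpecIso (CommRingCat.of k)).inv]
  ext r
  refine (C.chart_aux i (CommRingCat.ofHom (C.scal s i)) r).trans ?_
  change (C.D i).ι.appLE (C.D i) ⊤ (by simp) (s.appLE ⊤ (C.D i) le_top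
    ((Scheme.ΓSpecIso (CommRingCat.of k)).inv r)) =
    ((C.D i).ι ≫ s).appTop ((Scheme.ΓSpecIso (CommRingCat.of k)).inv r)
  rw [← CommRingCat.comp_apply, Scheme.Hom.appLE_comp_appLE]
  exact appLE_self ((C.D i).ι ≫ s) ⊤ le_rfl _

theorem chart_le (i : κ) : ⊤ ≤ C.chart s i ⁻¹ᵁ psD i := by
  intro x _
  change psι i (((C.D i).toSpecΓ ≫ Spec.map (CommRingCat.ofHom (C.locHom s i))) x) ∈ psD i
  rw [psD, ← Proj.opensRange_awayι (homogeneousSubmodule κ k) (X i) (hX i) one_pos]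
  exact ⟨_, rfl⟩

theorem chart_coord (i j : κ) : (C.chart s i).appLE (psD i) ⊤ (C.chart_le s i) (psf i j) =
    (C.D i).ι.appLE (C.D i) ⊤ (by simp) (C.f i j) := by
  have hD : ⊤ ≤ psι (k := k) i ⁻¹ᵁ psD i := by
    intro x _
    change psι i x ∈ psD i
    rw [psD, ← Proj.opensRange_awayι (homogeneousSubmodule κ k) (X i) (hX i) one_pos]
    exact ⟨x, rfl⟩
  have h1 := Scheme.Hom.appLE_comp_appLE ((C.D i).toSpecΓ ≫
    Spec.map (CommRingCat.ofHom (C.locHom s i))) (psι i) (psD i) ⊤ ⊤ hD (le_of_eq rfl)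
  have h2 := appLE_self ((C.D i).toSpecΓ ≫ Spec.map (CommRingCat.ofHom (C.locHom s i))) ⊤
    le_rfl ((psι i).appLE (psD i) ⊤ hD (psf i j))
  have h3 := congrArg (fun φ => φ (psf i j)) h1
  refine h3.symm.trans ?_
  refine h2.trans ?_
  rw [psf, psι_app]
  refine (C.chart_aux i (CommRingCat.ofHom (C.locHom s i)) (frac i j)).trans ?_
  congr 1
  exact C.locHom_frac s i j

omit C in
theorem top_le {T : Scheme.{0}} (U : Z.Opens) (t : T ⟶ U.toScheme) :
    ⊤ ≤ (t ≫ U.ι) ⁻¹ᵁ U :=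
  fun x _ => (t x).2

theorem chart_top {T : Scheme.{0}} {i : κ} (t : T ⟶ (C.D i).toScheme) :
    ⊤ ≤ (t ≫ C.chart s i) ⁻¹ᵁ psD i :=
  pre_mono t (C.chart_le s i)

theorem chart_coord' {T : Scheme.{0}} {i : κ} (t : T ⟶ (C.D i).toScheme) (l : κ) :
    (t ≫ C.chart s i).appLE (psD i) ⊤ (C.chart_top s t) (psf i l) =
      (t ≫ (C.D i).ι).appLE (C.D i) ⊤ (top_le _ t) (C.f i l) := by
  have h1 := Scheme.Hom.appLE_comp_appLE t (C.chart s i) (psD i) ⊤ ⊤ (C.chart_le s i)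
    (le_of_eq rfl)
  have h2 := Scheme.Hom.appLE_comp_appLE t (C.D i).ι (C.D i) ⊤ ⊤ (by simp) (le_of_eq rfl)
  rw [← h1, ← h2, CommRingCat.comp_apply, CommRingCat.comp_apply, chart_coord]

theorem glue_aux {T : Scheme.{0}} {i j : κ} (F₁ F₂ : T ⟶ PS k κ) (z : T ⟶ Z)
    (hi : ⊤ ≤ z ⁻¹ᵁ C.D i) (hj : ⊤ ≤ z ⁻¹ᵁ C.D j)
    (h₁ : ⊤ ≤ F₁ ⁻¹ᵁ psD i) (h₂ : ⊤ ≤ F₂ ⁻¹ᵁ psD j)
    (e₁ : ∀ l, F₁.appLE (psD i) ⊤ h₁ (psf i l) = z.appLE (C.D i) ⊤ hi (C.f i l))
    (e₂ : ∀ l, F₂.appLE (psD j) ⊤ h₂ (psf j l) = z.appLE (C.D j) ⊤ hj (C.f j l))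
    (hs : F₁ ≫ psStr k κ = F₂ ≫ psStr k κ) : F₁ = F₂ := by
  have hu := C.isUnit z ⊤ j i hj hi
  have hi₂ : ⊤ ≤ F₂ ⁻¹ᵁ psD i := ps_le F₂ ⊤ j i h₂ (by rw [e₂]; exact hu)
  refine ps_sep i T _ _ h₁ hi₂ hs fun l => ?_
  have h1 := C.f_mul' z ⊤ j i l hj hi
  have h3 := ps_mul F₂ ⊤ j i l h₂ hi₂
  rw [e₂, e₂, h1] at h3
  rw [e₁]
  exact hu.mul_left_cancel h3

theorem chart_glue {T : Scheme.{0}} {i j : κ} (t₁ : T ⟶ (C.D i).toScheme)
    (t₂ : T ⟶ (C.D j).toScheme) (h : t₁ ≫ (C.D i).ι = t₂ ≫ (C.D j).ι) :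
    t₁ ≫ C.chart s i = t₂ ≫ C.chart s j := by
  obtain ⟨z, hz⟩ : ∃ z, z = t₁ ≫ (C.D i).ι := ⟨_, rfl⟩
  have hz' : z = t₂ ≫ (C.D j).ι := hz.trans h
  have hi : ⊤ ≤ z ⁻¹ᵁ C.D i := by rw [hz]; exact top_le _ t₁
  have hj : ⊤ ≤ z ⁻¹ᵁ C.D j := by rw [hz']; exact top_le _ t₂
  refine C.glue_aux (i := i) (j := j) _ _ z hi hj (C.chart_top s t₁) (C.chart_top s t₂)
    (fun l => ?_) (fun l => ?_) ?_
  · rw [chart_coord']
    subst hz
    rfl
  · rw [chart_coord']
    subst hz'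
    rfl
  · rw [Category.assoc, Category.assoc, chart_str, chart_str, ← Category.assoc, ← Category.assoc,
      h]

/-- The morphism to projective space over `k` with the coordinates `C`. -/
noncomputable def toPS : Z ⟶ PS k κ :=
  (Z.openCoverOfIsOpenCover C.D (.mk C.iSup_D)).glueMorphisms (fun i => C.chart s i)
    fun _ _ => C.chart_glue s _ _ pullback.condition

theorem ι_toPS (i : κ) : (C.D i).ι ≫ C.toPS s = C.chart s i :=
  (Z.openCoverOfIsOpenCover C.D (.mk C.iSup_D)).ι_glueMorphisms (fun i => C.chart s i) _ i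

theorem toPS_str : C.toPS s ≫ psStr k κ = s := by
  refine hom_ext_of_opens C.D C.iSup_D fun i => ?_
  rw [← Category.assoc, ι_toPS, chart_str]

theorem rep_toPS : C.Rep (C.toPS s) := by
  have le : ∀ i, C.D i ≤ C.toPS s ⁻¹ᵁ psD i := by
    intro i x hx
    have h1 : (C.D i).ι ≫ C.toPS s = C.chart s i := C.ι_toPS s i
    have h2 : ⊤ ≤ ((C.D i).ι ≫ C.toPS s) ⁻¹ᵁ psD i := by rw [h1]; exact C.chart_le s i
    exact h2 (Set.mem_univ (⟨x, hx⟩ : (C.D i).toScheme))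
  refine ⟨le, fun i j => ?_⟩
  have e : ⊤ ≤ (C.D i).ι ⁻¹ᵁ C.D i := by simp
  have h1 := Scheme.Hom.appLE_comp_appLE (C.D i).ι (C.toPS s) (psD i) (C.D i) ⊤ (le i) e
  have h2 := congrArg (fun φ => φ (psf i j)) h1
  have h3 := C.chart_coord s i j
  have h4 : ((C.D i).ι ≫ C.toPS s).appLE (psD i) ⊤ (e.trans (pre_mono _ (le i))) (psf i j) =
      (C.chart s i).appLE (psD i) ⊤ (C.chart_le s i) (psf i j) := by
    simp only [C.ι_toPS s i]
  have h5 := (h2.trans h4).trans h3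
  have h6 : (C.D i).ι.appLE (C.D i) ⊤ e = (C.D i).topIso.inv := by
    rw [Scheme.Opens.ι_appLE, Scheme.Opens.topIso_inv]
    rfl
  have h7 : Function.Injective ((C.D i).ι.appLE (C.D i) ⊤ e) := by
    rw [h6]
    exact (ConcreteCategory.bijective_of_isIso _).1
  exact h7 h5

theorem Rep.eq_toPS {C : PreCoord Z κ} {F : Z ⟶ PS k κ} (h : C.Rep F) :
    F = C.toPS (F ≫ psStr k κ) :=
  h.ext (C.rep_toPS _) (C.toPS_str _).symm

theorem comp_toPS {T : Scheme.{0}} (z : T ⟶ Z) :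
    z ≫ C.toPS s = (C.comap z).toPS (z ≫ s) := by
  refine ((C.rep_toPS s).comp z).ext ((C.comap z).rep_toPS (z ≫ s)) ?_
  rw [Category.assoc, toPS_str, toPS_str]

theorem toPS_ps (F : Z ⟶ PS k κ) : ((ps k κ).comap F).toPS (F ≫ psStr k κ) = F :=
  (rep_comap F).eq_toPS.symm

end construct

end PreCoord

end Pool.Agent.Lib.MP_4ca46c_ag.Hyp
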