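import Mathlib
import Pool.Agent.Lib.MP_4ca46c_ag.Hyp.ToPS
import Pool.Agent.Lib.MP_4ca46c_ag.Hyp.Family

/-!
# Projective space is proper, and homogeneous coordinates give closed immersions
-/

namespace Pool.Agent.Lib.MP_4ca46c_ag.Hyp

open CategoryTheory Limits AlgebraicGeometry Opposite HomogeneousLocalization MvPolynomial

attribute [local instance] MvPolynomial.gradedAlgebra

variable {k : Type} [Field k] {κ : Type} {Z : Scheme.{0}}

theorem const_surj : Function.Surjective (algebraMap k (homogeneousSubmodule κ k 0)) := by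
  rintro ⟨x, hx⟩
  have h := totalDegree_eq_zero_iff_eq_C.1 ((totalDegree_zero_iff_isHomogeneous κ).2 hx)
  exact ⟨_, Subtype.ext h.symm⟩

theorem const_inj : Function.Injective (algebraMap k (homogeneousSubmodule κ k 0)) := by
  intro a b h
  exact C_injective κ k (congrArg Subtype.val h)

instance : IsScalarTower k (homogeneousSubmodule κ k 0) (MvPolynomial κ k) :=
  ⟨fun a b c => smul_mul_assoc a (b : MvPolynomial κ k) c⟩

instance [Finite κ] : Algebra.FiniteType (homogeneousSubmodule κ k 0) (MvPolynomial κ k) :=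
  Algebra.FiniteType.of_restrictScalars_finiteType k _ _

instance : IsIso (Spec.map (CommRingCat.ofHom (algebraMap k (homogeneousSubmodule κ k 0)))) := by
  have : IsIso (CommRingCat.ofHom (algebraMap k (homogeneousSubmodule κ k 0))) :=
    (ConcreteCategory.isIso_iff_bijective _).2 ⟨const_inj, const_surj⟩
  infer_instance

instance : IsSeparated (psStr k κ) := by
  rw [psStr]
  infer_instance

instance [Finite κ] : IsProper (psStr k κ) := by
  rw [psStr]
  infer_instance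

/-- The morphism to projective space given by coordinates which determine the points is a
monomorphism. -/
theorem Coord.mono_toPS (s : Z ⟶ Spec (CommRingCat.of k)) (C : Coord s κ) :
    Mono (C.toPS s) := by
  refine ⟨fun {T} F F' h => ?_⟩
  have hs : F ≫ s = F' ≫ s := by
    rw [← C.toPS_str s, ← Category.assoc, h, Category.assoc]
  have hD : ∀ i, F ⁻¹ᵁ C.D i = F' ⁻¹ᵁ C.D i := fun i => by
    rw [← (C.rep_toPS s).D_eq i]
    change (F ≫ C.toPS s) ⁻¹ᵁ psD i = (F' ≫ C.toPS s) ⁻¹ᵁ psD i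
    rw [h]
  refine hom_ext_of_opens (fun i => F ⁻¹ᵁ C.D i) (C.iSup_pre F) fun i => ?_
  have e : ⊤ ≤ (F ⁻¹ᵁ C.D i).ι ⁻¹ᵁ (F ⁻¹ᵁ C.D i) := by simp
  have e' : ⊤ ≤ (F ⁻¹ᵁ C.D i).ι ⁻¹ᵁ (F' ⁻¹ᵁ C.D i) := e.trans (pre_mono _ (le_of_eq (hD i)))
  refine C.sep i _ _ _ e e' (by rw [Category.assoc, Category.assoc, hs]) fun j => ?_
  have h1 := (C.rep_toPS s).res ((F ⁻¹ᵁ C.D i).ι ≫ F) ⊤ i j e
    (e.trans (pre_mono ((F ⁻¹ᵁ C.D i).ι ≫ F) ((C.rep_toPS s).le i)))
  have h2 := (C.rep_toPS s).res ((F ⁻¹ᵁ C.D i).ι ≫ F') ⊤ i j e'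
    (e'.trans (pre_mono ((F ⁻¹ᵁ C.D i).ι ≫ F') ((C.rep_toPS s).le i)))
  rw [← h1, ← h2]
  have h3 : ((F ⁻¹ᵁ C.D i).ι ≫ F) ≫ C.toPS s = ((F ⁻¹ᵁ C.D i).ι ≫ F') ≫ C.toPS s := by
    rw [Category.assoc, Category.assoc, h]
  simp only [h3]

theorem Coord.closed_toPS (s : Z ⟶ Spec (CommRingCat.of k)) [IsProper s] (C : Coord s κ) :
    IsClosedImmersion (C.toPS s) := by
  rw [IsClosedImmersion.iff_isProper_and_mono]
  have : IsProper (C.toPS s ≫ psStr k κ) := by rw [C.toPS_str s]; infer_instance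
  exact ⟨IsProper.of_comp _ (psStr k κ), mono_toPS s C⟩

end Pool.Agent.Lib.MP_4ca46c_ag.Hyp
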