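import Mathlib
import Pool.Agent.Lib.MP_4ca46c_ag.Hyp.Embed

/-!
# Coordinates given by functions, and the charts of projective space
-/

namespace Pool.Agent.Lib.MP_4ca46c_ag.Hyp

open CategoryTheory Limits AlgebraicGeometry Opposite HomogeneousLocalization MvPolynomial

attribute [local instance] MvPolynomial.gradedAlgebra

variable {k : Type} [Field k] {κ : Type} {T : Scheme.{0}}

section

variable (a : κ → Γ(T, ⊤)) {i : κ} (ha : a i = 1)

theorem vec_unit (j : κ) : IsUnit (T.presheaf.map (homOfLE (T.basicOpen_le (a j))).op (a j)) :=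
  T.toRingedSpace.isUnit_res_basicOpen (a j)

/-- The inverse of `a j` where it is invertible. -/
noncomputable def vinv (j : κ) : Γ(T, T.basicOpen (a j)) := ((vec_unit a j).unit⁻¹ : Units _)

theorem mul_vinv (j : κ) : T.presheaf.map (homOfLE (T.basicOpen_le (a j))).op (a j) *
    vinv a j = 1 := (vec_unit a j).mul_val_inv

include ha in
theorem iSup_vec : ⨆ j, T.basicOpen (a j) = ⊤ := by
  rw [eq_top_iff]
  refine le_trans (le_of_eq ?_) (le_iSup _ i)
  rw [ha]
  exact (Scheme.basicOpen_of_isUnit T isUnit_one).symm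

/-- Coordinates given by functions one of which is equal to 1. -/
noncomputable def ofVec : PreCoord T κ where
  D j := T.basicOpen (a j)
  f j l := T.presheaf.map (homOfLE le_top).op (a l) * vinv a j
  iSup_D := iSup_vec a ha
  f_self j := mul_vinv a j
  f_mul j l m := by
    have r : ∀ m (V : T.Opens) (hV : T.basicOpen (a j) ⊓ T.basicOpen (a l) ≤ V),
        T.presheaf.map (homOfLE hV).op (T.presheaf.map (homOfLE le_top).op (a m)) =
          T.presheaf.map (homOfLE le_top).op (a m) := fun m V hV => by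
      rw [← CommRingCat.comp_apply, ← Functor.map_comp]
      rfl
    have hl := congrArg (T.presheaf.map (homOfLE (inf_le_right :
      T.basicOpen (a j) ⊓ T.basicOpen (a l) ≤ T.basicOpen (a l))).op) (mul_vinv a l)
    rw [map_mul, map_one, r] at hl
    rw [map_mul, map_mul, map_mul, r, r, r]
    linear_combination (-(T.presheaf.map (homOfLE le_top).op (a m)) *
      T.presheaf.map (homOfLE inf_le_left).op (vinv a j)) * hl
  basicOpen_le j l := by
    rw [Scheme.basicOpen_mul, Scheme.basicOpen_res]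
    exact inf_le_left.trans inf_le_right

theorem ofVec_D : (ofVec a ha).D i = ⊤ := by
  change T.basicOpen (a i) = ⊤
  rw [ha]
  exact Scheme.basicOpen_of_isUnit T isUnit_one

theorem ofVec_f (j : κ) : (ofVec a ha).f i j =
    T.presheaf.map (homOfLE (le_top : (ofVec a ha).D i ≤ ⊤)).op (a j) := by
  have h1 : vinv a i = 1 := by
    have h := mul_vinv a i
    have h2 : T.presheaf.map (homOfLE (T.basicOpen_le (a i))).op (a i) = 1 := by
      have e : ∀ x : Γ(T, ⊤), x = 1 → T.presheaf.map (homOfLE (T.basicOpen_le (a i))).op x = 1 := by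
        rintro x rfl
        exact map_one _
      exact e _ ha
    rwa [h2, one_mul] at h
  exact (congrArg (T.presheaf.map (homOfLE le_top).op (a j) * ·) h1).trans (mul_one _)

end

theorem res_inj {U : T.Opens} (h : U = ⊤) :
    Function.Injective (T.presheaf.map (homOfLE (le_top : U ≤ ⊤)).op) := by
  subst h
  have : T.presheaf.map (homOfLE (le_top : (⊤ : T.Opens) ≤ ⊤)).op = 𝟙 _ := T.presheaf.map_id _
  rw [this]
  exact fun _ _ h => h

/-- The morphism to the open set `x_i ≠ 0` given by functions `a_j` with `a_i = 1`. -/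
theorem exists_vec (a : κ → Γ(T, ⊤)) {i : κ} (ha : a i = 1) (s : T ⟶ Spec (CommRingCat.of k)) :
    ∃ F : T ⟶ PS k κ, F ≫ psStr k κ = s ∧ ∃ h : ⊤ ≤ F ⁻¹ᵁ psD i,
      ∀ j, F.appLE (psD i) ⊤ h (psf i j) = a j := by
  have hr := (ofVec a ha).rep_toPS s
  have h : ⊤ ≤ (ofVec a ha).toPS s ⁻¹ᵁ psD i := by
    rw [← ofVec_D a ha]
    exact hr.le i
  refine ⟨(ofVec a ha).toPS s, (ofVec a ha).toPS_str s, h, fun j => ?_⟩
  refine res_inj (ofVec_D a ha) ?_
  rw [← ofVec_f a ha j, ← hr.eq i j, ← CommRingCat.comp_apply, Scheme.Hom.appLE_map]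

/-- The morphism to the open set `x_i ≠ 0` given by functions `a_j`, `j ≠ i`. -/
theorem exists_vec' [DecidableEq κ] {i : κ} (a : {j // j ≠ i} → Γ(T, ⊤))
    (s : T ⟶ Spec (CommRingCat.of k)) :
    ∃ F : T ⟶ PS k κ, F ≫ psStr k κ = s ∧ ∃ h : ⊤ ≤ F ⁻¹ᵁ psD i,
      ∀ j : {j // j ≠ i}, F.appLE (psD i) ⊤ h (psf i j.1) = a j := by
  obtain ⟨F, h1, h2, h3⟩ := exists_vec (k := k)
    (fun j => if h : j = i then 1 else a ⟨j, h⟩) (dif_pos rfl) s
  refine ⟨F, h1, h2, fun j => ?_⟩
  rw [h3]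
  exact dif_neg j.2

/-- Morphisms to the open set `x_i ≠ 0` are determined by the functions `x_j / x_i`, `j ≠ i`. -/
theorem unique_vec' (i : κ) (z z' : T ⟶ PS k κ) (h : ⊤ ≤ z ⁻¹ᵁ psD i)
    (h' : ⊤ ≤ z' ⁻¹ᵁ psD i) (hs : z ≫ psStr k κ = z' ≫ psStr k κ)
    (H : ∀ j : {j // j ≠ i}, z.appLE (psD i) ⊤ h (psf i j.1) =
      z'.appLE (psD i) ⊤ h' (psf i j.1)) : z = z' := by
  refine ps_sep i T z z' h h' hs fun j => ?_
  by_cases hj : j = i
  · subst hj
    rw [psf_self, map_one, map_one]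
  · exact H ⟨j, hj⟩

end Pool.Agent.Lib.MP_4ca46c_ag.Hyp
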