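import Mathlib
import Pool.Agent.Lib.MP_4ca46c_ag.Hyp.Vec
import Pool.Agent.Lib.MP_4ca46c_ag.Hyp.AffSmooth

/-!
# The charts of projective space are affine spaces. Projective space is smooth and geometrically
irreducible.
-/

namespace Pool.Agent.Lib.MP_4ca46c_ag.Hyp

open CategoryTheory Limits AlgebraicGeometry Opposite HomogeneousLocalization MvPolynomial

attribute [local instance] MvPolynomial.gradedAlgebra

variable {k : Type} [Field k] {κ : Type} {S PSS : Scheme.{0}}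

/-- The charts of projective space over `S` are affine spaces. -/
theorem chart_iso {p : PSS ⟶ PS k κ} {q : PSS ⟶ S} {s : S ⟶ Spec (CommRingCat.of k)}
    (pb : IsPullback p q (psStr k κ) s) (i : κ) :
    ∃ e : (p ⁻¹ᵁ psD i).toScheme ≅ 𝔸({j // j ≠ i}; S),
      e.hom ≫ (𝔸({j // j ≠ i}; S) ↘ S) = (p ⁻¹ᵁ psD i).ι ≫ q := by
  classical
  set U := p ⁻¹ᵁ psD i with hU
  have top : ⊤ ≤ (U.ι ≫ p) ⁻¹ᵁ psD i := fun x _ => x.2
  have rule : ∀ {T T' : Scheme.{0}} (t : T ⟶ T') (f : T' ⟶ PS k κ) (h : ⊤ ≤ f ⁻¹ᵁ psD i)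
      (h' : ⊤ ≤ (t ≫ f) ⁻¹ᵁ psD i) (j : κ), (t ≫ f).appLE (psD i) ⊤ h' (psf i j) =
        t.appTop (f.appLE (psD i) ⊤ h (psf i j)) := fun t f h h' j => by
    have h1 := Scheme.Hom.appLE_comp_appLE t f (psD i) ⊤ ⊤ h (le_of_eq rfl)
    have h2 : t.appLE ⊤ ⊤ (le_of_eq rfl) = t.appTop := Scheme.Hom.appLE_eq_app _
    rw [h2] at h1
    rw [← h1, CommRingCat.comp_apply]
  let hom : U.toScheme ⟶ 𝔸({j // j ≠ i}; S) := AffineSpace.homOfVector (U.ι ≫ q)
    (fun j => (U.ι ≫ p).appLE (psD i) ⊤ top (psf i j.1))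
  set π := 𝔸({j // j ≠ i}; S) ↘ S with hπ
  obtain ⟨F, hF, hD, hc⟩ := exists_vec' (k := k) (AffineSpace.coord S (n := {j // j ≠ i})) (π ≫ s)
  let G : 𝔸({j // j ≠ i}; S) ⟶ PSS := pb.lift F π hF
  have hG : Set.range G ⊆ Set.range U.ι := by
    rintro _ ⟨x, rfl⟩
    rw [Scheme.Opens.range_ι]
    have h1 : (G ≫ p) x ∈ psD i := by
      rw [pb.lift_fst]
      exact hD (Set.mem_univ x)
    exact h1
  let inv : 𝔸({j // j ≠ i}; S) ⟶ U.toScheme := IsOpenImmersion.lift U.ι G hG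
  have hinv : inv ≫ U.ι = G := IsOpenImmersion.lift_fac _ _ _
  have e1 : inv ≫ U.ι ≫ p = F := by rw [← Category.assoc, hinv, pb.lift_fst]
  have e2 : inv ≫ U.ι ≫ q = π := by rw [← Category.assoc, hinv, pb.lift_snd]
  have e3 : hom ≫ π = U.ι ≫ q := AffineSpace.homOfVector_over _ _
  refine ⟨⟨hom, inv, ?_, ?_⟩, e3⟩
  · rw [← cancel_mono U.ι, Category.assoc, Category.id_comp, hinv]
    refine pb.hom_ext ?_ ?_
    · rw [Category.assoc, pb.lift_fst]
      have h1 : ⊤ ≤ (hom ≫ F) ⁻¹ᵁ psD i := fun x _ => hD (Set.mem_univ (hom x))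
      refine unique_vec' i _ _ h1 top ?_ fun j => ?_
      · rw [Category.assoc, hF, ← Category.assoc, e3, Category.assoc, Category.assoc, pb.w]
      · rw [rule hom F hD h1, hc, AffineSpace.homOfVector_appTop_coord]
    · rw [Category.assoc, pb.lift_snd, e3]
  · refine AffineSpace.hom_ext ?_ fun j => ?_
    · rw [Category.assoc, e3, e2, Category.id_comp]
    · rw [Scheme.Hom.comp_appTop, CommRingCat.comp_apply, AffineSpace.homOfVector_appTop_coord]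
      have h1 : ⊤ ≤ (inv ≫ U.ι ≫ p) ⁻¹ᵁ psD i := by rw [e1]; exact hD
      rw [← rule inv (U.ι ≫ p) top h1]
      simp only [e1]
      rw [hc]
      simp

theorem irr_of_cover {X : Type*} [TopologicalSpace X] {ι : Type*} (U : ι → Set X)
    (hU : ∀ i, IsOpen (U i)) (h : ∀ x, ∃ i, x ∈ U i) (x₀ : X) (hx : ∀ i, x₀ ∈ U i)
    (hi : ∀ i, IsPreirreducible (U i)) : IrreducibleSpace X := by
  have : PreirreducibleSpace X := by
    refine ⟨fun A B hA hB ⟨a, _, ha⟩ ⟨b, _, hb⟩ => ?_⟩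
    obtain ⟨i, hia⟩ := h a
    obtain ⟨j, hjb⟩ := h b
    obtain ⟨c, hc, hc1, hc2⟩ := hi i A (U j) hA (hU j) ⟨a, hia, ha⟩ ⟨x₀, hx i, hx j⟩
    obtain ⟨d, _, hd1, hd2⟩ := hi j A B hA hB ⟨c, hc2, hc1⟩ ⟨b, hjb, hb⟩
    exact ⟨d, trivial, hd1, hd2⟩
  exact ⟨⟨x₀⟩⟩

theorem iSup_pre_psD (p : PSS ⟶ PS k κ) : ⨆ i, p ⁻¹ᵁ psD i = ⊤ := by
  rw [eq_top_iff]
  intro x _
  obtain ⟨i, hi⟩ := TopologicalSpace.Opens.mem_iSup.1 (iSup_psD.ge (Set.mem_univ (p x)))
  exact TopologicalSpace.Opens.mem_iSup.2 ⟨i, hi⟩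

theorem irr_range {X Y : Scheme.{0}} (e : X ≅ Y) [IrreducibleSpace Y] : IrreducibleSpace X := by
  have h := (IrreducibleSpace.isIrreducible_univ Y).image e.inv e.inv.continuous.continuousOn
  have h2 : e.inv '' Set.univ = Set.univ := by
    rw [Set.image_univ]
    refine Set.eq_univ_of_forall fun x => ⟨e.hom x, ?_⟩
    rw [← Scheme.Hom.comp_apply, Iso.hom_inv_id]
    rfl
  rw [h2] at h
  exact (irreducibleSpace_def _).2 h

instance ps_irr [Nonempty κ] : GeometricallyIrreducible (psStr k κ) := by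
  refine ⟨fun K _ y Z p q pb => ?_⟩
  obtain ⟨i₀⟩ := ‹Nonempty κ›
  obtain ⟨F, hF, hi, hc⟩ := exists_vec (k := k) (κ := κ) (fun _ => (1 : Γ(Spec (.of K), ⊤)))
    (i := i₀) rfl y
  have hj : ∀ j, ⊤ ≤ F ⁻¹ᵁ psD j := fun j =>
    PreCoord.ps_le F ⊤ i₀ j hi (by rw [hc j]; exact isUnit_one)
  let G : Spec (.of K) ⟶ Z := pb.lift F (𝟙 _) (by rw [hF, Category.id_comp])
  let x : Spec (.of K) := Classical.arbitrary _
  have hG : ∀ j, G x ∈ p ⁻¹ᵁ psD j := fun j => by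
    have h1 : (G ≫ p) x ∈ psD j := by
      rw [pb.lift_fst]
      exact hj j (Set.mem_univ x)
    exact h1
  refine irr_of_cover (fun i => ((p ⁻¹ᵁ psD i : Z.Opens) : Set Z))
    (fun i => (p ⁻¹ᵁ psD i).isOpen) (fun z => TopologicalSpace.Opens.mem_iSup.1
      ((iSup_pre_psD p).ge (Set.mem_univ z))) (G x) hG fun i => ?_
  obtain ⟨e, -⟩ := chart_iso pb i
  have := irr_range e
  have h := (IrreducibleSpace.isIrreducible_univ (p ⁻¹ᵁ psD i).toScheme).image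
    (p ⁻¹ᵁ psD i).ι (p ⁻¹ᵁ psD i).ι.continuous.continuousOn
  rw [Set.image_univ, Scheme.Opens.range_ι] at h
  exact h.2

theorem card_ne {κ : Type} [Finite κ] {n : ℕ} (h : Nat.card κ = n + 1) (i : κ) :
    Nat.card {j // j ≠ i} = n := by
  classical
  have := Fintype.ofFinite κ
  rw [Nat.card_eq_fintype_card] at h ⊢
  rw [Fintype.card_subtype_compl, h]
  simp

theorem ps_smooth [Finite κ] (n : ℕ) (h : Nat.card κ = n + 1) :
    SmoothOfRelativeDimension n (psStr k κ) := by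
  refine IsZariskiLocalAtSource.of_iSup_eq_top psD iSup_psD fun i => ?_
  obtain ⟨e, he⟩ := chart_iso (IsPullback.of_id_fst (f := psStr k κ)) i
  have h1 : (𝟙 (PS k κ) ⁻¹ᵁ psD i).ι ≫ psStr k κ = (psD i).ι ≫ psStr k κ := rfl
  rw [h1] at he
  rw [← he]
  have st := smoothOfRelativeDimension_isStableUnderBaseChange.{0} n
  have ri : MorphismProperty.RespectsIso (@SmoothOfRelativeDimension.{0} n) :=
    st.respectsIso
  have h2 := affine_smooth {j // j ≠ i} (Spec (CommRingCat.of k)) n (card_ne h i)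
  exact (MorphismProperty.cancel_left_of_respectsIso (@SmoothOfRelativeDimension.{0} n)
    e.hom _).2 h2

end Pool.Agent.Lib.MP_4ca46c_ag.Hyp
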