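import Mathlib
import Pool.Agent.Lib.MP_4ca46c_ag.Hyp.Embed
import Pool.Agent.Lib.MP_4ca46c_ag.Std.Hyper

/-!
# The coordinates of a coordinate hyperplane and its universal property
-/

namespace Pool.Agent.Lib.MP_4ca46c_ag.Hyp

open CategoryTheory Limits AlgebraicGeometry Opposite HomogeneousLocalization MvPolynomial
open Pool.Agent.Lib.MP_4ca46c_ag.Std

attribute [local instance] MvPolynomial.gradedAlgebra

variable {k : Type} [Field k] {κ : Type} {i : κ}

/-- The section `z / y` on `D_+(y)`. -/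
noncomputable def gsec {σ : Type} (y z : MvPolynomial σ k) (hy : y ∈ homogeneousSubmodule σ k 1)
    (hz : z ∈ homogeneousSubmodule σ k 1) :
    Γ(PS k σ, Proj.basicOpen (homogeneousSubmodule σ k) y) :=
  Proj.awayToSection (homogeneousSubmodule σ k) y
    (Away.mk (homogeneousSubmodule σ k) hy 1 z (by simpa using hz))

theorem gsec_X {σ : Type} (j l : σ) : gsec (k := k) (X j) (X l) (hX j) (hX l) = psf j l := rfl

theorem gsec_zero {σ : Type} (y : MvPolynomial σ k) (hy : y ∈ homogeneousSubmodule σ k 1)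
    (hz : 0 ∈ homogeneousSubmodule σ k 1) : gsec y 0 hy hz = 0 := by
  have e : Away.mk (homogeneousSubmodule σ k) hy 1 0 (by simp) = 0 := by
    refine HomogeneousLocalization.val_injective _ ?_
    rw [Away.val_mk, val_zero, Localization.mk_zero]
  rw [gsec, e, map_zero]

theorem sec_eq {σ : Type} {T : Scheme.{0}} (t : T ⟶ PS k σ) (W : T.Opens)
    {y y' z z' : MvPolynomial σ k} (e : y = y')
    (e' : z = z') (hy : y ∈ homogeneousSubmodule σ k 1) (hy' : y' ∈ homogeneousSubmodule σ k 1)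
    (hz : z ∈ homogeneousSubmodule σ k 1) (hz' : z' ∈ homogeneousSubmodule σ k 1)
    (h : W ≤ t ⁻¹ᵁ Proj.basicOpen (homogeneousSubmodule σ k) y)
    (h' : W ≤ t ⁻¹ᵁ Proj.basicOpen (homogeneousSubmodule σ k) y') :
    t.appLE _ W h (gsec y z hy hz) = t.appLE _ W h' (gsec y' z' hy' hz') := by
  subst e e'
  rfl

theorem hyp_pre (i : κ) (j : κ) : hypMap k i ⁻¹ᵁ psD j =
    Proj.basicOpen (homogeneousSubmodule {j // j ≠ i} k) (kill k i (X j)) := rfl

theorem hyp_pre_ne {i j : κ} (h : j ≠ i) : hypMap k i ⁻¹ᵁ psD j = psD ⟨j, h⟩ := by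
  rw [hyp_pre, kill_X_ne k i h]

theorem hyp_pre_self (i : κ) : hypMap k i ⁻¹ᵁ psD i = ⊥ := by
  rw [hyp_pre, kill_X_self, Proj.basicOpen_zero]

theorem kill_mem {i : κ} {n : ℕ} {z : MvPolynomial κ k} (hz : z ∈ homogeneousSubmodule κ k n) :
    kill k i z ∈ homogeneousSubmodule {j // j ≠ i} k n := (killG k i).2 hz

theorem hyp_le (i j : κ) : Proj.basicOpen (homogeneousSubmodule {j // j ≠ i} k)
    (kill k i (X j)) ≤ hypMap k i ⁻¹ᵁ psD j := le_of_eq (hyp_pre i j).symm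

theorem hyp_app (i j l : κ) : (hypMap k i).appLE (psD j) (Proj.basicOpen
    (homogeneousSubmodule {j // j ≠ i} k) (kill k i (X j))) (hyp_le i j) (psf j l) =
      gsec (kill k i (X j)) (kill k i (X l)) (kill_mem (hX j)) (kill_mem (hX l)) := by
  have h1 := Proj.awayToSection_comp_appLE (killG k i) (killG_irrelevant k i) (hX j)
  have h2 := congrArg (fun φ => φ (frac j l)) h1
  have h3 : Away.map (killG k i) (X j) (frac j l) =
      Away.mk (homogeneousSubmodule {j // j ≠ i} k) (kill_mem (hX j)) 1 (kill k i (X l))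
          (kill_mem (by simpa using hX l)) := by
    rw [frac, Away.map_mk]
    rfl
  refine h2.trans ?_
  exact congrArg (Proj.awayToSection (homogeneousSubmodule {j // j ≠ i} k)
    (kill k i (X j))) h3

theorem hyp_app' {T : Scheme.{0}} {i : κ} (t : T ⟶ PS k {j // j ≠ i}) (W : T.Opens) (j l : κ)
    (h : W ≤ (t ≫ hypMap k i) ⁻¹ᵁ psD j) (h' : W ≤ t ⁻¹ᵁ Proj.basicOpen
      (homogeneousSubmodule {j // j ≠ i} k) (kill k i (X j))) :
    (t ≫ hypMap k i).appLE (psD j) W h (psf j l) =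
      t.appLE (Proj.basicOpen (homogeneousSubmodule {j // j ≠ i} k) (kill k i (X j))) W h'
      (gsec (kill k i (X j)) (kill k i (X l)) (kill_mem (hX j)) (kill_mem (hX l))) := by
  rw [← hyp_app, ← CommRingCat.comp_apply, Scheme.Hom.appLE_comp_appLE]

theorem hyp_le' {T : Scheme.{0}} {i : κ} (t : T ⟶ PS k {j // j ≠ i}) (W : T.Opens) (j : κ)
    (h : W ≤ (t ≫ hypMap k i) ⁻¹ᵁ psD j) : W ≤ t ⁻¹ᵁ Proj.basicOpen
      (homogeneousSubmodule {j // j ≠ i} k) (kill k i (X j)) := by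
  rw [Scheme.Hom.comp_preimage, hyp_pre] at h
  exact h

theorem hyp_app_ne {T : Scheme.{0}} {i : κ} (t : T ⟶ PS k {j // j ≠ i}) (W : T.Opens) {j l : κ}
    (hj : j ≠ i) (hl : l ≠ i) (h : W ≤ (t ≫ hypMap k i) ⁻¹ᵁ psD j) (h' : W ≤ t ⁻¹ᵁ psD ⟨j, hj⟩) :
    (t ≫ hypMap k i).appLE (psD j) W h (psf j l) =
      t.appLE (psD ⟨j, hj⟩) W h' (psf (k := k) (κ := {j // j ≠ i}) ⟨j, hj⟩ ⟨l, hl⟩) := by
  refine (hyp_app' t W j l h (hyp_le' t W j h)).trans ?_
  refine (sec_eq t W (kill_X_ne k i hj) (kill_X_ne k i hl)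
    (kill_mem (hX j)) (hX _) (kill_mem (hX l)) (hX _) (hyp_le' t W j h) h').trans ?_
  rw [gsec_X]

theorem hyp_app_self {T : Scheme.{0}} {i : κ} (t : T ⟶ PS k {j // j ≠ i}) (W : T.Opens) (j : κ)
    (h : W ≤ (t ≫ hypMap k i) ⁻¹ᵁ psD j) :
    (t ≫ hypMap k i).appLE (psD j) W h (psf j i) = 0 := by
  refine (hyp_app' t W j i h (hyp_le' t W j h)).trans ?_
  refine (sec_eq t W rfl (kill_X_self k i) (kill_mem (hX j))
    (kill_mem (hX j)) (kill_mem (hX i)) (zero_mem _) (hyp_le' t W j h)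
      (hyp_le' t W j h)).trans ?_
  rw [gsec_zero, map_zero]

theorem sub_bot {Z : Scheme.{0}} {U : Z.Opens} (h : U = ⊥) (a b : Γ(Z, U)) : a = b := by
  subst h
  exact Subsingleton.elim _ _

theorem PreCoord.D_bot {Z : Scheme.{0}} (C : PreCoord Z κ) {i : κ} (h : C.f i i = 0) :
    C.D i = ⊥ := by
  have h1 := Scheme.basicOpen_of_isUnit Z (isUnit_one (M := Γ(Z, C.D i)))
  rw [← C.f_self, h, Scheme.basicOpen_zero] at h1
  exact h1.symm

/-- Coordinates with vanishing `i`-th coordinate are coordinates for the hyperplane. -/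
noncomputable def PreCoord.drop {Z : Scheme.{0}} (C : PreCoord Z κ) (i : κ)
    (h : ∀ j, C.f j i = 0) : PreCoord Z {j // j ≠ i} where
  D j := C.D j.1
  f j l := C.f j.1 l.1
  iSup_D := by
    rw [eq_top_iff]
    intro x _
    obtain ⟨j, hj⟩ := TopologicalSpace.Opens.mem_iSup.1 (C.iSup_D.ge (Set.mem_univ x))
    refine TopologicalSpace.Opens.mem_iSup.2 ⟨⟨j, ?_⟩, hj⟩
    rintro rfl
    rw [C.D_bot (h j)] at hj
    exact hj
  f_self j := C.f_self j.1
  f_mul j l m := C.f_mul j.1 l.1 m.1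
  basicOpen_le j l := C.basicOpen_le j.1 l.1

/-- The morphism to the hyperplane. -/
theorem PreCoord.Rep.drop {Z : Scheme.{0}} {C : PreCoord Z κ} {i : κ} (h : ∀ j, C.f j i = 0)
    {F : Z ⟶ PS k {j // j ≠ i}} (hF : (C.drop i h).Rep F) : C.Rep (F ≫ hypMap k i) := by
  have le : ∀ j, C.D j ≤ (F ≫ hypMap k i) ⁻¹ᵁ psD j := by
    intro j
    by_cases hj : j = i
    · subst hj
      rw [C.D_bot (h j)]
      exact bot_le
    · rw [Scheme.Hom.comp_preimage, hyp_pre_ne hj]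
      exact hF.le ⟨j, hj⟩
  refine ⟨le, fun j l => ?_⟩
  by_cases hj : j = i
  · subst hj
    exact sub_bot (C.D_bot (h j)) _ _
  · by_cases hl : l = i
    · subst hl
      rw [h j]
      exact hyp_app_self F (C.D j) j (le j)
    · rw [hyp_app_ne F (C.D j) hj hl (le j) (hF.le ⟨j, hj⟩)]
      exact hF.eq ⟨j, hj⟩ ⟨l, hl⟩

theorem PreCoord.eqn_single {T Z : Scheme.{0}} [Fintype κ] [DecidableEq κ] (C : PreCoord Z κ)
    (z : T ⟶ Z) (i j : κ) (W : T.Opens) (h : W ≤ z ⁻¹ᵁ C.D j) :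
    C.eqn z (Pi.single i 1) j W h = z.appLE (C.D j) W h (C.f j i) := by
  rw [PreCoord.eqn, Finset.sum_eq_single i]
  · rw [Pi.single_eq_same, map_one, one_mul]
  · intro l _ hl
    rw [Pi.single_eq_of_ne hl, map_zero, zero_mul]
  · intro hi
    exact absurd (Finset.mem_univ i) hi

theorem PreCoord.van_single {T Z : Scheme.{0}} [Fintype κ] [DecidableEq κ] (C : PreCoord Z κ)
    (z : T ⟶ Z) (i : κ) : C.Van z (Pi.single i 1) ↔ ∀ j, (C.comap z).f j i = 0 := by
  refine forall_congr' fun j => ?_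
  rw [C.eqn_single, appLE_self]
  rfl

/-- The universal property of the hyperplane `x_i = 0`. -/
theorem hyp_factor {T : Scheme.{0}} (t : T ⟶ PS k κ) (i : κ)
    (h : ∀ j, ((PreCoord.ps k κ).comap t).f j i = 0) :
    ∃ t', t' ≫ hypMap k i = t := by
  have h1 := (((PreCoord.ps k κ).comap t).drop i h).rep_toPS (t ≫ psStr k κ)
  refine ⟨(((PreCoord.ps k κ).comap t).drop i h).toPS (t ≫ psStr k κ), ?_⟩
  refine h1.drop.ext (PreCoord.rep_comap t) ?_
  rw [Category.assoc, hypMap_str, PreCoord.toPS_str]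

theorem hyp_zero {T : Scheme.{0}} (t : T ⟶ PS k {j // j ≠ i}) (j : κ) :
    ((PreCoord.ps k κ).comap (t ≫ hypMap k i)).f j i = 0 := by
  have h1 := hyp_app_self t ((t ≫ hypMap k i) ⁻¹ᵁ psD j) j le_rfl
  rw [appLE_self] at h1
  exact h1

/-- The universal property of the hyperplane `x_i = 0`. -/
theorem hyp_iff {T : Scheme.{0}} [Fintype κ] [DecidableEq κ] (t : T ⟶ PS k κ) (i : κ) :
    (∃ t', t' ≫ hypMap k i = t) ↔ (PreCoord.ps k κ).Van t (Pi.single i 1) := by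
  rw [PreCoord.van_single]
  constructor
  · rintro ⟨t', rfl⟩ j
    exact hyp_zero t' j
  · exact hyp_factor t i

instance hyp_mono (i : κ) : Mono (hypMap k i) := by
  refine ⟨fun {T} t t' h => ?_⟩
  refine (PreCoord.rep_comap t).ext ?_ ?_
  · have le : ∀ j, ((PreCoord.ps k {j // j ≠ i}).comap t).D j ≤ t' ⁻¹ᵁ psD j := by
      intro j
      change t ⁻¹ᵁ psD j ≤ t' ⁻¹ᵁ psD j
      rw [← hyp_pre_ne j.2, ← Scheme.Hom.comp_preimage, ← Scheme.Hom.comp_preimage, h]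
    refine ⟨le, fun j l => ?_⟩
    have e : t ⁻¹ᵁ psD j ≤ (t ≫ hypMap k i) ⁻¹ᵁ psD j.1 := by
      rw [Scheme.Hom.comp_preimage, hyp_pre_ne j.2]
    have e' : t ⁻¹ᵁ psD j ≤ (t' ≫ hypMap k i) ⁻¹ᵁ psD j.1 := by
      rw [← h]
      exact e
    have h1 := hyp_app_ne t (t ⁻¹ᵁ psD j) j.2 l.2 e le_rfl
    have h2 := hyp_app_ne t' (t ⁻¹ᵁ psD j) j.2 l.2 e' (le j)
    refine h2.symm.trans ?_
    have h3 : (t' ≫ hypMap k i).appLE (psD j.1) (t ⁻¹ᵁ psD j) e' (psf j.1 l.1) =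
        (t ≫ hypMap k i).appLE (psD j.1) (t ⁻¹ᵁ psD j) e (psf j.1 l.1) := by
      simp only [h]
    refine h3.trans (h1.trans ?_)
    exact appLE_self t (psD j) le_rfl (psf j l)
  · rw [← hypMap_str, ← Category.assoc, h, Category.assoc]

instance hyp_closed [Finite κ] (i : κ) : IsClosedImmersion (hypMap k i) := by
  rw [IsClosedImmersion.iff_isProper_and_mono]
  have : IsProper (hypMap k i ≫ psStr k κ) := by rw [hypMap_str]; infer_instance
  exact ⟨IsProper.of_comp _ (psStr k κ), hyp_mono i⟩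

end Pool.Agent.Lib.MP_4ca46c_ag.Hyp
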