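import Mathlib
import Pool.Agent.Lib.MP_4ca46c_ag.Hyp.HypMap
import Pool.Agent.Lib.MP_4ca46c_ag.Hyp.Chart
import Pool.Agent.Lib.MP_4ca46c_ag.Hyp.Affine

/-!
# Complements of coordinate hyperplanes; projective space is a variety
-/

namespace Pool.Agent.Lib.MP_4ca46c_ag.Hyp

open CategoryTheory Limits AlgebraicGeometry Opposite HomogeneousLocalization MvPolynomial
open Pool.Agent.Lib.MP_4ca46c_ag.Std

attribute [local instance] MvPolynomial.gradedAlgebra

variable {k : Type} [Field k] {κ : Type}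

instance ps_conn [Nonempty κ] : GeometricallyConnected (psStr k κ) := by
  refine ⟨fun K _ y Z p q pb => ?_⟩
  have := (ps_irr (k := k) (κ := κ)).geometrically_irreducibleSpace y p q pb
  infer_instance

/-- The hyperplane `x_i = 0` is the complement of `x_i ≠ 0`. -/
theorem range_hyp (i : κ) : Set.range (hypMap k i) = ((psD i : (PS k κ).Opens) : Set (PS k κ))ᶜ := by
  refine Set.Subset.antisymm ?_ fun x hx => ?_
  · rintro _ ⟨y, rfl⟩ hy
    have h1 : y ∈ hypMap k i ⁻¹ᵁ psD i := hy
    rw [hyp_pre_self] at h1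
    exact h1
  · set t := (PS k κ).fromSpecResidueField x with ht
    have hb : t ⁻¹ᵁ psD i = ⊥ := by
      rw [eq_bot_iff]
      intro y hy
      refine hx ?_
      have h1 : t y ∈ psD i := hy
      have h2 : t y = x := by
        have h3 : t y ∈ Set.range t := ⟨y, rfl⟩
        rw [ht, Scheme.range_fromSpecResidueField] at h3
        exact h3
      rw [h2] at h1
      exact h1
    obtain ⟨t', h'⟩ := hyp_factor t i fun j => by
      change t.app (psD j) (psf j i) = 0
      rw [← basicOpen_eq_bot_iff, ← Scheme.preimage_basicOpen, eq_bot_iff, ← hb]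
      exact pre_mono t (psBasicOpen_le j i)
    have h1 : x ∈ Set.range t := by
      rw [ht, Scheme.range_fromSpecResidueField]
      rfl
    obtain ⟨y, hy⟩ := h1
    refine ⟨t' y, ?_⟩
    rw [← Scheme.Hom.comp_apply, h', hy]

/-- The coordinate point `x_i = 1`, `x_j = 0` for `j ≠ i`. -/
theorem exists_point [DecidableEq κ] (i : κ) : ∃ e : Spec (CommRingCat.of k) ⟶ PS k κ,
    e ≫ psStr k κ = 𝟙 _ ∧ ∃ h : ⊤ ≤ e ⁻¹ᵁ psD i,
      ∀ j, e.appLE (psD i) ⊤ h (psf i j) = (Pi.single i 1 : κ → _) j :=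
  exists_vec (Pi.single i 1) (Pi.single_eq_same _ _) (𝟙 _)

variable {S PSS H : Scheme.{0}}

theorem bundle_of_iso {σ : Type} [Finite σ] {E U : Scheme.{0}} {f : E ⟶ U} (e : E ≅ 𝔸(σ; U))
    (he : e.hom ≫ (𝔸(σ; U) ↘ U) = f) : Sign.IsAffineBundle f := by
  intro x
  have h1 := (isPullback_morphismRestrict f ⊤).flip
  have h2 : IsPullback e.hom f (𝔸(σ; U) ↘ U) (𝟙 U) :=
    IsPullback.of_horiz_isIso ⟨by rw [he, Category.comp_id]⟩
  have h3 := h1.paste_horiz h2
  rw [Category.comp_id] at h3
  have h4 := AffineSpace.isPullback_map (n := σ) (⊤ : U.Opens).ι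
  have := Fintype.ofFinite σ
  refine ⟨⊤, Fintype.card σ, h3.isoIsPullback _ _ h4 ≪≫ reindexIso (Fintype.equivFin _) _,
    trivial, ?_⟩
  rw [Iso.trans_hom, Category.assoc]
  refine Eq.trans ?_ (h3.isoIsPullback_hom_snd _ _ h4)
  congr 1
  exact AffineSpace.reindex_over _ _

/-- The complement of a coordinate hyperplane in projective space over `S` is an affine
bundle over `S`. -/
theorem chart_bundle [Finite κ] {p : PSS ⟶ PS k κ} {q : PSS ⟶ S}
    {s : S ⟶ Spec (CommRingCat.of k)} (pb : IsPullback p q (psStr k κ) s) (i : κ) :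
    Sign.IsAffineBundle ((p ⁻¹ᵁ psD i).ι ≫ q) := by
  obtain ⟨e, he⟩ := chart_iso pb i
  exact bundle_of_iso e he

theorem range_of_isPullback {X Y Z P : Scheme.{0}} {a : P ⟶ X} {b : P ⟶ Y} {f : X ⟶ Z}
    {g : Y ⟶ Z} (pb : IsPullback a b f g) : Set.range a = f ⁻¹' Set.range g := by
  have h : a = pb.isoPullback.hom ≫ pullback.fst f g := by simp
  have h2 : Set.range a = Set.range (pullback.fst f g) := by
    conv_lhs => rw [h]
    exact Function.Surjective.range_comp pb.isoPullback.hom.surjective _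
  rw [h2, Scheme.Pullback.range_fst]

/-- The complement of a coordinate hyperplane. -/
theorem range_hyp_pullback {p : PSS ⟶ PS k κ} {i : κ} {u : H ⟶ PS k {j // j ≠ i}} {v : H ⟶ PSS}
    (pb : IsPullback v u p (hypMap k i)) :
    Set.range (p ⁻¹ᵁ psD i).ι = (Set.range v)ᶜ := by
  rw [range_of_isPullback pb, range_hyp, Scheme.Opens.range_ι, Set.preimage_compl, compl_compl]
  rfl

/-- Projective space is a variety. -/
theorem pso_var (k₀ k : Type) [Field k₀] [Field k] [Algebra k₀ k] (κ : Type) [Finite κ] (n : ℕ)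
    (h : Nat.card κ = n + 1) : Sign.IsVar (PSo.str k₀ k κ) n := by
  have : Nonempty κ := by
    by_contra hc
    rw [not_nonempty_iff] at hc
    rw [Nat.card_of_isEmpty] at h
    exact absurd h (by omega)
  exact ⟨ps_smooth n h, inferInstanceAs (IsProper (psStr k κ)),
    inferInstanceAs (GeometricallyConnected (psStr k κ))⟩

end Pool.Agent.Lib.MP_4ca46c_ag.Hyp
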