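import Mathlib
import Pool.Agent.Lib.MP_4ca46c_ag.Hyp.ProjCoord
import Pool.Agent.Lib.MP_4ca46c_ag.Hyp.Affine

/-!
# The universal hyperplane section: base change, and the projection to `Z`
-/

namespace Pool.Agent.Lib.MP_4ca46c_ag.Hyp

open CategoryTheory Limits AlgebraicGeometry Opposite

theorem PreCoord.comap_eqn {Z' Z T : Scheme.{0}} {κ : Type} [Fintype κ] (C : PreCoord Z κ)
    (i : Z' ⟶ Z) (z : T ⟶ Z') (a : κ → Γ(T, ⊤)) (j : κ) (W : T.Opens)
    (h : W ≤ z ⁻¹ᵁ (C.comap i).D j) (h' : W ≤ (z ≫ i) ⁻¹ᵁ C.D j) :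
    (C.comap i).eqn z a j W h = C.eqn (z ≫ i) a j W h' := by
  rw [PreCoord.eqn, PreCoord.eqn]
  refine Finset.sum_congr rfl fun l _ => ?_
  rw [C.comap_appLE i z j l W h h']

theorem PreCoord.comap_van {Z' Z T : Scheme.{0}} {κ : Type} [Fintype κ] (C : PreCoord Z κ)
    (i : Z' ⟶ Z) (z : T ⟶ Z') (a : κ → Γ(T, ⊤)) :
    (C.comap i).Van z a ↔ C.Van (z ≫ i) a := by
  refine forall_congr' fun j => ?_
  rw [C.comap_eqn i z a j (z ⁻¹ᵁ (C.comap i).D j) le_rfl le_rfl]
  rfl

namespace Coord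

section comap

variable {Z' S' Z S : Scheme.{0}} {s : Z ⟶ S} {κ : Type} (C : Coord s κ) [Fintype κ]
  (i : Z' ⟶ Z) (s' : Z' ⟶ S') (g : S' ⟶ S) (h : i ≫ s = s' ≫ g)
  (hm : ∀ (T : Scheme.{0}) (z z' : T ⟶ Z'), z ≫ i = z' ≫ i → z ≫ s' = z' ≫ s' → z = z')

/-- The morphism between the universal hyperplane sections. -/
noncomputable def mapI : (C.comap i s' g h hm).I ⟶ C.I :=
  C.lift ((C.comap i s' g h hm).toZ ≫ i) (C.comap i s' g h hm).vec
    ((C.comap_van i _ _).1 (C.comap i s' g h hm).van_self)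

theorem mapI_toZ : C.mapI i s' g h hm ≫ C.toZ = (C.comap i s' g h hm).toZ ≫ i :=
  C.lift_toZ _ _ _

theorem mapI_vec (j : κ) : (C.mapI i s' g h hm).appTop (C.vec j) =
    (C.comap i s' g h hm).vec j := C.lift_vec _ _ _ _

theorem mapI_inc : C.mapI i s' g h hm ≫ C.inc =
    (C.comap i s' g h hm).inc ≫ AffineSpace.map κ i := by
  refine AffineSpace.hom_ext ?_ fun j => ?_
  · rw [Category.assoc, Category.assoc, AffineSpace.map_over]
    exact C.mapI_toZ i s' g h hm
  · rw [Scheme.Hom.comp_appTop, Scheme.Hom.comp_appTop, CommRingCat.comp_apply,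
      CommRingCat.comp_apply, AffineSpace.map_appTop_coord]
    exact C.mapI_vec i s' g h hm j

theorem isPullback_toZ : IsPullback (C.mapI i s' g h hm) (C.comap i s' g h hm).toZ C.toZ i := by
  refine ⟨⟨C.mapI_toZ i s' g h hm⟩, ⟨PullbackCone.IsLimit.mk _ (fun c =>
    (C.comap i s' g h hm).lift c.snd (fun j => c.fst.appTop (C.vec j))
      ((C.comap_van i _ _).2 (by
        have h1 := C.van c.fst
        rw [c.condition] at h1
        exact h1))) ?_ ?_ ?_⟩⟩
  · intro c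
    refine C.hom_ext ?_ fun j => ?_
    · rw [Category.assoc, mapI_toZ, ← Category.assoc, lift_toZ, c.condition]
    · rw [Scheme.Hom.comp_appTop, CommRingCat.comp_apply, mapI_vec, lift_vec]
  · intro c
    exact lift_toZ _ _ _ _
  · intro c m h1 h2
    refine (C.comap i s' g h hm).hom_ext ?_ fun j => ?_
    · rw [lift_toZ, h2]
    · rw [lift_vec, ← h1, Scheme.Hom.comp_appTop, CommRingCat.comp_apply, mapI_vec]

theorem isPullback_inc : IsPullback (C.mapI i s' g h hm) (C.comap i s' g h hm).inc C.inc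
    (AffineSpace.map κ i) :=
  IsPullback.of_bot (C.isPullback_toZ i s' g h hm) (C.mapI_inc i s' g h hm)
    (AffineSpace.isPullback_map i)

end comap

end Coord

end Pool.Agent.Lib.MP_4ca46c_ag.Hyp
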