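import Mathlib
import Pool.Agent.Lib.MP_4ca46c_ag.Hyp.Square

/-!
# The universal hyperplane section is a vector bundle over `Z`
-/

namespace Pool.Agent.Lib.MP_4ca46c_ag.Hyp

open CategoryTheory Limits AlgebraicGeometry Opposite

namespace Coord

variable {Z S : Scheme.{0}} {s : Z ⟶ S} {κ : Type} (C : Coord s κ) [Fintype κ] [DecidableEq κ]

theorem toZ_iso {V : Scheme.{0}} (z : V ⟶ Z) {i : κ} (h : ⊤ ≤ z ⁻¹ᵁ C.D i)
    {W : Scheme.{0}} (f : W ⟶ V) (c : W ⟶ C.I) (pb : IsPullback c f C.toZ z) :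
    ∃ e : W ≅ 𝔸({l // l ≠ i}; V), e.hom ≫ (𝔸({l // l ≠ i}; V) ↘ V) = f := by
  have van₁ : ∀ {T : Scheme.{0}} (u : T ⟶ V) (a : κ → Γ(T, ⊤)), C.Van (u ≫ z) a ↔
      ∑ l, a l * u.appTop (C.val z i h l) = 0 := fun u a => by
    rw [C.van_iff_of_le (u ≫ z) a i (C.top_le_comp u h)]
    refine Eq.congr (Finset.sum_congr rfl fun l _ => ?_) rfl
    congr 1
    exact C.val_comp u z i h _ l
  have val_self : C.val z i h i = 1 := by rw [val, C.f_self, map_one]
  have split : ∀ {T : Scheme.{0}} (F : κ → Γ(T, ⊤)),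
      ∑ l, F l = F i + ∑ l : {l // l ≠ i}, F l.1 := fun F => by
    rw [← Finset.add_sum_erase _ _ (Finset.mem_univ i)]
    congr 1
    exact Finset.sum_subtype _ (fun l => by simp) F
  set π := 𝔸({l // l ≠ i}; V) ↘ V with hπ
  let b : κ → Γ(𝔸({l // l ≠ i}; V), ⊤) := fun l => if hl : l = i then
    -∑ m : {l // l ≠ i}, AffineSpace.coord V m * π.appTop (C.val z i h m.1)
    else AffineSpace.coord V ⟨l, hl⟩
  have bi : b i = -∑ m : {l // l ≠ i}, AffineSpace.coord V m * π.appTop (C.val z i h m.1) :=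
    dif_pos rfl
  have bl : ∀ m : {l // l ≠ i}, b m.1 = AffineSpace.coord V m := fun m => dif_neg m.2
  have hb : C.Van (π ≫ z) b := by
    rw [van₁ π b, split, bi, val_self, map_one, mul_one]
    simp only [bl]
    exact neg_add_cancel _
  let inv : 𝔸({l // l ≠ i}; V) ⟶ W := pb.lift (C.lift (π ≫ z) b hb) π (C.lift_toZ _ _ _)
  let a : κ → Γ(W, ⊤) := fun l => c.appTop (C.vec l)
  have ha : ∑ l, a l * f.appTop (C.val z i h l) = 0 := by
    rw [← van₁, ← pb.w]
    exact C.van c
  let hom : W ⟶ 𝔸({l // l ≠ i}; V) := AffineSpace.homOfVector f (fun k => a k.1)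
  have e3 : ∀ k, hom.appTop (AffineSpace.coord V k) = a k.1 := fun k =>
    AffineSpace.homOfVector_appTop_coord _ _ _
  have hom_b : ∀ l, hom.appTop (b l) = a l := by
    intro l
    by_cases hl : l = i
    · subst hl
      have e1 : ∀ x, hom.appTop (π.appTop x) = f.appTop x := fun x => by
        rw [← CommRingCat.comp_apply, ← Scheme.Hom.comp_appTop, AffineSpace.homOfVector_over]
      rw [bi, map_neg, map_sum]
      rw [split, val_self, map_one, mul_one] at ha
      rw [neg_eq_iff_add_eq_zero, add_comm]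
      refine Eq.trans ?_ ha
      congr 1
      refine Finset.sum_congr rfl fun m _ => ?_
      rw [map_mul, e1, e3]
    · have h1 := bl ⟨l, hl⟩
      change b l = _ at h1
      rw [h1, e3]
  refine ⟨⟨hom, inv, ?_, ?_⟩, AffineSpace.homOfVector_over _ _⟩
  · refine pb.hom_ext ?_ ?_
    · rw [Category.assoc, pb.lift_fst, Category.id_comp]
      refine C.hom_ext ?_ fun l => ?_
      · rw [Category.assoc, C.lift_toZ, ← Category.assoc, AffineSpace.homOfVector_over, pb.w]
      · rw [Scheme.Hom.comp_appTop, CommRingCat.comp_apply, C.lift_vec, hom_b]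
    · rw [Category.assoc, pb.lift_snd, AffineSpace.homOfVector_over, Category.id_comp]
  · refine AffineSpace.hom_ext ?_ fun k => ?_
    · rw [Category.assoc, AffineSpace.homOfVector_over, pb.lift_snd, Category.id_comp]
    · rw [Scheme.Hom.comp_appTop, CommRingCat.comp_apply, AffineSpace.homOfVector_appTop_coord]
      change inv.appTop (c.appTop (C.vec k.1)) = _
      rw [← CommRingCat.comp_apply, ← Scheme.Hom.comp_appTop, pb.lift_fst, C.lift_vec, bl]
      simp

/-- Over `D i` the universal hyperplane section is an affine space of dimension `|κ| - 1`. -/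
theorem toZ_local (i : κ) : ∃ e : (C.toZ ⁻¹ᵁ C.D i).toScheme ≅
    𝔸({l // l ≠ i}; (C.D i).toScheme),
    e.hom ≫ (𝔸({l // l ≠ i}; (C.D i).toScheme) ↘ (C.D i).toScheme) = C.toZ ∣_ C.D i :=
  C.toZ_iso (C.D i).ι (by simp) (C.toZ ∣_ C.D i) (C.toZ ⁻¹ᵁ C.D i).ι
    (isPullback_morphismRestrict C.toZ (C.D i)).flip

theorem toZ_bundle : Sign.IsAffineBundle C.toZ := by
  intro x
  obtain ⟨i, hi⟩ := TopologicalSpace.Opens.mem_iSup.1 (C.iSup_D.ge (Set.mem_univ x))
  obtain ⟨e, he⟩ := C.toZ_local i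
  refine ⟨C.D i, Fintype.card {l // l ≠ i}, e ≪≫ reindexIso (Fintype.equivFin _) _, hi, ?_⟩
  rw [Iso.trans_hom, Category.assoc, ← he]
  congr 1
  exact AffineSpace.reindex_over _ _

/-- `C.toZ` has every property which is local on the target and which the projections of affine
spaces of dimension `|κ| - 1` have. -/
theorem toZ_prop (P : MorphismProperty Scheme.{0}) [IsZariskiLocalAtTarget P]
    (hP : ∀ (i : κ) (T : Scheme.{0}), P (𝔸({l // l ≠ i}; T) ↘ T)) : P C.toZ := by
  refine IsZariskiLocalAtTarget.of_iSup_eq_top C.D C.iSup_D fun i => ?_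
  obtain ⟨e, he⟩ := C.toZ_local i
  rw [← he, MorphismProperty.cancel_left_of_respectsIso P]
  exact hP _ _

end Coord

end Pool.Agent.Lib.MP_4ca46c_ag.Hyp
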