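import Mathlib
import Pool.Agent.Lib.MP_4ca46c_ag.Hyp.Family

/-!
# The coefficients of the universal hyperplane section
-/

namespace Pool.Agent.Lib.MP_4ca46c_ag.Hyp

open CategoryTheory Limits AlgebraicGeometry Opposite

namespace Coord

variable {k : Type} [Field k] {κ : Type} [Fintype κ] {Z : Scheme.{0}}
  {s : Z ⟶ Spec (CommRingCat.of k)} (C : Coord s κ)

/-- The coefficients of the equation, as a morphism to the affine space `Spec k[a_j]`. -/
noncomputable def toA : C.I ⟶ Spec (CommRingCat.of (MvPolynomial κ k)) :=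
  C.inc ≫ AffineSpace.map κ s ≫ (AffineSpace.SpecIso κ (CommRingCat.of k)).hom

theorem toA_str : C.toA ≫ Spec.map (CommRingCat.ofHom (algebraMap k (MvPolynomial κ k))) =
    C.toZ ≫ s := by
  have h : Spec.map (CommRingCat.ofHom (algebraMap k (MvPolynomial κ k))) =
      (AffineSpace.SpecIso κ (CommRingCat.of k)).inv ≫
        (𝔸(κ; Spec (CommRingCat.of k)) ↘ Spec (CommRingCat.of k)) :=
    (AffineSpace.SpecIso_inv_over (n := κ) (CommRingCat.of k)).symm
  rw [h, toA, Category.assoc, Category.assoc, Iso.hom_inv_id_assoc, AffineSpace.map_over,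
    toZ, Category.assoc]

theorem toA_iff {T : Scheme.{0}} (t t' : T ⟶ C.I) : t ≫ C.toA = t' ≫ C.toA ↔
    (t ≫ C.toZ ≫ s = t' ≫ C.toZ ≫ s ∧ ∀ j, t.appTop (C.vec j) = t'.appTop (C.vec j)) := by
  have e : ∀ (t : T ⟶ C.I) j, (t ≫ C.inc ≫ AffineSpace.map κ s).appTop
      (AffineSpace.coord _ j) = t.appTop (C.vec j) := fun t j => by
    rw [Scheme.Hom.comp_appTop, CommRingCat.comp_apply, Scheme.Hom.comp_appTop,
      CommRingCat.comp_apply, AffineSpace.map_appTop_coord]
    rfl
  constructor
  · intro h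
    refine ⟨?_, fun j => ?_⟩
    · rw [← toA_str, ← Category.assoc, h, Category.assoc]
    · have h1 : t ≫ C.inc ≫ AffineSpace.map κ s = t' ≫ C.inc ≫ AffineSpace.map κ s := by
        rw [← cancel_mono (AffineSpace.SpecIso κ (CommRingCat.of k)).hom]
        simpa only [toA, Category.assoc] using h
      rw [← e, ← e, h1]
  · rintro ⟨h, h'⟩
    have h1 : t ≫ C.inc ≫ AffineSpace.map κ s = t' ≫ C.inc ≫ AffineSpace.map κ s := by
      refine AffineSpace.hom_ext ?_ fun j => ?_
      · simpa [toZ] using h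
      · rw [e, e, h']
    have h2 := congrArg (fun φ => φ ≫ (AffineSpace.SpecIso κ (CommRingCat.of k)).hom) h1
    simpa only [toA, Category.assoc] using h2

theorem toA_ext {T : Scheme.{0}} {t t' : T ⟶ C.I} (h : t ≫ C.toZ = t' ≫ C.toZ)
    (h' : t ≫ C.toA = t' ≫ C.toA) : t = t' :=
  C.hom_ext h ((C.toA_iff t t').1 h').2

instance map_proper [IsProper s] : IsProper (AffineSpace.map κ s) :=
  MorphismProperty.of_isPullback (P := @IsProper) (AffineSpace.isPullback_map s).flip inferInstance

instance toA_proper [IsProper s] : IsProper C.toA := by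
  have := map_proper (κ := κ) (s := s)
  rw [toA]
  infer_instance

end Coord

end Pool.Agent.Lib.MP_4ca46c_ag.Hyp
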