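import Mathlib
import Pool.Agent.Lib.MP_4ca46c_ag.Hyp.ProjCoord

/-!
# Homogeneous coordinates on products (Segre embedding)
-/

namespace Pool.Agent.Lib.MP_4ca46c_ag.Hyp

open CategoryTheory Limits AlgebraicGeometry Opposite

variable {κ₁ κ₂ : Type} {Z : Scheme.{0}}

namespace PreCoord

/-- The function `x_l / x_i` on an open subset of `D i`. -/
noncomputable def r {κ : Type} (C : PreCoord Z κ) (i l : κ) (W : Z.Opens) (h : W ≤ C.D i) :
    Γ(Z, W) := Z.presheaf.map (homOfLE h).op (C.f i l)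

theorem r_self {κ : Type} (C : PreCoord Z κ) (i : κ) (W : Z.Opens) (h : W ≤ C.D i) :
    C.r i i W h = 1 := by
  rw [r, C.f_self, map_one]

theorem r_res {κ : Type} (C : PreCoord Z κ) (i l : κ) {W W' : Z.Opens} (h : W ≤ C.D i)
    (h' : W' ≤ W) : Z.presheaf.map (homOfLE h').op (C.r i l W h) = C.r i l W' (h'.trans h) := by
  rw [r, r, ← CommRingCat.comp_apply, ← Functor.map_comp]
  rfl

theorem r_mul {κ : Type} (C : PreCoord Z κ) (i j l : κ) (W : Z.Opens) (hi : W ≤ C.D i)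
    (hj : W ≤ C.D j) : C.r i l W hi = C.r i j W hi * C.r j l W hj := by
  have h := congrArg (Z.presheaf.map (homOfLE (le_inf hi hj)).op) (C.f_mul i j l)
  rw [map_mul, ← CommRingCat.comp_apply, ← CommRingCat.comp_apply, ← CommRingCat.comp_apply,
    ← Functor.map_comp, ← Functor.map_comp] at h
  exact h

theorem basicOpen_r_le {κ : Type} (C : PreCoord Z κ) (i l : κ) (W : Z.Opens) (h : W ≤ C.D i) :
    Z.basicOpen (C.r i l W h) ≤ C.D l := by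
  rw [r, Scheme.basicOpen_res]
  exact inf_le_right.trans (C.basicOpen_le i l)

/-- The Segre product. -/
noncomputable def segre (C₁ : PreCoord Z κ₁) (C₂ : PreCoord Z κ₂) : PreCoord Z (κ₁ × κ₂) where
  D a := C₁.D a.1 ⊓ C₂.D a.2
  f a b := C₁.r a.1 b.1 _ inf_le_left * C₂.r a.2 b.2 _ inf_le_right
  iSup_D := by
    rw [eq_top_iff]
    intro x _
    obtain ⟨i, hi⟩ := TopologicalSpace.Opens.mem_iSup.1 (C₁.iSup_D.ge (Set.mem_univ x))
    obtain ⟨j, hj⟩ := TopologicalSpace.Opens.mem_iSup.1 (C₂.iSup_D.ge (Set.mem_univ x))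
    exact TopologicalSpace.Opens.mem_iSup.2 ⟨(i, j), hi, hj⟩
  f_self a := by rw [r_self, r_self, one_mul]
  f_mul a b c := by
    rw [map_mul, map_mul, map_mul, r_res, r_res, r_res, r_res, r_res, r_res,
      C₁.r_mul a.1 b.1 c.1 _ (inf_le_left.trans inf_le_left) (inf_le_right.trans inf_le_left),
      C₂.r_mul a.2 b.2 c.2 _ (inf_le_left.trans inf_le_right) (inf_le_right.trans inf_le_right)]
    ring
  basicOpen_le a b := by
    rw [Scheme.basicOpen_mul]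
    exact inf_le_inf (C₁.basicOpen_r_le _ _ _ _) (C₂.basicOpen_r_le _ _ _ _)

theorem r_appLE {κ : Type} (C : PreCoord Z κ) {T : Scheme.{0}} (z : T ⟶ Z) (i l : κ)
    (V : Z.Opens) (W : T.Opens) (h : V ≤ C.D i) (h' : W ≤ z ⁻¹ᵁ V) :
    z.appLE V W h' (C.r i l V h) = z.appLE (C.D i) W (h'.trans (pre_mono z h)) (C.f i l) := by
  rw [r, ← CommRingCat.comp_apply, Scheme.Hom.map_appLE]

theorem segre_appLE (C₁ : PreCoord Z κ₁) (C₂ : PreCoord Z κ₂) {T : Scheme.{0}} (z : T ⟶ Z)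
    (a b : κ₁ × κ₂) (W : T.Opens) (h : W ≤ z ⁻¹ᵁ (C₁.segre C₂).D a) (h₁ : W ≤ z ⁻¹ᵁ C₁.D a.1)
    (h₂ : W ≤ z ⁻¹ᵁ C₂.D a.2) : z.appLE ((C₁.segre C₂).D a) W h ((C₁.segre C₂).f a b) =
      z.appLE (C₁.D a.1) W h₁ (C₁.f a.1 b.1) * z.appLE (C₂.D a.2) W h₂ (C₂.f a.2 b.2) := by
  have h1 := r_appLE C₁ z a.1 b.1 (C₁.D a.1 ⊓ C₂.D a.2) W inf_le_left h
  have h2 := r_appLE C₂ z a.2 b.2 (C₁.D a.1 ⊓ C₂.D a.2) W inf_le_right h
  exact (map_mul _ _ _).trans (congrArg₂ (· * ·) h1 h2)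

end PreCoord

theorem affine_inf (U V : Z.Opens) [IsAffineHom U.ι] [IsAffineHom V.ι] :
    IsAffineHom (U ⊓ V).ι := by
  have h := isPullback_opens_inf U V
  have h1 : IsAffineHom (Z.homOfLE (inf_le_left : U ⊓ V ≤ U)) :=
    MorphismProperty.of_isPullback (P := @IsAffineHom) h.flip inferInstance
  have h2 : (U ⊓ V).ι = Z.homOfLE (inf_le_left : U ⊓ V ≤ U) ≫ U.ι := by simp
  rw [h2]
  infer_instance

/-- The coordinates of a product. -/
noncomputable def Coord.prod {X₁ X₂ S : Scheme.{0}} {s₁ : X₁ ⟶ S} {s₂ : X₂ ⟶ S}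
    (C₁ : Coord s₁ κ₁) (C₂ : Coord s₂ κ₂) {p₁ : Z ⟶ X₁} {p₂ : Z ⟶ X₂}
    (pb : IsPullback p₁ p₂ s₁ s₂) : Coord (p₁ ≫ s₁) (κ₁ × κ₂) where
  toPreCoord := (C₁.toPreCoord.comap p₁).segre (C₂.toPreCoord.comap p₂)
  affine a := by
    have h1 : IsAffineHom (p₁ ⁻¹ᵁ C₁.D a.1).ι := by
      have := C₁.affine a.1
      exact MorphismProperty.of_isPullback (isPullback_morphismRestrict p₁ (C₁.D a.1)) this
    have h2 : IsAffineHom (p₂ ⁻¹ᵁ C₂.D a.2).ι := by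
      have := C₂.affine a.2
      exact MorphismProperty.of_isPullback (isPullback_morphismRestrict p₂ (C₂.D a.2)) this
    exact affine_inf (p₁ ⁻¹ᵁ C₁.D a.1) (p₂ ⁻¹ᵁ C₂.D a.2)
  sep a T z z' h h' hs H := by
    have h₁ : ⊤ ≤ z ⁻¹ᵁ (C₁.toPreCoord.comap p₁).D a.1 := h.trans (pre_mono z inf_le_left)
    have h₂ : ⊤ ≤ z ⁻¹ᵁ (C₂.toPreCoord.comap p₂).D a.2 := h.trans (pre_mono z inf_le_right)
    have h₁' : ⊤ ≤ z' ⁻¹ᵁ (C₁.toPreCoord.comap p₁).D a.1 := h'.trans (pre_mono z' inf_le_left)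
    have h₂' : ⊤ ≤ z' ⁻¹ᵁ (C₂.toPreCoord.comap p₂).D a.2 := h'.trans (pre_mono z' inf_le_right)
    refine pb.hom_ext ?_ ?_
    · refine C₁.sep a.1 T (z ≫ p₁) (z' ≫ p₁) h₁ h₁' (by simpa using hs) fun l => ?_
      have h1 := H (l, a.2)
      rw [PreCoord.segre_appLE _ _ z a _ ⊤ h h₁ h₂, PreCoord.segre_appLE _ _ z' a _ ⊤ h' h₁' h₂',
        (C₂.toPreCoord.comap p₂).f_self, map_one, map_one, mul_one, mul_one,
        C₁.toPreCoord.comap_appLE p₁ z a.1 l ⊤ h₁ h₁,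
        C₁.toPreCoord.comap_appLE p₁ z' a.1 l ⊤ h₁' h₁'] at h1
      exact h1
    · have hs' : (z ≫ p₂) ≫ s₂ = (z' ≫ p₂) ≫ s₂ := by
        rw [Category.assoc, Category.assoc, ← pb.w, hs]
      refine C₂.sep a.2 T (z ≫ p₂) (z' ≫ p₂) h₂ h₂' hs' fun l => ?_
      have h1 := H (a.1, l)
      rw [PreCoord.segre_appLE _ _ z a _ ⊤ h h₁ h₂, PreCoord.segre_appLE _ _ z' a _ ⊤ h' h₁' h₂',
        (C₁.toPreCoord.comap p₁).f_self, map_one, map_one, one_mul, one_mul,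
        C₂.toPreCoord.comap_appLE p₂ z a.2 l ⊤ h₂ h₂,
        C₂.toPreCoord.comap_appLE p₂ z' a.2 l ⊤ h₂' h₂'] at h1
      exact h1

end Pool.Agent.Lib.MP_4ca46c_ag.Hyp
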