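import Mathlib
import Pool.Agent.Lib.MP_4ca46c_ag.Hyp.Prod
import Pool.Agent.Lib.MP_4ca46c_ag.Hyp.HypMap

/-!
# The Segre embedding and coordinate hyperplanes
-/

namespace Pool.Agent.Lib.MP_4ca46c_ag.Hyp

open CategoryTheory Limits AlgebraicGeometry Opposite HomogeneousLocalization MvPolynomial
open Pool.Agent.Lib.MP_4ca46c_ag.Std

attribute [local instance] MvPolynomial.gradedAlgebra

variable {k : Type} [Field k] {κ κ' : Type} {T : Scheme.{0}}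

theorem PreCoord.comap_segre_f {U Z : Scheme.{0}} (C₁ : PreCoord Z κ) (C₂ : PreCoord Z κ')
    (t : U ⟶ Z) (a b : κ × κ') : ((C₁.segre C₂).comap t).f a b =
      (((C₁.comap t).segre (C₂.comap t)).f a b :) := by
  have h1 := map_app t (V := C₁.D a.1 ⊓ C₂.D a.2) inf_le_left (C₁.f a.1 b.1)
  have h2 := map_app t (V := C₁.D a.1 ⊓ C₂.D a.2) inf_le_right (C₂.f a.2 b.2)
  exact (map_mul _ _ _).trans (congrArg₂ (· * ·) h1.symm h2.symm)

/-- The composition of a pair of morphisms to projective spaces with the Segre embedding. -/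
noncomputable def segre (F : T ⟶ PS k κ) (G : T ⟶ PS k κ') : T ⟶ PS k (κ × κ') :=
  (((PreCoord.ps k κ).comap F).segre ((PreCoord.ps k κ').comap G)).toPS (F ≫ psStr k κ)

theorem segre_rep (F : T ⟶ PS k κ) (G : T ⟶ PS k κ') :
    (((PreCoord.ps k κ).comap F).segre ((PreCoord.ps k κ').comap G)).Rep (segre F G) :=
  PreCoord.rep_toPS _ _

theorem segre_str (F : T ⟶ PS k κ) (G : T ⟶ PS k κ') :
    segre F G ≫ psStr k (κ × κ') = F ≫ psStr k κ := PreCoord.toPS_str _ _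

theorem segre_pre (F : T ⟶ PS k κ) (G : T ⟶ PS k κ') (a : κ × κ') :
    segre F G ⁻¹ᵁ psD a = F ⁻¹ᵁ psD a.1 ⊓ G ⁻¹ᵁ psD a.2 := (segre_rep F G).D_eq a

theorem segre_app {U : Scheme.{0}} (F : T ⟶ PS k κ) (G : T ⟶ PS k κ') (t : U ⟶ T)
    (a b : κ × κ') (W : U.Opens) (h : W ≤ (t ≫ segre F G) ⁻¹ᵁ psD a)
    (h₁ : W ≤ (t ≫ F) ⁻¹ᵁ psD a.1) (h₂ : W ≤ (t ≫ G) ⁻¹ᵁ psD a.2) :
    (t ≫ segre F G).appLE (psD a) W h (psf a b) =
      (t ≫ F).appLE (psD a.1) W h₁ (psf a.1 b.1) * (t ≫ G).appLE (psD a.2) W h₂ (psf a.2 b.2) := by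
  have hi : W ≤ t ⁻¹ᵁ (((PreCoord.ps k κ).comap F).segre ((PreCoord.ps k κ').comap G)).D a :=
    le_inf h₁ h₂
  rw [(segre_rep F G).res t W a b hi h, PreCoord.segre_appLE _ _ t a b W hi h₁ h₂,
    PreCoord.comap_appLE (PreCoord.ps k κ) F t a.1 b.1 W h₁ h₁,
    PreCoord.comap_appLE (PreCoord.ps k κ') G t a.2 b.2 W h₂ h₂]
  rfl

theorem comp_segre {U : Scheme.{0}} (F : T ⟶ PS k κ) (G : T ⟶ PS k κ') (t : U ⟶ T) :
    t ≫ segre F G = segre (t ≫ F) (t ≫ G) := by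
  refine (((segre_rep F G).comp t).ext ?_ ?_)
  · have h := segre_rep (t ≫ F) (t ≫ G)
    refine ⟨h.le, fun a b => ?_⟩
    refine (h.eq a b).trans (Eq.trans ?_ (PreCoord.comap_segre_f ((PreCoord.ps k κ).comap F)
      ((PreCoord.ps k κ').comap G) t a b).symm)
    rfl
  · rw [Category.assoc, segre_str, segre_str, Category.assoc]

theorem appLE_congr {X Y : Scheme.{0}} {f g : X ⟶ Y} (e : f = g) (V : Y.Opens) (W : X.Opens)
    (h : W ≤ f ⁻¹ᵁ V) (h' : W ≤ g ⁻¹ᵁ V) (a : Γ(Y, V)) : f.appLE V W h a = g.appLE V W h' a := by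
  subst e
  rfl

/-- The pull-back of the hyperplane `x_i y_b = 0` when `x_i` has no zero. -/
theorem segre_hyp {U : Scheme.{0}} (F : T ⟶ PS k κ) (G : T ⟶ PS k κ') {i : κ}
    (hF : ⊤ ≤ F ⁻¹ᵁ psD i) (b : κ') (t : U ⟶ T) :
    (∃ t', t' ≫ hypMap k (i, b) = t ≫ segre F G) ↔ ∃ t', t' ≫ hypMap k b = t ≫ G := by
  constructor
  · rintro ⟨t', ht⟩
    refine hyp_factor _ _ fun j => ?_
    set W : U.Opens := (t ≫ G) ⁻¹ᵁ psD j with hW
    have h₁ : W ≤ (t ≫ F) ⁻¹ᵁ psD i := le_trans le_top (pre_mono t hF)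
    have h : W ≤ (t ≫ segre F G) ⁻¹ᵁ psD (i, j) := by
      rw [Scheme.Hom.comp_preimage, segre_pre]
      exact le_inf h₁ le_rfl
    have h' : W ≤ (t' ≫ hypMap k (i, b)) ⁻¹ᵁ psD (i, j) := by rw [ht]; exact h
    have h1 := hyp_app_self t' W (i, j) h'
    rw [appLE_congr ht _ W h' h, segre_app F G t (i, j) (i, b) W h h₁ le_rfl, psf_self, map_one,
      one_mul] at h1
    exact (appLE_self (t ≫ G) (psD j) le_rfl (psf j b)).symm.trans h1
  · rintro ⟨t', ht⟩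
    refine hyp_factor _ _ fun a => ?_
    set W : U.Opens := (t ≫ segre F G) ⁻¹ᵁ psD a with hW
    have hW' : W = (t ≫ F) ⁻¹ᵁ psD a.1 ⊓ (t ≫ G) ⁻¹ᵁ psD a.2 := by
      rw [hW, Scheme.Hom.comp_preimage, segre_pre]
      rfl
    have h₁ : W ≤ (t ≫ F) ⁻¹ᵁ psD a.1 := hW'.le.trans inf_le_left
    have h₂ : W ≤ (t ≫ G) ⁻¹ᵁ psD a.2 := hW'.le.trans inf_le_right
    have h₂' : W ≤ (t' ≫ hypMap k b) ⁻¹ᵁ psD a.2 := by rw [ht]; exact h₂
    have h1 := hyp_app_self t' W a.2 h₂'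
    rw [appLE_congr ht _ W h₂' h₂] at h1
    refine (appLE_self (t ≫ segre F G) (psD a) le_rfl (psf a (i, b))).symm.trans ?_
    rw [segre_app F G t a (i, b) W le_rfl h₁ h₂, h1, mul_zero]
    rfl

/-- The pull-back of the hyperplane `x_a y_j = 0` when `y_j` has no zero. -/
theorem segre_hyp' {U : Scheme.{0}} (F : T ⟶ PS k κ) (G : T ⟶ PS k κ') {j : κ'}
    (hG : ⊤ ≤ G ⁻¹ᵁ psD j) (b : κ) (t : U ⟶ T) :
    (∃ t', t' ≫ hypMap k (b, j) = t ≫ segre F G) ↔ ∃ t', t' ≫ hypMap k b = t ≫ F := by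
  constructor
  · rintro ⟨t', ht⟩
    refine hyp_factor _ _ fun i => ?_
    set W : U.Opens := (t ≫ F) ⁻¹ᵁ psD i with hW
    have h₂ : W ≤ (t ≫ G) ⁻¹ᵁ psD j := le_trans le_top (pre_mono t hG)
    have h : W ≤ (t ≫ segre F G) ⁻¹ᵁ psD (i, j) := by
      rw [Scheme.Hom.comp_preimage, segre_pre]
      exact le_inf le_rfl h₂
    have h' : W ≤ (t' ≫ hypMap k (b, j)) ⁻¹ᵁ psD (i, j) := by rw [ht]; exact h
    have h1 := hyp_app_self t' W (i, j) h'
    rw [appLE_congr ht _ W h' h, segre_app F G t (i, j) (b, j) W h le_rfl h₂, psf_self, map_one,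
      mul_one] at h1
    exact (appLE_self (t ≫ F) (psD i) le_rfl (psf i b)).symm.trans h1
  · rintro ⟨t', ht⟩
    refine hyp_factor _ _ fun a => ?_
    set W : U.Opens := (t ≫ segre F G) ⁻¹ᵁ psD a with hW
    have hW' : W = (t ≫ F) ⁻¹ᵁ psD a.1 ⊓ (t ≫ G) ⁻¹ᵁ psD a.2 := by
      rw [hW, Scheme.Hom.comp_preimage, segre_pre]
      rfl
    have h₁ : W ≤ (t ≫ F) ⁻¹ᵁ psD a.1 := hW'.le.trans inf_le_left
    have h₂ : W ≤ (t ≫ G) ⁻¹ᵁ psD a.2 := hW'.le.trans inf_le_right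
    have h₁' : W ≤ (t' ≫ hypMap k b) ⁻¹ᵁ psD a.1 := by rw [ht]; exact h₁
    have h1 := hyp_app_self t' W a.1 h₁'
    rw [appLE_congr ht _ W h₁' h₁] at h1
    refine (appLE_self (t ≫ segre F G) (psD a) le_rfl (psf a (b, j))).symm.trans ?_
    rw [segre_app F G t a (b, j) W le_rfl h₁ h₂, h1, zero_mul]
    rfl

/-- A cartesian square from the universal property of monomorphisms. -/
theorem isPullback_of_factor {A B T T' : Scheme.{0}} (m : A ⟶ B) [Mono m] (F : T ⟶ B)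
    (v : T' ⟶ T) [Mono v]
    (h : ∀ (U : Scheme.{0}) (t : U ⟶ T), (∃ t', t' ≫ m = t ≫ F) ↔ ∃ t', t' ≫ v = t) :
    ∃ u, IsPullback u v m F := by
  obtain ⟨u, hu⟩ := (h T' v).2 ⟨𝟙 _, Category.id_comp _⟩
  have key : ∀ s : PullbackCone m F, ∃ l, l ≫ v = s.snd := fun s =>
    (h _ s.snd).1 ⟨s.fst, s.condition⟩
  refine ⟨u, ⟨⟨hu⟩, ⟨PullbackCone.IsLimit.mk _ (fun s => (key s).choose) (fun s => ?_)
    (fun s => (key s).choose_spec) (fun s l h1 h2 => ?_)⟩⟩⟩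
  · rw [← cancel_mono m, Category.assoc, hu, ← Category.assoc, (key s).choose_spec, s.condition]
  · rw [← cancel_mono v, (key s).choose_spec, h2]

theorem factor_iff {A B T T' U : Scheme.{0}} {m : A ⟶ B} {F : T ⟶ B} {u : T' ⟶ A} {v : T' ⟶ T}
    (pb : IsPullback u v m F) (t : U ⟶ T) : (∃ t', t' ≫ v = t) ↔ ∃ t', t' ≫ m = t ≫ F := by
  constructor
  · rintro ⟨t', rfl⟩
    exact ⟨t' ≫ u, by rw [Category.assoc, Category.assoc, pb.w]⟩
  · rintro ⟨t', h⟩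
    exact ⟨pb.lift t' t h, pb.lift_snd _ _ _⟩

/-- The pull-back of the hyperplane `x_i y_b = 0` when `x_i` has no zero. -/
theorem segre_isPullback (F : T ⟶ PS k κ) (G : T ⟶ PS k κ') {i : κ}
    (hF : ⊤ ≤ F ⁻¹ᵁ psD i) (b : κ') {T' : Scheme.{0}} {u : T' ⟶ PS k {j // j ≠ b}} {v : T' ⟶ T}
    (pb : IsPullback u v (hypMap k b) G) :
    ∃ u', IsPullback u' v (hypMap k (i, b)) (segre F G) := by
  have : Mono v := ⟨fun {U} g h e => pb.hom_ext
    (by rw [← cancel_mono (hypMap k b), Category.assoc, Category.assoc, pb.w, ← Category.assoc, e,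
      Category.assoc]) e⟩
  refine isPullback_of_factor _ _ _ fun U t => ?_
  rw [segre_hyp F G hF b t, factor_iff pb t]

/-- The pull-back of the hyperplane `x_a y_j = 0` when `y_j` has no zero. -/
theorem segre_isPullback' (F : T ⟶ PS k κ) (G : T ⟶ PS k κ') {j : κ'}
    (hG : ⊤ ≤ G ⁻¹ᵁ psD j) (b : κ) {T' : Scheme.{0}} {u : T' ⟶ PS k {j // j ≠ b}} {v : T' ⟶ T}
    (pb : IsPullback u v (hypMap k b) F) :
    ∃ u', IsPullback u' v (hypMap k (b, j)) (segre F G) := by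
  have : Mono v := ⟨fun {U} g h e => pb.hom_ext
    (by rw [← cancel_mono (hypMap k b), Category.assoc, Category.assoc, pb.w, ← Category.assoc, e,
      Category.assoc]) e⟩
  refine isPullback_of_factor _ _ _ fun U t => ?_
  rw [segre_hyp' F G hG b t, factor_iff pb t]

end Pool.Agent.Lib.MP_4ca46c_ag.Hyp
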