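import Mathlib

/-!
# Morphisms to affine schemes
-/

namespace Pool.Agent.Lib.MP_4ca46c_ag.Hyp

open CategoryTheory Limits AlgebraicGeometry Opposite

section spec

variable {T T' : Scheme.{0}} {R S : Type} [CommRing R] [CommRing S]

/-- The ring homomorphism of a morphism to an affine scheme. -/
noncomputable def val (t : T ⟶ Spec (CommRingCat.of R)) : R →+* Γ(T, ⊤) :=
  ((Scheme.ΓSpecIso (CommRingCat.of R)).inv ≫ t.appTop).hom

theorem val_ext {t t' : T ⟶ Spec (CommRingCat.of R)} (h : val t = val t') : t = t' := by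
  refine ext_of_isAffine ?_
  rw [← cancel_epi (Scheme.ΓSpecIso (CommRingCat.of R)).inv]
  ext r
  exact DFunLike.congr_fun h r

theorem val_comp (u : T' ⟶ T) (t : T ⟶ Spec (CommRingCat.of R)) :
    val (u ≫ t) = u.appTop.hom.comp (val t) := by
  ext r
  change (u ≫ t).appTop ((Scheme.ΓSpecIso (CommRingCat.of R)).inv r) =
    u.appTop (t.appTop ((Scheme.ΓSpecIso (CommRingCat.of R)).inv r))
  rw [Scheme.Hom.comp_appTop]
  rfl

theorem val_map (t : T ⟶ Spec (CommRingCat.of R)) (f : S →+* R) :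
    val (t ≫ Spec.map (CommRingCat.ofHom f)) = (val t).comp f := by
  ext r
  change (t ≫ Spec.map (CommRingCat.ofHom f)).appTop
    ((Scheme.ΓSpecIso (CommRingCat.of S)).inv r) =
      t.appTop ((Scheme.ΓSpecIso (CommRingCat.of R)).inv (f r))
  rw [Scheme.Hom.comp_appTop]
  have h := Scheme.ΓSpecIso_inv_naturality (CommRingCat.ofHom f)
  have h2 := congrArg (fun φ => t.appTop (φ.hom r)) h
  exact h2.symm

/-- The morphism to an affine scheme given by a ring homomorphism. -/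
noncomputable def ofVal (φ : R →+* Γ(T, ⊤)) : T ⟶ Spec (CommRingCat.of R) :=
  T.toSpecΓ ≫ Spec.map (CommRingCat.ofHom φ)

theorem val_ofVal (φ : R →+* Γ(T, ⊤)) : val (ofVal φ) = φ := by
  rw [ofVal, val_map]
  ext r
  change T.toSpecΓ.appTop ((Scheme.ΓSpecIso Γ(T, ⊤)).inv (φ r)) = φ r
  have h : (Scheme.ΓSpecIso Γ(T, ⊤)).inv ≫ T.toSpecΓ.appTop = 𝟙 _ := by
    rw [Scheme.toSpecΓ_appTop, Iso.inv_hom_id]
  exact congrArg (fun ψ => ψ.hom (φ r)) h

end spec

end Pool.Agent.Lib.MP_4ca46c_ag.Hyp
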