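import Mathlib
import Pool.Agent.Lib.MP_4ca46c_ag.Hyp.Prod
import Pool.Agent.Lib.MP_4ca46c_ag.Hyp.Chart
import Pool.Agent.Lib.MP_4ca46c_ag.Hyp.Segre
import Pool.Agent.Lib.MP_4ca46c_ag.Hyp.Val

/-!
# The Fermat hypersurface
-/

namespace Pool.Agent.Lib.MP_4ca46c_ag.Hyp

open CategoryTheory Limits AlgebraicGeometry Opposite HomogeneousLocalization MvPolynomial

attribute [local instance] MvPolynomial.gradedAlgebra

variable {κ : Type} [Fintype κ] {Z T : Scheme.{0}} (d : ℕ)

namespace PreCoord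

variable (C : PreCoord Z κ)

/-- The function `∑ (x_j / x_i) ^ d`. -/
noncomputable def fe (i : κ) (W : Z.Opens) (h : W ≤ C.D i) : Γ(Z, W) := ∑ j, C.r i j W h ^ d

theorem fe_res (i : κ) {W W' : Z.Opens} (h : W ≤ C.D i) (h' : W' ≤ W) :
    Z.presheaf.map (homOfLE h').op (C.fe d i W h) = C.fe d i W' (h'.trans h) := by
  rw [fe, fe, map_sum]
  exact Finset.sum_congr rfl fun j _ => by rw [map_pow, C.r_res i j h h']

theorem fe_mul (i j : κ) (W : Z.Opens) (hi : W ≤ C.D i) (hj : W ≤ C.D j) :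
    C.fe d j W hj = C.r j i W hj ^ d * C.fe d i W hi := by
  rw [fe, fe, Finset.mul_sum]
  exact Finset.sum_congr rfl fun l _ => by rw [C.r_mul j i l W hj hi, mul_pow]

/-- The equations of the Fermat hypersurface. -/
noncomputable def ferm (i : κ) : Γ(Z, C.D i) := C.fe d i (C.D i) le_rfl

/-- The coordinates satisfy `∑ x_j ^ d = 0`. -/
def FVan : Prop := ∀ i, C.ferm d i = 0

theorem fvan_iff (i : κ) (h : C.D i = ⊤) : C.FVan d ↔ C.ferm d i = 0 := by
  refine ⟨fun H => H i, fun H j => ?_⟩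
  have hj : C.D j ≤ C.D i := by rw [h]; exact le_top
  rw [ferm, C.fe_mul d i j (C.D j) hj le_rfl]
  rw [← C.fe_res d i le_rfl hj]
  change _ * Z.presheaf.map _ (C.ferm d i) = 0
  rw [H, map_zero, mul_zero]

theorem comap_fe (t : T ⟶ Z) (i : κ) (W : Z.Opens) (h : W ≤ C.D i) :
    t.app W (C.fe d i W h) = (C.comap t).fe d i (t ⁻¹ᵁ W) (pre_mono t h) := by
  refine (map_sum (t.app W).hom (fun j => C.r i j W h ^ d) Finset.univ).trans ?_
  refine Finset.sum_congr rfl fun j _ => ?_
  refine (map_pow (t.app W).hom (C.r i j W h) d).trans ?_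
  congr 1
  exact (map_app t h (C.f i j)).symm

theorem comap_ferm (t : T ⟶ Z) (i : κ) : t.app (C.D i) (C.ferm d i) = (C.comap t).ferm d i :=
  C.comap_fe d t i (C.D i) le_rfl

theorem ferm_appLE (t : T ⟶ Z) (i : κ) (W : T.Opens) (h : W ≤ t ⁻¹ᵁ C.D i) :
    t.appLE (C.D i) W h (C.ferm d i) = ∑ j, t.appLE (C.D i) W h (C.f i j) ^ d := by
  refine (map_sum (t.appLE (C.D i) W h).hom (fun j => C.r i j _ le_rfl ^ d) Finset.univ).trans ?_
  refine Finset.sum_congr rfl fun j _ => ?_
  refine (map_pow (t.appLE (C.D i) W h).hom (C.r i j _ le_rfl) d).trans ?_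
  congr 1
  exact C.r_appLE t i j (C.D i) W le_rfl h

end PreCoord

section ps

variable (k : Type) [Field k] (κ)

/-- The Fermat hypersurface `∑ x_j ^ d = 0` in projective space. -/
noncomputable def Ferm : Scheme.{0} := zero (fun i => (PreCoord.ps k κ).ferm d i)

/-- The inclusion of the Fermat hypersurface. -/
noncomputable def fermι : Ferm κ d k ⟶ PS k κ := zeroι (fun i => (PreCoord.ps k κ).ferm d i)

instance : IsClosedImmersion (fermι κ d k) :=
  inferInstanceAs (IsClosedImmersion (zJ (fun i => (PreCoord.ps k κ).ferm d i)).subschemeι)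

variable {k κ}

theorem ferm_factor (t : T ⟶ PS k κ) :
    (∃ t', t' ≫ fermι κ d k = t) ↔ ∀ i, t.app (psD i) ((PreCoord.ps k κ).ferm d i) = 0 := by
  have ha : ∀ i, IsAffineHom ((PreCoord.ps k κ).D i).ι := (psCoord k κ).affine
  refine zero_iff (fun i => (PreCoord.ps k κ).ferm d i) iSup_psD (fun i j => ?_) t
  refine ⟨(PreCoord.ps k κ).r j i _ inf_le_right ^ d, ?_⟩
  refine ((PreCoord.ps k κ).fe_res d j le_rfl inf_le_right).trans ?_
  refine ((PreCoord.ps k κ).fe_mul d i j _ inf_le_left inf_le_right).trans ?_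
  exact congrArg _ ((PreCoord.ps k κ).fe_res d i le_rfl inf_le_left).symm

/-- Points of the Fermat hypersurface in the chart `x_i ≠ 0`. -/
theorem ferm_factor_iff (t : T ⟶ PS k κ) (i : κ) (h : ⊤ ≤ t ⁻¹ᵁ psD i) :
    (∃ t', t' ≫ fermι κ d k = t) ↔ ∑ j, t.appLE (psD i) ⊤ h (psf i j) ^ d = 0 := by
  rw [ferm_factor]
  have h1 := (PreCoord.ps k κ).ferm_appLE d t i ⊤ h
  have h2 : ((PreCoord.ps k κ).comap t).D i = ⊤ := top_le_iff.1 h
  have h3 := ((PreCoord.ps k κ).comap t).fvan_iff d i h2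
  constructor
  · intro H
    refine h1.symm.trans ?_
    have h4 : t.appLE (psD i) ⊤ h = t.app (psD i) ≫ T.presheaf.map (homOfLE h).op := rfl
    refine (DFunLike.congr_fun (congrArg CommRingCat.Hom.hom h4) _).trans ?_
    exact (congrArg (T.presheaf.map (homOfLE h).op) (H i)).trans (map_zero _)
  · intro H
    have h5 : ((PreCoord.ps k κ).comap t).FVan d := by
      refine h3.2 ?_
      refine ((PreCoord.ps k κ).comap_ferm d t i).symm.trans ?_
      have h6 := h1.trans H
      have h7 : t.appLE (psD i) ⊤ h ≫ T.presheaf.map (homOfLE le_top).op = t.app (psD i) := by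
        rw [Scheme.Hom.appLE_map, Scheme.Hom.appLE_eq_app]
      refine (DFunLike.congr_fun (congrArg CommRingCat.Hom.hom h7.symm) _).trans ?_
      exact (congrArg (T.presheaf.map (homOfLE le_top).op) h6).trans (map_zero _)
    exact fun j => ((PreCoord.ps k κ).comap_ferm d t j).trans (h5 j)

end ps

end Pool.Agent.Lib.MP_4ca46c_ag.Hyp
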