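import Mathlib
import Pool.Agent.Lib.MP_4ca46c_ag.Hyp.Ferm

/-!
# The charts of the Fermat hypersurface
-/

namespace Pool.Agent.Lib.MP_4ca46c_ag.Hyp

open CategoryTheory Limits AlgebraicGeometry Opposite HomogeneousLocalization MvPolynomial

attribute [local instance] MvPolynomial.gradedAlgebra

variable {κ : Type} [Fintype κ] [DecidableEq κ] {Z T : Scheme.{0}} (d : ℕ) {k : Type} [Field k]

omit [Fintype κ] [DecidableEq κ] in
theorem ps_rule {T T' : Scheme.{0}} (t : T ⟶ T') (f : T' ⟶ PS k κ) (i : κ) (h : ⊤ ≤ f ⁻¹ᵁ psD i)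
    (h' : ⊤ ≤ (t ≫ f) ⁻¹ᵁ psD i) (j : κ) : (t ≫ f).appLE (psD i) ⊤ h' (psf i j) =
      t.appTop (f.appLE (psD i) ⊤ h (psf i j)) := by
  have h1 := Scheme.Hom.appLE_comp_appLE t f (psD i) ⊤ ⊤ h (le_of_eq rfl)
  have h2 : t.appLE ⊤ ⊤ (le_of_eq rfl) = t.appTop := Scheme.Hom.appLE_eq_app _
  rw [h2] at h1
  rw [← h1, CommRingCat.comp_apply]

theorem ferm_split {R : Type*} [CommRing R] (i : κ) (a : κ → R) (ha : a i = 1) :
    ∑ j, a j ^ d = 1 + ∑ j : {j // j ≠ i}, a j.1 ^ d := by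
  rw [Fintype.sum_eq_add_sum_subtype_ne (fun j => a j ^ d) i, ha, one_pow]

/-- The ring of the chart `x_i ≠ 0` of the Fermat hypersurface. -/
abbrev FR (k : Type) [Field k] (i : κ) : Type :=
  MvPolynomial {j // j ≠ i} k ⧸ Ideal.span {(1 + ∑ j, X j ^ d : MvPolynomial {j // j ≠ i} k)}

/-- The ring homomorphism from `FR`. -/
noncomputable def frHom {R : Type} [CommRing R] (i : κ) (c : k →+* R) (a : {j // j ≠ i} → R)
    (h : 1 + ∑ j, a j ^ d = 0) : FR d k i →+* R :=
  Ideal.Quotient.lift _ (eval₂Hom c a) (by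
    have h1 : Ideal.span {(1 + ∑ j, X j ^ d : MvPolynomial {j // j ≠ i} k)} ≤
        RingHom.ker (eval₂Hom c a) := by
      rw [Ideal.span_singleton_le_iff_mem, RingHom.mem_ker]
      simpa using h
    exact fun x hx => RingHom.mem_ker.1 (h1 hx))

theorem frHom_X {R : Type} [CommRing R] (i : κ) (c : k →+* R) (a : {j // j ≠ i} → R)
    (h : 1 + ∑ j, a j ^ d = 0) (j : {j // j ≠ i}) :
    frHom d i c a h (Ideal.Quotient.mk _ (X j)) = a j := by
  rw [frHom, Ideal.Quotient.lift_mk, coe_eval₂Hom, eval₂_X]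

theorem frHom_C {R : Type} [CommRing R] (i : κ) (c : k →+* R) (a : {j // j ≠ i} → R)
    (h : 1 + ∑ j, a j ^ d = 0) : (frHom d i c a h).comp (algebraMap k (FR d k i)) = c := by
  ext r
  have : algebraMap k (FR d k i) r = Ideal.Quotient.mk _ (MvPolynomial.C r) := rfl
  rw [RingHom.comp_apply, this, frHom, Ideal.Quotient.lift_mk, coe_eval₂Hom, eval₂_C]

theorem fr_rel (i : κ) : 1 + ∑ j : {j // j ≠ i},
    (Ideal.Quotient.mk _ (X j) : FR d k i) ^ d = 0 := by
  have h : (Ideal.Quotient.mk _ (1 + ∑ j, X j ^ d) : FR d k i) = 0 :=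
    Ideal.Quotient.eq_zero_iff_mem.2 (Ideal.subset_span rfl)
  rw [map_add, map_one, map_sum] at h
  simpa only [map_pow] using h

theorem fr_ext {R : Type} [CommRing R] (i : κ) {φ ψ : FR d k i →+* R}
    (h : φ.comp (algebraMap k (FR d k i)) = ψ.comp (algebraMap k (FR d k i)))
    (h' : ∀ j, φ (Ideal.Quotient.mk _ (X j)) = ψ (Ideal.Quotient.mk _ (X j))) : φ = ψ := by
  refine Ideal.Quotient.ringHom_ext (MvPolynomial.ringHom_ext (fun r => ?_) fun j => ?_)
  · exact DFunLike.congr_fun h r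
  · exact h' j

theorem val_str_eq {T : Scheme.{0}} {R : Type} [CommRing R] [Algebra k R]
    (t t' : T ⟶ Spec (CommRingCat.of R)) :
    t ≫ Spec.map (CommRingCat.ofHom (algebraMap k R)) =
      t' ≫ Spec.map (CommRingCat.ofHom (algebraMap k R)) ↔
    (val t).comp (algebraMap k R) = (val t').comp (algebraMap k R) := by
  rw [← val_map, ← val_map]
  exact ⟨fun h => by rw [h], val_ext⟩

/-- The charts of the Fermat hypersurface. -/
theorem ferm_chart (i : κ) :
    ∃ e : (fermι κ d k ⁻¹ᵁ psD i).toScheme ≅ Spec (CommRingCat.of (FR d k i)),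
      e.hom ≫ Spec.map (CommRingCat.ofHom (algebraMap k (FR d k i))) =
        (fermι κ d k ⁻¹ᵁ psD i).ι ≫ fermι κ d k ≫ psStr k κ := by
  obtain ⟨U, hU⟩ : ∃ U, U = fermι κ d k ⁻¹ᵁ psD i := ⟨_, rfl⟩
  rw [← hU]
  have top : ⊤ ≤ (U.ι ≫ fermι κ d k) ⁻¹ᵁ psD i := fun x _ => hU.le x.2
  -- the coordinates on `U`
  let a : κ → Γ(U.toScheme, ⊤) := fun j =>
    (U.ι ≫ fermι κ d k).appLE (psD i) ⊤ top (psf i j)
  have ha1 : a i = 1 := by
    change (U.ι ≫ fermι κ d k).appLE (psD i) ⊤ top (psf i i) = 1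
    rw [psf_self, map_one]
  have ha2 : 1 + ∑ j : {j // j ≠ i}, a j.1 ^ d = 0 := by
    rw [← ferm_split d i a ha1]
    exact (ferm_factor_iff d (U.ι ≫ fermι κ d k) i top).1 ⟨U.ι, rfl⟩
  obtain ⟨s, hs⟩ : ∃ s, s = U.ι ≫ fermι κ d k ≫ psStr k κ := ⟨_, rfl⟩
  let hom : U.toScheme ⟶ Spec (CommRingCat.of (FR d k i)) :=
    ofVal (frHom d i (val s) (fun j => a j.1) ha2)
  have hval : val hom = frHom d i (val s) (fun j => a j.1) ha2 := val_ofVal _
  have hhom : hom ≫ Spec.map (CommRingCat.ofHom (algebraMap k (FR d k i))) = s := by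
    refine val_ext ?_
    rw [val_map, hval, frHom_C]
  -- the inverse
  let g : FR d k i →+* Γ(Spec (CommRingCat.of (FR d k i)), ⊤) :=
    (Scheme.ΓSpecIso (CommRingCat.of (FR d k i))).inv.hom
  have hg : val (𝟙 (Spec (CommRingCat.of (FR d k i)))) = g := by
    refine RingHom.ext fun r => ?_
    change (𝟙 (Spec (CommRingCat.of (FR d k i))) : _ ⟶ _).appTop
      ((Scheme.ΓSpecIso (CommRingCat.of (FR d k i))).inv r) = _
    rw [Scheme.Hom.id_appTop]
    rfl
  obtain ⟨F, hF, hD, hc⟩ := exists_vec' (k := k)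
    (fun j : {j // j ≠ i} => g (Ideal.Quotient.mk _ (X j)))
    (Spec.map (CommRingCat.ofHom (algebraMap k (FR d k i))))
  obtain ⟨G, hG⟩ : ∃ G, G ≫ fermι κ d k = F := by
    refine (ferm_factor_iff d F i hD).2 ?_
    rw [ferm_split d i (fun j => F.appLE (psD i) ⊤ hD (psf i j)) (by rw [psf_self, map_one])]
    simp only [hc]
    have h1 := congrArg g (fr_rel (k := k) d i)
    rw [map_add, map_one, map_sum, map_zero] at h1
    simpa only [map_pow] using h1
  have hGr : Set.range G ⊆ Set.range U.ι := by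
    rintro _ ⟨x, rfl⟩
    rw [Scheme.Opens.range_ι, hU]
    have h1 : (G ≫ fermι κ d k) x ∈ psD i := by
      rw [hG]
      exact hD (Set.mem_univ x)
    exact h1
  let inv : Spec (CommRingCat.of (FR d k i)) ⟶ U.toScheme := IsOpenImmersion.lift U.ι G hGr
  have hinv : inv ≫ U.ι = G := IsOpenImmersion.lift_fac _ _ _
  have e1 : inv ≫ U.ι ≫ fermι κ d k = F := by rw [← Category.assoc, hinv, hG]
  have e2 : inv ≫ s = Spec.map (CommRingCat.ofHom (algebraMap k (FR d k i))) := by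
    rw [hs, ← Category.assoc, hinv, ← Category.assoc, hG, hF]
  refine ⟨⟨hom, inv, ?_, ?_⟩, hhom.trans hs⟩
  · rw [← cancel_mono U.ι, ← cancel_mono (fermι κ d k), Category.assoc, Category.assoc,
      Category.id_comp, e1]
    have h1 : ⊤ ≤ (hom ≫ F) ⁻¹ᵁ psD i := fun x _ => hD (Set.mem_univ (hom x))
    refine unique_vec' i _ _ h1 top ?_ fun j => ?_
    · rw [Category.assoc, hF, hhom, hs, Category.assoc]
    · rw [ps_rule hom F i hD h1, hc]
      have h2 : hom.appTop (g (Ideal.Quotient.mk _ (X j))) = val hom (Ideal.Quotient.mk _ (X j)) :=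
        rfl
      rw [h2, hval, frHom_X]
  · refine val_ext ?_
    rw [val_comp, hval, hg]
    refine fr_ext d i ?_ fun j => ?_
    · rw [RingHom.comp_assoc, frHom_C, ← val_comp, e2]
      have h3 := val_map (𝟙 (Spec (CommRingCat.of (FR d k i)))) (algebraMap k (FR d k i))
      rw [Category.id_comp, hg] at h3
      exact h3
    · rw [RingHom.comp_apply, frHom_X]
      have h4 := ps_rule inv (U.ι ≫ fermι κ d k) i top (by rw [e1]; exact hD) j.1
      refine h4.symm.trans ?_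
      rw [← hc j]
      simp only [e1]

end Pool.Agent.Lib.MP_4ca46c_ag.Hyp
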