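import Mathlib
import Pool.Agent.Lib.MP_4ca46c_ag.Hyp.FermChart

/-!
# Scaling the coordinates of projective space
-/

namespace Pool.Agent.Lib.MP_4ca46c_ag.Hyp

open CategoryTheory Limits AlgebraicGeometry Opposite HomogeneousLocalization MvPolynomial

attribute [local instance] MvPolynomial.gradedAlgebra

variable {k : Type} [Field k] {κ : Type} {Z T : Scheme.{0}}

/-- The constants. -/
noncomputable def cst (s : Z ⟶ Spec (CommRingCat.of k)) (W : Z.Opens) : k →+* Γ(Z, W) :=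
  ((Scheme.ΓSpecIso (CommRingCat.of k)).inv ≫ s.appLE ⊤ W le_top).hom

theorem cst_res (s : Z ⟶ Spec (CommRingCat.of k)) {W W' : Z.Opens} (h : W' ≤ W) (r : k) :
    Z.presheaf.map (homOfLE h).op (cst s W r) = cst s W' r := by
  have h1 : W ≤ s ⁻¹ᵁ ⊤ := le_top
  change Z.presheaf.map (homOfLE h).op (s.appLE ⊤ W h1
    ((Scheme.ΓSpecIso (CommRingCat.of k)).inv r)) = _
  rw [← CommRingCat.comp_apply, Scheme.Hom.appLE_map]
  rfl

theorem cst_appLE (t : T ⟶ Z) (s : Z ⟶ Spec (CommRingCat.of k)) (W : Z.Opens) (W' : T.Opens)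
    (h : W' ≤ t ⁻¹ᵁ W) (r : k) : t.appLE W W' h (cst s W r) = cst (t ≫ s) W' r := by
  have h1 : W ≤ s ⁻¹ᵁ ⊤ := le_top
  change t.appLE W W' h (s.appLE ⊤ W h1 ((Scheme.ΓSpecIso (CommRingCat.of k)).inv r)) = _
  rw [← CommRingCat.comp_apply, Scheme.Hom.appLE_comp_appLE]
  rfl

/-- Scaling the coordinates. -/
noncomputable def PreCoord.scale (C : PreCoord Z κ) (s : Z ⟶ Spec (CommRingCat.of k)) (c : κ → k)
    (hc : ∀ j, c j ≠ 0) : PreCoord Z κ where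
  D := C.D
  f i j := cst s (C.D i) (c j / c i) * C.f i j
  iSup_D := C.iSup_D
  f_self i := by rw [C.f_self, div_self (hc i), map_one, mul_one]
  f_mul i j l := by
    have h : c l / c i = c j / c i * (c l / c j) := by
      have h1 := hc i
      have h2 := hc j
      field_simp
    rw [map_mul, map_mul, map_mul, cst_res, cst_res, cst_res, C.f_mul i j l, h, map_mul]
    ring
  basicOpen_le i j := by
    rw [Scheme.basicOpen_mul]
    exact inf_le_right.trans (C.basicOpen_le i j)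

section scl

variable (c : κ → k) (hc : ∀ j, c j ≠ 0)

/-- Scaling the coordinates of projective space. -/
noncomputable def scl : PS k κ ⟶ PS k κ :=
  ((PreCoord.ps k κ).scale (psStr k κ) c hc).toPS (psStr k κ)

theorem scl_str : scl c hc ≫ psStr k κ = psStr k κ := PreCoord.toPS_str _ _

theorem scl_rep : ((PreCoord.ps k κ).scale (psStr k κ) c hc).Rep (scl c hc) :=
  PreCoord.rep_toPS _ _

variable {c hc}

theorem scl_top {t : T ⟶ PS k κ} {i : κ} (h : ⊤ ≤ t ⁻¹ᵁ psD i) :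
    ⊤ ≤ (t ≫ scl c hc) ⁻¹ᵁ psD i := by
  rw [Scheme.Hom.comp_preimage, (scl_rep c hc).D_eq i]
  exact h

theorem scl_coord (t : T ⟶ PS k κ) (i j : κ) (h : ⊤ ≤ t ⁻¹ᵁ psD i)
    (h' : ⊤ ≤ (t ≫ scl c hc) ⁻¹ᵁ psD i) : (t ≫ scl c hc).appLE (psD i) ⊤ h' (psf i j) =
      cst (t ≫ psStr k κ) ⊤ (c j / c i) * t.appLE (psD i) ⊤ h (psf i j) := by
  rw [(scl_rep c hc).res t ⊤ i j h h']
  refine (map_mul (t.appLE (psD i) ⊤ h).hom (cst (psStr k κ) (psD i) (c j / c i))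
    (psf i j)).trans ?_
  exact congrArg (· * t.appLE (psD i) ⊤ h (psf i j)) (cst_appLE t (psStr k κ) (psD i) ⊤ h _)

theorem scl_mul {c' : κ → k} {hc' : ∀ j, c' j ≠ 0} (h : ∀ j, c j * c' j = 1) :
    scl c hc ≫ scl c' hc' = 𝟙 (PS k κ) := by
  refine hom_ext_of_opens psD iSup_psD fun i => ?_
  have h0 : ⊤ ≤ (psD (k := k) i).ι ⁻¹ᵁ psD i := by simp
  have h1 : ⊤ ≤ ((psD i).ι ≫ scl c hc) ⁻¹ᵁ psD i := scl_top h0
  have h2 : ⊤ ≤ (((psD i).ι ≫ scl c hc) ≫ scl c' hc') ⁻¹ᵁ psD i := scl_top h1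
  rw [Category.comp_id, ← Category.assoc]
  refine ps_sep i _ _ _ h2 h0 ?_ fun j => ?_
  · rw [Category.assoc, scl_str, Category.assoc, scl_str]
  · rw [scl_coord _ i j h1 h2, scl_coord _ i j h0 h1, ← mul_assoc, Category.assoc, scl_str,
      ← map_mul]
    have h3 : c' j / c' i * (c j / c i) = 1 := by
      rw [div_mul_div_comm, mul_comm (c' j), mul_comm (c' i), h, h, div_one]
    rw [h3, map_one, one_mul]

end scl

section fermat

variable [Fintype κ] (d : ℕ)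

theorem ferm_local (t : T ⟶ PS k κ)
    (h : ∀ i, ∃ u, u ≫ fermι κ d k = (t ⁻¹ᵁ psD i).ι ≫ t) : ∃ t', t' ≫ fermι κ d k = t := by
  rw [ferm_factor]
  intro i
  have h1 := (ferm_factor d _).1 (h i) i
  have h2 : ((t ⁻¹ᵁ psD i).ι ≫ t).app (psD i) = t.app (psD i) ≫
      (t ⁻¹ᵁ psD i).ι.app (t ⁻¹ᵁ psD i) := Scheme.Hom.comp_app _ _ _
  have h3 : IsIso ((t ⁻¹ᵁ psD i).ι.app (t ⁻¹ᵁ psD i)) :=
    (t ⁻¹ᵁ psD i).ι.isIso_app _ (by simp)
  have h4 := (ConcreteCategory.bijective_of_isIso ((t ⁻¹ᵁ psD i).ι.app (t ⁻¹ᵁ psD i))).1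
  refine h4 ?_
  rw [map_zero]
  exact (DFunLike.congr_fun (congrArg CommRingCat.Hom.hom h2) _).symm.trans h1

variable {c : κ → k} {hc : ∀ j, c j ≠ 0}

theorem scl_ferm_aux (hd : ∀ j, c j ^ d = 1) (t : T ⟶ PS k κ) (i : κ) (h : ⊤ ≤ t ⁻¹ᵁ psD i)
    (ht : ∃ t', t' ≫ fermι κ d k = t) : ∃ t', t' ≫ fermι κ d k = t ≫ scl c hc := by
  rw [ferm_factor_iff d _ i (scl_top h)]
  rw [ferm_factor_iff d _ i h] at ht
  rw [← ht]
  refine Finset.sum_congr rfl fun j _ => ?_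
  rw [scl_coord t i j h, mul_pow, ← map_pow, div_pow, hd, hd, div_one, map_one, one_mul]

theorem scl_ferm (hd : ∀ j, c j ^ d = 1) (t : T ⟶ PS k κ)
    (ht : ∃ t', t' ≫ fermι κ d k = t) : ∃ t', t' ≫ fermι κ d k = t ≫ scl c hc := by
  refine ferm_local d _ fun i => ?_
  obtain ⟨t', rfl⟩ := ht
  have h : ⊤ ≤ (((t' ≫ fermι κ d k) ≫ scl c hc) ⁻¹ᵁ psD i).ι ⁻¹ᵁ
      ((t' ≫ fermι κ d k) ⁻¹ᵁ psD i) := by
    rw [Scheme.Hom.comp_preimage _ (scl c hc), (scl_rep c hc).D_eq i]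
    exact fun x _ => x.2
  have h1 := scl_ferm_aux d (hc := hc) hd
    ((((t' ≫ fermι κ d k) ≫ scl c hc) ⁻¹ᵁ psD i).ι ≫ t' ≫ fermι κ d k) i h
    ⟨_ ≫ t', Category.assoc _ _ _⟩
  rwa [Category.assoc] at h1

/-- The automorphism of the Fermat hypersurface. -/
theorem exists_fermAut (hd : ∀ j, c j ^ d = 1) : ∃ σ : Ferm κ d k ⟶ Ferm κ d k,
    σ ≫ fermι κ d k = fermι κ d k ≫ scl c hc := 
  scl_ferm d hd _ ⟨𝟙 _, Category.id_comp _⟩

theorem fermAut_iso (hd : ∀ j, c j ^ d = 1) (σ : Ferm κ d k ⟶ Ferm κ d k)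
    (hσ : σ ≫ fermι κ d k = fermι κ d k ≫ scl c hc) : IsIso σ := by
  have hc' : ∀ j, (c j)⁻¹ ≠ 0 := fun j => inv_ne_zero (hc j)
  obtain ⟨σ', hσ'⟩ := exists_fermAut (k := k) (κ := κ) d (c := fun j => (c j)⁻¹) (hc := hc')
    fun j => by rw [inv_pow, hd, inv_one]
  refine ⟨σ', ?_, ?_⟩
  · rw [← cancel_mono (fermι κ d k), Category.assoc, hσ', ← Category.assoc, hσ, Category.assoc,
      scl_mul fun j => mul_inv_cancel₀ (hc j), Category.comp_id, Category.id_comp]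
  · rw [← cancel_mono (fermι κ d k), Category.assoc, hσ, ← Category.assoc, hσ', Category.assoc,
      scl_mul fun j => inv_mul_cancel₀ (hc j), Category.comp_id, Category.id_comp]

/-- The automorphism has no fixed points. -/
theorem scl_fixed_aux (hd : d ≠ 0) (hi : Function.Injective c) (t : T ⟶ PS k κ)
    (ht : ∃ t', t' ≫ fermι κ d k = t) (h : t ≫ scl c hc = t) (i : κ) (hD : ⊤ ≤ t ⁻¹ᵁ psD i) :
    IsEmpty T := by
  classical
  have h1 : ∀ j, j ≠ i → t.appLE (psD i) ⊤ hD (psf i j) = 0 := fun j hj => by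
    have h2 := scl_coord (hc := hc) t i j hD (scl_top hD)
    simp only [h] at h2
    have h3 : (cst (t ≫ psStr k κ) ⊤ (c j / c i - 1) : Γ(T, ⊤)) *
        t.appLE (psD i) ⊤ hD (psf i j) = 0 := by
      rw [map_sub, map_one, sub_mul, one_mul, ← h2, sub_self]
    have h4 : c j / c i - 1 ≠ 0 := by
      intro h5
      rw [sub_eq_zero, div_eq_one_iff_eq (hc i)] at h5
      exact hj (hi h5)
    have h5 : IsUnit (cst (t ≫ psStr k κ) ⊤ (c j / c i - 1) : Γ(T, ⊤)) :=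
      (IsUnit.mk0 _ h4).map _
    exact h5.mul_right_eq_zero.1 h3
  have h2 := (ferm_factor_iff d t i hD).1 ht
  rw [ferm_split d i (fun j => t.appLE (psD i) ⊤ hD (psf i j)) (by rw [psf_self, map_one])] at h2
  have h3 : (1 : Γ(T, ⊤)) = 0 := by
    rw [← h2, Finset.sum_eq_zero, add_zero]
    intro j _
    rw [h1 j.1 j.2, zero_pow hd]
  have h4 : T.basicOpen (1 : Γ(T, ⊤)) = ⊤ := Scheme.basicOpen_of_isUnit T isUnit_one
  rw [h3, Scheme.basicOpen_zero] at h4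
  refine ⟨fun x => ?_⟩
  have h5 : x ∈ (⊥ : T.Opens) := by rw [h4]; trivial
  exact h5

theorem scl_fixed (hd : d ≠ 0) (hi : Function.Injective c) (t : T ⟶ PS k κ)
    (ht : ∃ t', t' ≫ fermι κ d k = t) (h : t ≫ scl c hc = t) : IsEmpty T := by
  refine ⟨fun x => ?_⟩
  obtain ⟨i, hi'⟩ := TopologicalSpace.Opens.mem_iSup.1 (iSup_psD.ge (Set.mem_univ (t x)))
  have h1 := scl_fixed_aux d (hc := hc) hd hi ((t ⁻¹ᵁ psD i).ι ≫ t)
    (by obtain ⟨t', ht'⟩ := ht; exact ⟨(t ⁻¹ᵁ psD i).ι ≫ t', by rw [Category.assoc, ht']⟩)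
    (by rw [Category.assoc, h]) i (fun y _ => y.2)
  exact h1.false ⟨x, hi'⟩

end fermat

end Pool.Agent.Lib.MP_4ca46c_ag.Hyp
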