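import Mathlib
import Pool.Agent.Lib.MP_4ca46c_ag.Hyp.Affine

/-!
# Several points imposing independent conditions on hyperplanes
-/

namespace Pool.Agent.Lib.MP_4ca46c_ag.Hyp

open CategoryTheory Limits AlgebraicGeometry Opposite

section algebra

variable {ι ν κ : Type} [Fintype ι] [Fintype ν] [Fintype κ] [DecidableEq ι] {R : Type*}
  [CommRing R] (e : ι ⊕ ν ≃ κ)

/-- The solution of several linear equations. -/
def solN (w : ι → κ → R) (N : ι → ι → R) (c : ν → R) (l : κ) : R :=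
  Sum.elim (fun s => -∑ r, N s r * ∑ k, c k * w r (e (Sum.inr k))) c (e.symm l)

omit [DecidableEq ι] in
theorem sum_splitN (F : κ → R) :
    ∑ l, F l = ∑ s, F (e (Sum.inl s)) + ∑ k, F (e (Sum.inr k)) := by
  rw [← Fintype.sum_sum_type (fun x => F (e x))]
  exact (Fintype.sum_equiv e _ _ fun _ => rfl).symm

omit [Fintype κ] [DecidableEq ι] in
theorem solN_inl (w : ι → κ → R) (N : ι → ι → R) (c : ν → R) (s : ι) :
    solN e w N c (e (Sum.inl s)) = -∑ r, N s r * ∑ k, c k * w r (e (Sum.inr k)) := by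
  rw [solN, Equiv.symm_apply_apply, Sum.elim_inl]

omit [Fintype κ] [DecidableEq ι] in
theorem solN_inr (w : ι → κ → R) (N : ι → ι → R) (c : ν → R) (k : ν) :
    solN e w N c (e (Sum.inr k)) = c k := by
  rw [solN, Equiv.symm_apply_apply, Sum.elim_inr]

variable {e}

theorem solN_sum {w : ι → κ → R} {N : ι → ι → R}
    (hN : ∀ r r', ∑ s, w r (e (Sum.inl s)) * N s r' = if r = r' then 1 else 0) (c : ν → R)
    (r : ι) : ∑ l, solN e w N c l * w r l = 0 := by
  rw [sum_splitN e]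
  simp only [solN_inl, solN_inr]
  have h : ∑ s, (-∑ r', N s r' * ∑ k, c k * w r' (e (Sum.inr k))) * w r (e (Sum.inl s)) =
      -∑ r', (∑ s, w r (e (Sum.inl s)) * N s r') * ∑ k, c k * w r' (e (Sum.inr k)) := by
    simp only [neg_mul, Finset.sum_neg_distrib, Finset.sum_mul]
    rw [Finset.sum_comm]
    refine congrArg _ (Finset.sum_congr rfl fun r' _ => Finset.sum_congr rfl fun s _ => ?_)
    ring
  rw [h]
  simp [hN]

theorem solN_unique {w : ι → κ → R} {N : ι → ι → R}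
    (hN : ∀ s s', ∑ r, N s r * w r (e (Sum.inl s')) = if s = s' then 1 else 0) {a : κ → R}
    (h : ∀ r, ∑ l, a l * w r l = 0) (l : κ) :
    a l = solN e w N (fun k => a (e (Sum.inr k))) l := by
  obtain ⟨x, rfl⟩ := e.surjective l
  cases x with
  | inr k => rw [solN_inr]
  | inl s =>
    rw [solN_inl]
    have h1 : ∀ r, ∑ k, a (e (Sum.inr k)) * w r (e (Sum.inr k)) =
        -∑ s', a (e (Sum.inl s')) * w r (e (Sum.inl s')) := fun r => by
      rw [eq_neg_iff_add_eq_zero, add_comm, ← sum_splitN e (fun l => a l * w r l), h]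
    simp only [h1]
    have h2 : ∑ r, N s r * -∑ s', a (e (Sum.inl s')) * w r (e (Sum.inl s')) =
        -∑ s', (∑ r, N s r * w r (e (Sum.inl s'))) * a (e (Sum.inl s')) := by
      simp only [mul_neg, Finset.sum_neg_distrib, Finset.sum_mul, Finset.mul_sum]
      rw [Finset.sum_comm]
      refine congrArg _ (Finset.sum_congr rfl fun s' _ => Finset.sum_congr rfl fun r _ => ?_)
      ring
    rw [h2]
    simp [hN]

omit [Fintype κ] [DecidableEq ι] in
theorem map_solN {R' : Type*} [CommRing R'] (φ : R →+* R') (w : ι → κ → R) (N : ι → ι → R)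
    (c : ν → R) (l : κ) : φ (solN e w N c l) =
      solN e (fun r l => φ (w r l)) (fun s r => φ (N s r)) (fun k => φ (c k)) l := by
  obtain ⟨x, rfl⟩ := e.surjective l
  cases x with
  | inr k => rw [solN_inr, solN_inr]
  | inl s => rw [solN_inl, solN_inl]; simp

/-- The inverse of a matrix. -/
theorem exists_invN {w : ι → κ → R} (h : IsUnit (Matrix.det (Matrix.of fun r s : ι =>
    w r (e (Sum.inl s))))) : ∃ N : ι → ι → R,
    (∀ r r', ∑ s, w r (e (Sum.inl s)) * N s r' = if r = r' then 1 else 0) ∧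
    ∀ s s', ∑ r, N s r * w r (e (Sum.inl s')) = if s = s' then 1 else 0 := by
  set M : Matrix ι ι R := Matrix.of fun r s : ι => w r (e (Sum.inl s)) with hM
  refine ⟨(M⁻¹ : Matrix ι ι R), fun r r' => ?_, fun s s' => ?_⟩
  · have h1 := congrFun (congrFun (Matrix.mul_nonsing_inv M h) r) r'
    rw [Matrix.one_apply] at h1
    rw [← h1, Matrix.mul_apply]
    rfl
  · have h1 := congrFun (congrFun (Matrix.nonsing_inv_mul M h) s) s'
    rw [Matrix.one_apply] at h1
    rw [← h1, Matrix.mul_apply]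
    rfl

end algebra

namespace Coord

variable {Z S : Scheme.{0}} {s : Z ⟶ S} {ι ν κ : Type} (C : Coord s κ) [Fintype κ] [Fintype ι]
  [Fintype ν] [DecidableEq ι]

theorem exists_isoN [Nonempty ι] {V : Scheme.{0}} (z : ι → (V ⟶ Z)) {i : ι → κ}
    (h : ∀ r, ⊤ ≤ z r ⁻¹ᵁ C.D (i r)) (e : ι ⊕ ν ≃ κ)
    (hu : IsUnit (Matrix.det (Matrix.of fun r s : ι =>
      C.val (z r) (i r) (h r) (e (Sum.inl s)))))
    {W : Scheme.{0}} (f : W ⟶ V) (c : ι → (W ⟶ C.I)) (h₁ : ∀ r, c r ≫ C.toZ = f ≫ z r)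
    (h₃ : ∀ r r' l, (c r).appTop (C.vec l) = (c r').appTop (C.vec l))
    (ex : ∀ (T : Scheme.{0}) (u : T ⟶ V) (t : ι → (T ⟶ C.I)), (∀ r, t r ≫ C.toZ = u ≫ z r) →
      (∀ r r' l, (t r).appTop (C.vec l) = (t r').appTop (C.vec l)) →
      ∃ t' : T ⟶ W, t' ≫ f = u ∧ ∀ r, t' ≫ c r = t r)
    (un : ∀ (T : Scheme.{0}) (t t' : T ⟶ W), t ≫ f = t' ≫ f → (∀ r, t ≫ c r = t' ≫ c r) →
      t = t') :
    ∃ e' : W ≅ 𝔸(ν; V), e'.hom ≫ (𝔸(ν; V) ↘ V) = f := by
  obtain ⟨N, hN₁, hN₂⟩ := exists_invN (w := fun r l => C.val (z r) (i r) (h r) l) hu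
  obtain ⟨r₀⟩ := ‹Nonempty ι›
  have van : ∀ {T : Scheme.{0}} (u : T ⟶ V) (a : κ → Γ(T, ⊤)) (r : ι), C.Van (u ≫ z r) a ↔
      ∑ l, a l * u.appTop (C.val (z r) (i r) (h r) l) = 0 := fun u a r => by
    rw [C.van_iff_of_le (u ≫ z r) a (i r) (C.top_le_comp u (h r))]
    refine Eq.congr (Finset.sum_congr rfl fun l _ => ?_) rfl
    congr 1
    exact C.val_comp u (z r) (i r) (h r) _ l
  have hN₁' : ∀ {T : Scheme.{0}} (u : T ⟶ V) (r r' : ι),
      ∑ s, u.appTop (C.val (z r) (i r) (h r) (e (Sum.inl s))) * u.appTop (N s r') =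
        if r = r' then 1 else 0 := fun u r r' => by
    have h1 := congrArg u.appTop.hom (hN₁ r r')
    rw [map_sum] at h1
    simp only [map_mul] at h1
    rw [apply_ite u.appTop.hom, map_one, map_zero] at h1
    exact h1
  have hN₂' : ∀ {T : Scheme.{0}} (u : T ⟶ V) (s s' : ι),
      ∑ r, u.appTop (N s r) * u.appTop (C.val (z r) (i r) (h r) (e (Sum.inl s'))) =
        if s = s' then 1 else 0 := fun u s s' => by
    have h1 := congrArg u.appTop.hom (hN₂ s s')
    rw [map_sum] at h1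
    simp only [map_mul] at h1
    rw [apply_ite u.appTop.hom, map_one, map_zero] at h1
    exact h1
  set π := 𝔸(ν; V) ↘ V with hπ
  let b : κ → Γ(𝔸(ν; V), ⊤) :=
    solN e (fun r l => π.appTop (C.val (z r) (i r) (h r) l))
      (fun s r => π.appTop (N s r)) (AffineSpace.coord V)
  have hb : ∀ r, C.Van (π ≫ z r) b := fun r => (van π b r).2
    (solN_sum (w := fun r l => π.appTop (C.val (z r) (i r) (h r) l)) (hN₁' π)
      (AffineSpace.coord V) r)
  obtain ⟨inv, i₀, i₁⟩ := ex _ π (fun r => C.lift (π ≫ z r) b (hb r))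
    (fun r => C.lift_toZ _ _ _) (fun r r' l => by rw [C.lift_vec, C.lift_vec])
  let a : κ → Γ(W, ⊤) := fun l => (c r₀).appTop (C.vec l)
  have ha : ∀ r, ∑ l, a l * f.appTop (C.val (z r) (i r) (h r) l) = 0 := by
    intro r
    rw [← van, ← h₁]
    have := C.van (c r)
    simpa only [h₃ r r₀] using this
  let hom : W ⟶ 𝔸(ν; V) := AffineSpace.homOfVector f (fun k => a (e (Sum.inr k)))
  have hom_b : ∀ l, hom.appTop (b l) = a l := by
    intro l
    have e1 : ∀ x, hom.appTop (π.appTop x) = f.appTop x := fun x => by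
      rw [← CommRingCat.comp_apply, ← Scheme.Hom.comp_appTop, AffineSpace.homOfVector_over]
    have e2 := map_solN (e := e) hom.appTop.hom
      (fun r l => π.appTop (C.val (z r) (i r) (h r) l))
      (fun s r => π.appTop (N s r)) (AffineSpace.coord V) l
    refine e2.trans ?_
    rw [solN_unique (e := e) (w := fun r l => f.appTop (C.val (z r) (i r) (h r) l))
      (hN₂' f) ha l]
    have e3 : ∀ k, hom.appTop (AffineSpace.coord V k) = a (e (Sum.inr k)) := fun k =>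
      AffineSpace.homOfVector_appTop_coord _ _ _
    have e4 : (fun r l => hom.appTop.hom (π.appTop (C.val (z r) (i r) (h r) l))) =
      fun r l => f.appTop (C.val (z r) (i r) (h r) l) := funext fun r => funext fun l => e1 _
    have e6 : (fun s r => hom.appTop.hom (π.appTop (N s r))) =
      fun s r => f.appTop (N s r) := funext fun s => funext fun r => e1 _
    have e7 : (fun k => hom.appTop.hom (AffineSpace.coord V k)) =
      fun k : ν => a (e (Sum.inr k)) := funext e3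
    rw [e4, e6, e7]
  refine ⟨⟨hom, inv, ?_, ?_⟩, AffineSpace.homOfVector_over _ _⟩
  · refine un _ _ _ ?_ fun r => ?_
    · rw [Category.assoc, i₀, AffineSpace.homOfVector_over, Category.id_comp]
    · rw [Category.assoc, i₁, Category.id_comp]
      refine C.hom_ext ?_ fun l => ?_
      · rw [Category.assoc, C.lift_toZ, ← Category.assoc, AffineSpace.homOfVector_over, h₁]
      · rw [Scheme.Hom.comp_appTop, CommRingCat.comp_apply, C.lift_vec, hom_b, h₃ r r₀]
  · refine AffineSpace.hom_ext ?_ fun k => ?_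
    · rw [Category.assoc, AffineSpace.homOfVector_over, i₀, Category.id_comp]
    · rw [Scheme.Hom.comp_appTop, CommRingCat.comp_apply, AffineSpace.homOfVector_appTop_coord]
      change inv.appTop ((c r₀).appTop (C.vec (e (Sum.inr k)))) = _
      rw [← CommRingCat.comp_apply, ← Scheme.Hom.comp_appTop, i₁, C.lift_vec]
      change solN e _ _ _ _ = _
      rw [solN_inr]
      simp

omit [Fintype κ] in
theorem exists_nbhdN {U : Scheme.{0}} (z : ι → (U ⟶ Z)) (u : U) (i : ι → κ)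
    (hi : ∀ r, ⊤ ≤ (U.fromSpecResidueField u ≫ z r) ⁻¹ᵁ C.D (i r)) (J : ι → κ)
    (hdet : IsUnit (Matrix.det (Matrix.of fun r s : ι =>
      C.val (U.fromSpecResidueField u ≫ z r) (i r) (hi r) (J s)))) :
    ∃ (O : U.Opens) (hO : ∀ r, O ≤ z r ⁻¹ᵁ C.D (i r)), u ∈ O ∧
      IsUnit (Matrix.det (Matrix.of fun r s : ι =>
        (z r).appLE (C.D (i r)) O (hO r) (C.f (i r) (J s)))) := by
  set x := U.fromSpecResidueField u with hx
  have hx' : ∀ y, x y = u := fun y => U.fromSpecResidueField_apply u y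
  obtain ⟨y₀⟩ : Nonempty (Spec (U.residueField u)) := inferInstance
  let O₀ : U.Opens := Finset.univ.inf fun r => z r ⁻¹ᵁ C.D (i r)
  have hO₀ : ∀ r, O₀ ≤ z r ⁻¹ᵁ C.D (i r) := fun r => Finset.inf_le (Finset.mem_univ r)
  have huO : u ∈ O₀ := by
    have h1 : (O₀ : Set U) = ⋂ r ∈ Finset.univ, ((z r ⁻¹ᵁ C.D (i r) : U.Opens) : Set U) := by
      exact TopologicalSpace.Opens.coe_finset_inf _ _ |>.trans (by simp)
    change u ∈ (O₀ : Set U)
    rw [h1]
    simp only [Finset.mem_univ, Set.iInter_true, Set.mem_iInter]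
    intro r
    have h2 : (x ≫ z r) y₀ ∈ C.D (i r) := hi r (Set.mem_univ y₀)
    have h3 : z r (x y₀) ∈ C.D (i r) := h2
    rw [hx' y₀] at h3
    exact h3
  let δ : Γ(U, O₀) := Matrix.det (Matrix.of fun r s : ι =>
    (z r).appLE (C.D (i r)) O₀ (hO₀ r) (C.f (i r) (J s)))
  have hle : U.basicOpen δ ≤ O₀ := U.basicOpen_le _
  have hxO : ⊤ ≤ x ⁻¹ᵁ O₀ := fun y _ => by
    change x y ∈ O₀
    rw [hx' y]
    exact huO
  have e1 : ∀ r l, C.val (x ≫ z r) (i r) (hi r) l =
      x.appLE O₀ ⊤ hxO ((z r).appLE (C.D (i r)) O₀ (hO₀ r) (C.f (i r) l)) := fun r l => by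
    rw [← CommRingCat.comp_apply, Scheme.Hom.appLE_comp_appLE]
    rfl
  have e2 : x.appLE O₀ ⊤ hxO δ = Matrix.det (Matrix.of fun r s : ι =>
      C.val (x ≫ z r) (i r) (hi r) (J s)) := by
    refine (RingHom.map_det (x.appLE O₀ ⊤ hxO).hom _).trans ?_
    congr 1
    ext r s
    exact (e1 r (J s)).symm
  have huδ : u ∈ U.basicOpen δ := by
    have h1 : IsUnit (x.appLE O₀ ⊤ hxO δ) := by rw [e2]; exact hdet
    have h2 := Scheme.basicOpen_of_isUnit _ h1
    rw [Scheme.basicOpen_appLE] at h2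
    have h3 : y₀ ∈ (⊤ ⊓ x ⁻¹ᵁ U.basicOpen δ : (Spec (U.residueField u)).Opens) := by
      rw [h2]; trivial
    have h4 : x y₀ ∈ U.basicOpen δ := h3.2
    rwa [hx' y₀] at h4
  refine ⟨U.basicOpen δ, fun r => hle.trans (hO₀ r), huδ, ?_⟩
  have h1 : IsUnit (U.presheaf.map (homOfLE hle).op δ) :=
    RingedSpace.isUnit_res_basicOpen U.toRingedSpace δ
  have h2 : U.presheaf.map (homOfLE hle).op δ = Matrix.det (Matrix.of fun r s : ι =>
      (z r).appLE (C.D (i r)) (U.basicOpen δ) (hle.trans (hO₀ r)) (C.f (i r) (J s))) := by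
    refine (RingHom.map_det (U.presheaf.map (homOfLE hle).op).hom _).trans ?_
    congr 1
    ext r s
    change U.presheaf.map (homOfLE hle).op
      ((z r).appLE (C.D (i r)) O₀ (hO₀ r) (C.f (i r) (J s))) = _
    rw [← CommRingCat.comp_apply, Scheme.Hom.appLE_map]
    rfl
  rw [← h2]
  exact h1

theorem bundleN [Nonempty ι] {U W : Scheme.{0}} (z : ι → (U ⟶ Z))
    (hind : ∀ u : U, ∃ (i : ι → κ)
      (hi : ∀ r, ⊤ ≤ (U.fromSpecResidueField u ≫ z r) ⁻¹ᵁ C.D (i r)) (e : ι ⊕ ν ≃ κ),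
      IsUnit (Matrix.det (Matrix.of fun r s : ι =>
        C.val (U.fromSpecResidueField u ≫ z r) (i r) (hi r) (e (Sum.inl s)))))
    (f : W ⟶ U) (c : ι → (W ⟶ C.I)) (h₁ : ∀ r, c r ≫ C.toZ = f ≫ z r)
    (h₃ : ∀ r r' l, (c r).appTop (C.vec l) = (c r').appTop (C.vec l))
    (ex : ∀ (T : Scheme.{0}) (u : T ⟶ U) (t : ι → (T ⟶ C.I)), (∀ r, t r ≫ C.toZ = u ≫ z r) →
      (∀ r r' l, (t r).appTop (C.vec l) = (t r').appTop (C.vec l)) →
      ∃ t' : T ⟶ W, t' ≫ f = u ∧ ∀ r, t' ≫ c r = t r)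
    (un : ∀ (T : Scheme.{0}) (t t' : T ⟶ W), t ≫ f = t' ≫ f → (∀ r, t ≫ c r = t' ≫ c r) →
      t = t') : Sign.IsAffineBundle f := by
  intro x
  obtain ⟨i, hi, e, hdet⟩ := hind x
  obtain ⟨O, hO, hx, hM⟩ := C.exists_nbhdN z x i hi (fun s => e (Sum.inl s)) hdet
  have hO' : ⊤ ≤ O.ι ⁻¹ᵁ O := by simp
  have hi' : ∀ r, ⊤ ≤ (O.ι ≫ z r) ⁻¹ᵁ C.D (i r) := fun r => hO'.trans (pre_mono O.ι (hO r))
  have e1 : ∀ r l, C.val (O.ι ≫ z r) (i r) (hi' r) l =
      O.ι.appLE O ⊤ hO' ((z r).appLE (C.D (i r)) O (hO r) (C.f (i r) l)) := fun r l => by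
    rw [← CommRingCat.comp_apply, Scheme.Hom.appLE_comp_appLE]
    rfl
  have hu : IsUnit (Matrix.det (Matrix.of fun r s : ι =>
      C.val (O.ι ≫ z r) (i r) (hi' r) (e (Sum.inl s)))) := by
    have h1 := hM.map (O.ι.appLE O ⊤ hO').hom
    rw [RingHom.map_det] at h1
    refine Eq.mp ?_ h1
    congr 2
    ext r s
    exact (e1 r _).symm
  have pb := isPullback_morphismRestrict f O
  have hr : f ∣_ O ≫ O.ι = (f ⁻¹ᵁ O).ι ≫ f := morphismRestrict_ι f O
  obtain ⟨e', he⟩ := C.exists_isoN (fun r => O.ι ≫ z r) hi' e hu (f ∣_ O)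
    (fun r => (f ⁻¹ᵁ O).ι ≫ c r)
    (fun r => by rw [Category.assoc, h₁, ← Category.assoc, ← hr, Category.assoc])
    (fun r r' l => by
      rw [Scheme.Hom.comp_appTop, Scheme.Hom.comp_appTop, CommRingCat.comp_apply,
        CommRingCat.comp_apply, h₃ r r'])
    (fun T u t ht₁ ht₃ => by
      obtain ⟨t', g₀, g₁⟩ := ex T (u ≫ O.ι) t (fun r => by rw [ht₁, Category.assoc]) ht₃
      refine ⟨pb.lift u t' g₀.symm, pb.lift_fst _ _ _, fun r => ?_⟩
      rw [← Category.assoc, pb.lift_snd, g₁])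
    (fun T t t' g₀ g₁ => by
      rw [← cancel_mono (f ⁻¹ᵁ O).ι]
      refine un T _ _ ?_ fun r => ?_
      · rw [Category.assoc, Category.assoc, ← hr, ← Category.assoc, g₀, Category.assoc]
      · rw [Category.assoc, Category.assoc, g₁])
  refine ⟨O, Fintype.card ν, e' ≪≫ reindexIso (Fintype.equivFin _) _, hx, ?_⟩
  rw [Iso.trans_hom, Category.assoc, ← he]
  congr 1
  exact AffineSpace.reindex_over _ _

end Coord

end Pool.Agent.Lib.MP_4ca46c_ag.Hyp
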