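import Mathlib
import Pool.Agent.Lib.MP_4ca46c_ag.Hyp.BundleN
import Pool.Agent.Lib.MP_4ca46c_ag.Hyp.Segre

/-!
# The cube of an embedding separates four points
-/

namespace Pool.Agent.Lib.MP_4ca46c_ag.Hyp

open CategoryTheory Limits AlgebraicGeometry Opposite

section algebra

variable {ι κ : Type} [Fintype ι] [Fintype κ] [DecidableEq ι] {K : Type*} [Field K]

/-- A matrix with linearly independent rows has a nonzero maximal minor. -/
theorem exists_minorN (A : ι → κ → K) (h : LinearIndependent K A) : ∃ J : ι → κ,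
    Function.Injective J ∧ IsUnit (Matrix.det (Matrix.of fun r s : ι => A r (J s))) := by
  let B : κ → ι → K := fun l r => A r l
  have hspan : Submodule.span K (Set.range B) = ⊤ := by
    have h1 : LinearIndependent K (Matrix.of A).row := h
    have h2 := h1.rank_matrix
    rw [Matrix.rank_eq_finrank_span_cols] at h2
    apply Submodule.eq_top_of_finrank_eq
    rw [Module.finrank_fintype_fun_eq_card]
    exact h2
  obtain ⟨κ₁, a, ha, hsp, hli⟩ := exists_linearIndependent' K B
  have : Finite κ₁ := Finite.of_injective a ha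
  have := Fintype.ofFinite κ₁
  have hb : Fintype.card κ₁ = Fintype.card ι := by
    have h1 := finrank_span_eq_card hli
    rw [hsp, hspan, finrank_top, Module.finrank_fintype_fun_eq_card] at h1
    exact h1.symm
  let e : ι ≃ κ₁ := Fintype.equivOfCardEq hb.symm
  refine ⟨a ∘ e, ha.comp e.injective, ?_⟩
  have h1 : LinearIndependent K (Matrix.of fun r s : ι => A r ((a ∘ e) s)).col :=
    hli.comp e e.injective
  rw [← Matrix.isUnit_iff_isUnit_det]
  exact Matrix.linearIndependent_cols_iff_isUnit.1 h1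

omit [DecidableEq ι] in
/-- Extension of an injective map to a bijection. -/
theorem exists_splitN (J : ι → κ) (hJ : Function.Injective J) (m : ℕ)
    (hm : Fintype.card κ = Fintype.card ι + m) : ∃ e : ι ⊕ Fin m ≃ κ, ∀ s, e (Sum.inl s) = J s := by
  classical
  have h1 : Fintype.card {l // l ∉ Set.range J} = m := by
    have h2 : Fintype.card {l // l ∈ Set.range J} = Fintype.card ι :=
      (Fintype.card_congr (Equiv.ofInjective J hJ)).symm
    rw [Fintype.card_subtype_compl, h2]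
    omega
  have e₁ : Fin m ≃ {l // l ∉ Set.range J} := (Fintype.equivFinOfCardEq h1).symm
  refine ⟨(Equiv.sumCongr (Equiv.ofInjective J hJ) e₁).trans (Equiv.Set.sumCompl (Set.range J)),
    fun s => ?_⟩
  simp only [Equiv.trans_apply, Equiv.sumCongr_apply, Sum.map_inl]
  rw [Equiv.Set.sumCompl_apply_inl]
  rfl

/-- The cube of a vector. -/
def cubeV (v : κ → K) (l : (κ × κ) × κ) : K := v l.1.1 * v l.1.2 * v l.2

omit [Fintype ι] [DecidableEq ι] in
theorem sum_cubeV (c : Fin 3 → κ → K) (v : κ → K) :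
    ∑ l : (κ × κ) × κ, c 0 l.1.1 * c 1 l.1.2 * c 2 l.2 * cubeV v l =
      ∏ a, ∑ j, c a j * v j := by
  rw [Fin.prod_univ_three, Finset.sum_mul_sum, Finset.sum_mul]
  simp only [Fintype.sum_prod_type, cubeV]
  refine Finset.sum_congr rfl fun i _ => ?_
  rw [Finset.sum_mul]
  refine Finset.sum_congr rfl fun j _ => ?_
  rw [Finset.mul_sum]
  refine Finset.sum_congr rfl fun l _ => ?_
  ring

/-- The cubes of at most four vectors which are pairwise independent are independent. -/
theorem cube_linInd (hι : Fintype.card ι ≤ 4) (v : ι → κ → K) (h0 : ∀ r, ∃ p, v r p ≠ 0)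
    (h : ∀ r r', r ≠ r' → ∃ p q, v r p * v r' q ≠ v r q * v r' p) :
    LinearIndependent K fun r => cubeV (v r) := by
  classical
  rw [Fintype.linearIndependent_iff]
  intro g hg r₀
  -- a form which does not vanish on `v r₀`
  obtain ⟨p₀, hp₀⟩ := h0 r₀
  have hform : ∀ s : {s // s ≠ r₀}, ∃ c : κ → K, ∑ j, c j * v r₀ j ≠ 0 ∧
      ∑ j, c j * v s.1 j = 0 := by
    intro s
    obtain ⟨p, q, hpq⟩ := h r₀ s.1 s.2.symm
    refine ⟨fun j => (if j = p then v s.1 q else 0) - (if j = q then v s.1 p else 0), ?_, ?_⟩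
    · simp only [sub_mul, ite_mul, zero_mul, Finset.sum_sub_distrib, Finset.sum_ite_eq',
        Finset.mem_univ, if_true]
      rw [sub_ne_zero]
      intro h1
      exact hpq (by linear_combination h1)
    · simp only [sub_mul, ite_mul, zero_mul, Finset.sum_sub_distrib, Finset.sum_ite_eq',
        Finset.mem_univ, if_true]
      ring
  choose cf hcf₁ hcf₂ using hform
  have hcard : Fintype.card {s // s ≠ r₀} ≤ Fintype.card (Fin 3) := by
    rw [Fintype.card_subtype_compl, Fintype.card_fin]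
    simp
    omega
  obtain ⟨σ⟩ : Nonempty ({s // s ≠ r₀} ↪ Fin 3) := Function.Embedding.nonempty_of_card_le hcard
  let c : Fin 3 → κ → K := fun a => if ha : ∃ s, σ s = a then cf ha.choose else
    fun j => if j = p₀ then 1 else 0
  have hc₁ : ∀ a, ∑ j, c a j * v r₀ j ≠ 0 := by
    intro a
    by_cases ha : ∃ s, σ s = a
    · have h1 : c a = cf ha.choose := dif_pos ha
      rw [h1]
      exact hcf₁ _
    · have h1 : c a = fun j => if j = p₀ then 1 else 0 := dif_neg ha
      rw [h1]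
      simpa using hp₀
  have hc₂ : ∀ s : {s // s ≠ r₀}, ∑ j, c (σ s) j * v s.1 j = 0 := by
    intro s
    have ha : ∃ s', σ s' = σ s := ⟨s, rfl⟩
    have h1 : c (σ s) = cf ha.choose := dif_pos ha
    have h2 : ha.choose = s := σ.injective ha.choose_spec
    rw [h1, h2]
    exact hcf₂ s
  have h1 : ∑ l : (κ × κ) × κ, c 0 l.1.1 * c 1 l.1.2 * c 2 l.2 *
      (∑ r, g r • cubeV (v r)) l = 0 := by
    rw [hg]
    simp
  have h2 : ∑ l : (κ × κ) × κ, c 0 l.1.1 * c 1 l.1.2 * c 2 l.2 *
      (∑ r, g r • cubeV (v r)) l = ∑ r, g r * ∏ a, ∑ j, c a j * v r j := by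
    simp only [Finset.sum_apply, Pi.smul_apply, smul_eq_mul, Finset.mul_sum]
    rw [Finset.sum_comm]
    refine Finset.sum_congr rfl fun r _ => ?_
    rw [← sum_cubeV, Finset.mul_sum]
    refine Finset.sum_congr rfl fun l _ => ?_
    ring
  rw [h2, Finset.sum_eq_single r₀] at h1
  · exact (mul_eq_zero.1 h1).resolve_right (Finset.prod_ne_zero_iff.2 fun a _ => hc₁ a)
  · intro r _ hr
    rw [Finset.prod_eq_zero (Finset.mem_univ (σ ⟨r, hr⟩)) (hc₂ ⟨r, hr⟩), mul_zero]
  · intro h3
    exact absurd (Finset.mem_univ _) h3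

end algebra

section scheme

variable {Z S : Scheme.{0}} {s : Z ⟶ S} {κ : Type} (C : Coord s κ)
  (C' : Coord s ((κ × κ) × κ))

/-- `C'` is the cube of `C`: the coordinates of `C'` are the products of three coordinates
of `C`. -/
def IsCube : Prop := ∀ (T : Scheme.{0}) (t : T ⟶ Z) (i : κ) (h : ⊤ ≤ t ⁻¹ᵁ C.D i),
  ∃ h' : ⊤ ≤ t ⁻¹ᵁ C'.D ((i, i), i), ∀ l : (κ × κ) × κ,
    C'.val t ((i, i), i) h' l = C.val t i h l.1.1 * C.val t i h l.1.2 * C.val t i h l.2

variable {C C'}

theorem cube_ind [Fintype κ] (hC : IsCube C C') {ι : Type} [Fintype ι] [DecidableEq ι]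
    (hι : Fintype.card ι ≤ 4) {U : Scheme.{0}} (z : ι → (U ⟶ Z))
    (hz : ∀ r r', z r ≫ s = z r' ≫ s) (u : U)
    (hne : ∀ r r', r ≠ r' →
      U.fromSpecResidueField u ≫ z r ≠ U.fromSpecResidueField u ≫ z r') :
    ∃ (i : ι → (κ × κ) × κ)
      (hi : ∀ r, ⊤ ≤ (U.fromSpecResidueField u ≫ z r) ⁻¹ᵁ C'.D (i r))
      (J : ι → (κ × κ) × κ), Function.Injective J ∧
      IsUnit (Matrix.det (Matrix.of fun r s : ι =>
        C'.val (U.fromSpecResidueField u ≫ z r) (i r) (hi r) (J s))) := by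
  set x := U.fromSpecResidueField u with hx
  have hx' : ∀ y, x y = u := fun y => U.fromSpecResidueField_apply u y
  have hch : ∀ r, ∃ i, ⊤ ≤ (x ≫ z r) ⁻¹ᵁ C.D i := fun r => by
    obtain ⟨i, hi⟩ := TopologicalSpace.Opens.mem_iSup.1 (C.iSup_D.ge (Set.mem_univ (z r u)))
    refine ⟨i, fun y _ => ?_⟩
    change z r (x y) ∈ C.D i
    rw [hx' y]
    exact hi
  choose i hi using hch
  choose hi' hv using fun r => hC _ (x ≫ z r) (i r) (hi r)
  let ρ := Scheme.ΓSpecIso (U.residueField u)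
  let v : ι → κ → U.residueField u := fun r l => ρ.hom (C.val (x ≫ z r) (i r) (hi r) l)
  have hρ : ∀ a b, ρ.hom a = ρ.hom b → a = b := fun a b h => by
    have h1 := congrArg ρ.inv h
    rw [← CommRingCat.comp_apply, ← CommRingCat.comp_apply, Iso.hom_inv_id] at h1
    exact h1
  have h1 : LinearIndependent (U.residueField u) fun r => cubeV (v r) := by
    refine cube_linInd hι v (fun r => ⟨i r, ?_⟩) fun r r' hrr => ?_
    · have h2 : C.val (x ≫ z r) (i r) (hi r) (i r) = 1 := by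
        rw [Coord.val, C.f_self, map_one]
      change ρ.hom (C.val (x ≫ z r) (i r) (hi r) (i r)) ≠ 0
      rw [h2, map_one]
      exact one_ne_zero
    · by_contra hcon
      push Not at hcon
      refine hne r r' hrr (C.eq_of_minors (x ≫ z r) (x ≫ z r')
        (by rw [Category.assoc, Category.assoc, hz r r']) (hi r) (hi r') fun p q => ?_)
      apply hρ
      rw [map_mul, map_mul]
      exact hcon p q
  obtain ⟨J, hJ, hdet⟩ := exists_minorN _ h1
  refine ⟨fun r => ((i r, i r), i r), hi', J, hJ, ?_⟩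
  have h2 : ρ.hom.hom (Matrix.det (Matrix.of fun r s : ι =>
      C'.val (x ≫ z r) ((i r, i r), i r) (hi' r) (J s))) =
      Matrix.det (Matrix.of fun r s : ι => cubeV (v r) (J s)) := by
    rw [RingHom.map_det]
    congr 1
    ext r s
    change ρ.hom (C'.val (x ≫ z r) ((i r, i r), i r) (hi' r) (J s)) = cubeV (v r) (J s)
    rw [hv, map_mul, map_mul]
    rfl
  rw [← h2] at hdet
  have h3 := hdet.map ρ.inv.hom
  have h4 : ∀ a, ρ.inv.hom (ρ.hom.hom a) = a := fun a => by
    have h5 : (ρ.hom ≫ ρ.inv) a = a := by rw [Iso.hom_inv_id]; rfl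
    exact h5
  rwa [h4] at h3

/-- At most four different points impose independent conditions on the hyperplane sections
of the cube. -/
theorem bundle_cube [Fintype κ] (hC : IsCube C C') {ι : Type} [Fintype ι] [DecidableEq ι]
    [Nonempty ι] (hι : Fintype.card ι ≤ 4)
    {U W : Scheme.{0}} (z : ι → (U ⟶ Z)) (hz : ∀ r r', z r ≫ s = z r' ≫ s)
    (hne : ∀ (u : U) r r', r ≠ r' →
      U.fromSpecResidueField u ≫ z r ≠ U.fromSpecResidueField u ≫ z r')
    (f : W ⟶ U) (c : ι → (W ⟶ C'.I)) (h₁ : ∀ r, c r ≫ C'.toZ = f ≫ z r)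
    (h₃ : ∀ r r' l, (c r).appTop (C'.vec l) = (c r').appTop (C'.vec l))
    (ex : ∀ (T : Scheme.{0}) (u : T ⟶ U) (t : ι → (T ⟶ C'.I)),
      (∀ r, t r ≫ C'.toZ = u ≫ z r) →
      (∀ r r' l, (t r).appTop (C'.vec l) = (t r').appTop (C'.vec l)) →
      ∃ t' : T ⟶ W, t' ≫ f = u ∧ ∀ r, t' ≫ c r = t r)
    (un : ∀ (T : Scheme.{0}) (t t' : T ⟶ W), t ≫ f = t' ≫ f → (∀ r, t ≫ c r = t' ≫ c r) →
      t = t') : Sign.IsAffineBundle f := by
  by_cases hU : IsEmpty U
  · intro u
    exact hU.elim u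
  · rw [not_isEmpty_iff] at hU
    obtain ⟨u₀⟩ := hU
    obtain ⟨-, -, J₀, hJ₀, -⟩ := cube_ind hC hι z hz u₀ (hne u₀)
    have hcard : Fintype.card ι ≤ Fintype.card ((κ × κ) × κ) :=
      Fintype.card_le_of_injective J₀ hJ₀
    refine C'.bundleN (ν := Fin (Fintype.card ((κ × κ) × κ) - Fintype.card ι)) z (fun u => ?_)
      f c h₁ h₃ ex un
    obtain ⟨i, hi, J, hJ, hdet⟩ := cube_ind hC hι z hz u (hne u)
    obtain ⟨e, he⟩ := exists_splitN J hJ _ (Nat.add_sub_cancel' hcard).symm
    refine ⟨i, hi, e, ?_⟩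
    simp only [he]
    exact hdet

end scheme

end Pool.Agent.Lib.MP_4ca46c_ag.Hyp
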