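import Mathlib
import Pool.Agent.Lib.MP_4ca46c_ag.Hyp.HypMap

/-!
# The hyperplane `x_i = 0` is a section of the universal hyperplane
-/

namespace Pool.Agent.Lib.MP_4ca46c_ag.Hyp

open CategoryTheory Limits AlgebraicGeometry Opposite HomogeneousLocalization MvPolynomial
open Pool.Agent.Lib.MP_4ca46c_ag.Std

attribute [local instance] MvPolynomial.gradedAlgebra

variable (k : Type) [Field k] {κ : Type} [Fintype κ] [DecidableEq κ] (i : κ)

/-- The morphism from the hyperplane `x_i = 0` to the universal hyperplane section. -/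
noncomputable def hypI : PS k {j // j ≠ i} ⟶ (psCoord k κ).I :=
  (psCoord k κ).lift (hypMap k i) (Pi.single i 1) ((hyp_iff _ i).1 ⟨𝟙 _, Category.id_comp _⟩)

/-- The section `x_i` of the affine space of equations. -/
noncomputable def secX : PS k κ ⟶ 𝔸(κ; PS k κ) :=
  AffineSpace.homOfVector (𝟙 _) (Pi.single i 1)

omit [Fintype κ] in
theorem secX_over : secX k i ≫ (𝔸(κ; PS k κ) ↘ PS k κ) = 𝟙 _ := AffineSpace.homOfVector_over _ _

omit [Fintype κ] in
theorem map_single {T T' : Scheme.{0}} (t : T ⟶ T') (j : κ) :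
    t.appTop ((Pi.single i 1 : κ → Γ(T', ⊤)) j) = (Pi.single i 1 : κ → Γ(T, ⊤)) j := by
  by_cases h : j = i
  · subst h
    rw [Pi.single_eq_same, Pi.single_eq_same, map_one]
  · rw [Pi.single_eq_of_ne h, Pi.single_eq_of_ne h, map_zero]

theorem hypI_inc : hypI k i ≫ (psCoord k κ).inc = hypMap k i ≫ secX k i := by
  rw [hypI, Coord.lift_inc]
  refine AffineSpace.hom_ext ?_ fun j => ?_
  · rw [Category.assoc, secX_over, AffineSpace.homOfVector_over, Category.comp_id]
  · rw [Scheme.Hom.comp_appTop, CommRingCat.comp_apply, secX,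
      AffineSpace.homOfVector_appTop_coord, AffineSpace.homOfVector_appTop_coord, map_single]

theorem isPullback_hypI :
    IsPullback (hypI k i) (hypMap k i) (psCoord k κ).inc (secX k i) := by
  have key : ∀ {T : Scheme.{0}} (a : T ⟶ (psCoord k κ).I) (b : T ⟶ PS k κ),
      a ≫ (psCoord k κ).inc = b ≫ secX k i → ∃ t', t' ≫ hypMap k i = b := fun {T} a b h => by
    have h1 := (psCoord k κ).van a
    have h2 : a ≫ (psCoord k κ).toZ = b := by
      rw [Coord.toZ, ← Category.assoc, h, Category.assoc, secX_over, Category.comp_id]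
    have h3 : (fun j => a.appTop ((psCoord k κ).vec j)) = (Pi.single i 1 : κ → Γ(T, ⊤)) := by
      funext j
      rw [Coord.vec, ← CommRingCat.comp_apply, ← Scheme.Hom.comp_appTop, h,
        Scheme.Hom.comp_appTop, CommRingCat.comp_apply, secX,
        AffineSpace.homOfVector_appTop_coord, map_single]
    rw [h2, h3] at h1
    exact (hyp_iff b i).2 h1
  refine ⟨⟨hypI_inc k i⟩, ⟨PullbackCone.IsLimit.mk _
    (fun c => (key c.fst c.snd c.condition).choose) (fun c => ?_) (fun c => ?_)
      (fun c m h1 h2 => ?_)⟩⟩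
  · rw [← cancel_mono (psCoord k κ).inc, Category.assoc, hypI_inc, ← Category.assoc,
      (key c.fst c.snd c.condition).choose_spec, c.condition]
  · exact (key c.fst c.snd c.condition).choose_spec
  · rw [← cancel_mono (hypMap k i), (key c.fst c.snd c.condition).choose_spec, h2]

end Pool.Agent.Lib.MP_4ca46c_ag.Hyp
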